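import Mathlib

/-! General commutator calculus in nilpotent groups. -/

namespace Pool.Agent.helper3

open Subgroup
open scoped commutatorElement

section basic

variable {G : Type*} [Group G]

/-- `gam G n` is the `(n+1)`-st term of the lower central series. -/
abbrev gam (G : Type*) [Group G] (n : ℕ) : Subgroup G :=
  (⊤ : Subgroup G).lowerCentralSeries n

theorem gam_zero : gam G 0 = ⊤ := rfl

theorem gam_succ (n : ℕ) : gam G (n + 1) = ⁅gam G n, ⊤⁆ := rfl

instance gam_normal (n : ℕ) : (gam G n).Normal := by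
  unfold gam; infer_instance

theorem gam_antitone : Antitone (gam G) := Subgroup.lowerCentralSeries_antitone _

/-- Three subgroups lemma modulo a normal subgroup. -/
theorem three_subgroups (H₁ H₂ H₃ N : Subgroup G) [N.Normal]
    (h1 : ⁅⁅H₂, H₃⁆, H₁⁆ ≤ N) (h2 : ⁅⁅H₃, H₁⁆, H₂⁆ ≤ N) : ⁅⁅H₁, H₂⁆, H₃⁆ ≤ N := by
  have key : ∀ K : Subgroup G, K ≤ N ↔ K.map (QuotientGroup.mk' N) = ⊥ := by
    intro K
    rw [Subgroup.map_eq_bot_iff, QuotientGroup.ker_mk']
  rw [key] at h1 h2 ⊢
  rw [Subgroup.map_commutator, Subgroup.map_commutator] at h1 h2 ⊢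
  exact commutator_commutator_eq_bot_of_rotate h1 h2

theorem gam_comm (i j : ℕ) : ⁅gam G i, gam G j⁆ ≤ gam G (i + j + 1) := by
  induction j generalizing i with
  | zero => exact le_of_eq rfl
  | succ j ih =>
    rw [commutator_comm, gam_succ]
    apply three_subgroups
    · rw [commutator_comm ⊤ (gam G i), ← gam_succ]
      have := ih (i + 1)
      have e : i + 1 + j + 1 = i + (j + 1) + 1 := by ring
      rwa [e] at this
    · have := commutator_mono (ih i) (le_refl (⊤ : Subgroup G))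
      rw [← gam_succ] at this
      exact this

theorem comm_mem {i j : ℕ} {x y : G} (hx : x ∈ gam G i) (hy : y ∈ gam G j) :
    ⁅x, y⁆ ∈ gam G (i + j + 1) := gam_comm i j (commutator_mem_commutator hx hy)

theorem comm_mem_left {i : ℕ} {x : G} (hx : x ∈ gam G i) (y : G) :
    ⁅x, y⁆ ∈ gam G (i + 1) := commutator_mem_commutator hx (mem_top y)

theorem mem_gam_of_le {i j : ℕ} (h : i ≤ j) {x : G} (hx : x ∈ gam G j) : x ∈ gam G i :=
  gam_antitone h hx

theorem central_of_mem {n : ℕ} (h : gam G (n + 1) = ⊥) {g : G} (hg : g ∈ gam G n) :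
    g ∈ center G := by
  rw [gam_succ, commutator_top_right_eq_bot_iff_le_center] at h
  exact h hg

theorem eq_one_of_mem {n m : ℕ} (h : gam G n = ⊥) (hm : n ≤ m) {g : G} (hg : g ∈ gam G m) :
    g = 1 := by
  have : g ∈ gam G n := gam_antitone hm hg
  rw [h] at this
  exact (mem_bot.mp this)

theorem gam_eq_bot_of_le {n m : ℕ} (h : gam G n = ⊥) (hm : n ≤ m) : gam G m = ⊥ :=
  le_bot_iff.mp (h ▸ gam_antitone hm)

theorem map_gam_le {H : Type*} [Group H] (f : G →* H) (n : ℕ) :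
    (gam G n).map f ≤ gam H n := by
  rw [map_lowerCentralSeries]
  exact lowerCentralSeries_mono n le_top

theorem map_mem_gam {H : Type*} [Group H] (f : G →* H) {n : ℕ} {x : G} (hx : x ∈ gam G n) :
    f x ∈ gam H n := map_gam_le f n (mem_map_of_mem f hx)

theorem gam_eq_bot_of_surj {H : Type*} [Group H] (f : G →* H) (hf : Function.Surjective f)
    {n : ℕ} (h : gam G n = ⊥) : gam H n = ⊥ := by
  have : (gam G n).map f = gam H n := by
    rw [map_lowerCentralSeries, map_top_of_surjective f hf]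
  rw [← this, h, Subgroup.map_bot]

theorem gam_quot_eq_bot (n : ℕ) : gam (G ⧸ gam G n) n = ⊥ := by
  have : (gam G n).map (QuotientGroup.mk' (gam G n)) = gam (G ⧸ gam G n) n := by
    rw [map_lowerCentralSeries, map_top_of_surjective _ (QuotientGroup.mk'_surjective _)]
  rw [← this, Subgroup.map_eq_bot_iff, QuotientGroup.ker_mk']

/-- central second factor on the left -/
theorem comm_mul_left {x x' y : G} (h : ⁅x', y⁆ ∈ center G) :
    ⁅x * x', y⁆ = ⁅x, y⁆ * ⁅x', y⁆ := by
  rw [commutatorElement_mul_left_eq_conj_mul]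
  have h1 : x * ⁅x', y⁆ = ⁅x', y⁆ * x := (mem_center_iff.mp h x)
  have h2 : ⁅x, y⁆ * ⁅x', y⁆ = ⁅x', y⁆ * ⁅x, y⁆ := (mem_center_iff.mp h _)
  rw [h1, h2]; group

theorem comm_mul_right {x y y' : G} (h : ⁅x, y'⁆ ∈ center G) :
    ⁅x, y * y'⁆ = ⁅x, y⁆ * ⁅x, y'⁆ := by
  rw [commutatorElement_mul_right_eq_mul_conj]
  have h1 : y * ⁅x, y'⁆ = ⁅x, y'⁆ * y := (mem_center_iff.mp h y)
  rw [mul_assoc (⁅x, y⁆) y, h1]; group

theorem comm_central_left {x y : G} (h : x ∈ center G) : ⁅x, y⁆ = 1 := by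
  rw [commutatorElement_eq_one_iff_mul_comm]
  exact (mem_center_iff.mp h y).symm

theorem comm_central_right {x y : G} (h : y ∈ center G) : ⁅x, y⁆ = 1 := by
  rw [commutatorElement_eq_one_iff_mul_comm]
  exact (mem_center_iff.mp h x)

/-- Jacobi identity at the top weight. -/
theorem jacobi {i j k : ℕ} (h : gam G (i + j + k + 3) = ⊥) {x y z : G}
    (hx : x ∈ gam G i) (hy : y ∈ gam G j) (hz : z ∈ gam G k) :
    ⁅⁅x, y⁆, z⁆ * ⁅⁅y, z⁆, x⁆ * ⁅⁅z, x⁆, y⁆ = 1 := by
  have hw := commutatorElement_commutatorElement_conj_mul x y z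
  have aux : ∀ (a b c : ℕ) (u v w : G), u ∈ gam G a → v ∈ gam G b → w ∈ gam G c →
      a + b + c + 3 = i + j + k + 3 → ⁅⁅u, v⁆, v * w * v⁻¹⁆ = ⁅⁅u, v⁆, w⁆ := by
    intro a b c u v w hu hv hw' e
    have e1 : v * w * v⁻¹ = ⁅v, w⁆ * w := by simp [commutatorElement_def]
    have hc : ⁅⁅u, v⁆, w⁆ ∈ center G := by
      apply central_of_mem (n := a + b + 1 + c + 1)
      · rw [← h]; congr 1; omega
      · exact comm_mem (comm_mem hu hv) hw'
    rw [e1, comm_mul_right hc]
    have : ⁅⁅u, v⁆, ⁅v, w⁆⁆ = 1 := by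
      apply eq_one_of_mem h (m := (a + b + 1) + (b + c + 1) + 1)
      · omega
      · exact comm_mem (comm_mem hu hv) (comm_mem hv hw')
    rw [this, one_mul]
  rw [aux i j k x y z hx hy hz rfl, aux j k i y z x hy hz hx (by ring),
    aux k i j z x y hz hx hy (by ring)] at hw
  exact hw

end basic

end Pool.Agent.helper3
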