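import Mathlib
import Pool.Agent.helper3.Comm

/-! Left-normed commutators as multilinear maps, and spanning of the lower central factors. -/

namespace Pool.Agent.helper3

open Subgroup
open scoped commutatorElement

section lc

/-- left-normed commutator of `n+1` elements -/
def lc {G : Type*} [Group G] : (n : ℕ) → (Fin (n + 1) → G) → G
  | 0, v => v 0
  | n + 1, v => ⁅lc n (Fin.init v), v (Fin.last (n + 1))⁆

variable {G : Type*} [Group G]

theorem lc_mem : ∀ (n : ℕ) (v : Fin (n + 1) → G), lc n v ∈ gam G n
  | 0, _ => mem_top _
  | n + 1, _ => comm_mem_left (lc_mem n _) _

theorem map_lc {H : Type*} [Group H] (f : G →* H) :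
    ∀ (n : ℕ) (v : Fin (n + 1) → G), f (lc n v) = lc n (fun i => f (v i))
  | 0, _ => rfl
  | n + 1, v => by
    rw [lc, map_commutatorElement, map_lc f n]
    rfl

theorem lc_mul (n : ℕ) : ∀ (G : Type) [Group G], gam G (n + 1) = ⊥ →
    ∀ (v : Fin (n + 1) → G) (i : Fin (n + 1)) (a b : G),
    lc n (Function.update v i (a * b)) =
      lc n (Function.update v i a) * lc n (Function.update v i b) := by
  induction n with
  | zero =>
    intro G _ _ v i a b
    have hi : i = 0 := Fin.ext (by omega)
    subst hi
    simp [lc]
  | succ n ih =>
    intro G _ h v i a b
    induction i using Fin.lastCases with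
    | last =>
      simp only [lc, Fin.init_update_last, Function.update_self]
      apply comm_mul_right
      apply central_of_mem h
      exact comm_mem_left (lc_mem _ _) _
    | cast i =>
      simp only [lc, Fin.init_update_castSucc]
      have hne : Fin.last (n + 1) ≠ i.castSucc := (Fin.castSucc_lt_last i).ne'
      rw [Function.update_of_ne hne, Function.update_of_ne hne, Function.update_of_ne hne]
      have h2 := ih (G ⧸ gam G (n + 1)) (gam_quot_eq_bot (n + 1))
        (fun k => (QuotientGroup.mk' (gam G (n + 1))) (Fin.init v k)) i
        (QuotientGroup.mk' _ a) (QuotientGroup.mk' _ b)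
      have hu : ∀ c : G, Function.update
          (fun k => (QuotientGroup.mk' (gam G (n + 1))) ((Fin.init v : Fin (n + 1) → G) k)) i
          (QuotientGroup.mk' (gam G (n + 1)) c) =
          fun k => QuotientGroup.mk' (gam G (n + 1)) (Function.update (Fin.init v) i c k) := by
        intro c
        funext k
        by_cases hk : k = i
        · subst hk; simp
        · simp [Function.update_of_ne hk]
      rw [← map_mul, hu, hu, hu, ← map_lc, ← map_lc, ← map_lc, ← map_mul] at h2
      have h3 : (lc n (Function.update (Fin.init v) i (a * b)))⁻¹ *
          (lc n (Function.update (Fin.init v) i a) * lc n (Function.update (Fin.init v) i b))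
          ∈ gam G (n + 1) := QuotientGroup.eq.mp h2
      set X := lc n (Function.update (Fin.init v) i (a * b)) with hX
      set A := lc n (Function.update (Fin.init v) i a)
      set B := lc n (Function.update (Fin.init v) i b)
      have h4 : A * B = X * (X⁻¹ * (A * B)) := by group
      have hcen : X⁻¹ * (A * B) ∈ center G := central_of_mem h h3
      have h5 : ⁅A * B, v (Fin.last (n + 1))⁆ = ⁅X, v (Fin.last (n + 1))⁆ := by
        rw [h4, comm_mul_left]
        · rw [comm_central_left hcen, mul_one]
        · rw [comm_central_left hcen]; exact one_mem _
      rw [← h5]
      apply comm_mul_left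
      apply central_of_mem h
      exact comm_mem_left (lc_mem _ _) _

end lc

section abel

/-- A function multiplicative in each variable, with values in an additive commutative group,
factors through a multilinear map on the abelianization. -/
theorem exists_multilinear {G : Type} [Group G] {B : Type} [AddCommGroup B] {n : ℕ}
    (f : (Fin n → G) → B)
    (hf : ∀ (v : Fin n → G) (i : Fin n) (a b : G), f (Function.update v i (a * b)) =
      f (Function.update v i a) + f (Function.update v i b)) :
    ∃ m : MultilinearMap ℤ (fun _ : Fin n => Additive (Abelianization G)) B,
      ∀ v : Fin n → G, m (fun i => Additive.ofMul (Abelianization.of (v i))) = f v := by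
  classical
  -- homs in each variable
  let φ : (Fin n → G) → Fin n → (G →* Multiplicative B) := fun v i =>
    MonoidHom.mk' (fun a => Multiplicative.ofAdd (f (Function.update v i a))) (by
      intro a b; rw [hf]; rfl)
  have hφ : ∀ v i a b, Abelianization.of a = Abelianization.of b →
      f (Function.update v i a) = f (Function.update v i b) := by
    intro v i a b hab
    have h1 : (Abelianization.lift (φ v i)) (Abelianization.of a) =
        (Abelianization.lift (φ v i)) (Abelianization.of b) := by rw [hab]
    rw [Abelianization.lift_apply_of, Abelianization.lift_apply_of] at h1
    exact Multiplicative.ofAdd.injective h1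
  have hinv : ∀ (s : Finset (Fin n)) (v w : Fin n → G), (∀ i, i ∉ s → v i = w i) →
      (∀ i, Abelianization.of (v i) = Abelianization.of (w i)) → f v = f w := by
    intro s
    induction s using Finset.induction_on with
    | empty =>
      intro v w h _
      have : v = w := funext fun i => h i (by simp)
      rw [this]
    | insert j s hj ih =>
      intro v w h hab
      have h1 : f v = f (Function.update v j (w j)) := by
        have := hφ v j (v j) (w j) (hab j)
        rwa [Function.update_eq_self] at this
      rw [h1]
      apply ih
      · intro i hi
        by_cases hij : i = j
        · subst hij; simp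
        · rw [Function.update_of_ne hij]
          apply h
          simp [hij, hi]
      · intro i
        by_cases hij : i = j
        · subst hij; simp
        · rw [Function.update_of_ne hij]; exact hab i
  have hinv' : ∀ (v w : Fin n → G),
      (∀ i, Abelianization.of (v i) = Abelianization.of (w i)) → f v = f w :=
    fun v w h => hinv Finset.univ v w (by simp) h
  have hsurj : ∀ u : Additive (Abelianization G), ∃ g : G, Additive.ofMul (Abelianization.of g) = u := by
    intro u
    obtain ⟨g, hg⟩ := QuotientGroup.mk_surjective (Additive.toMul u)
    exact ⟨g, by
      apply Additive.toMul.injective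
      exact hg⟩
  choose r hr using hsurj
  have hr' : ∀ u, Abelianization.of (r u) = Additive.toMul u := fun u =>
    congrArg Additive.toMul (hr u)
  have hadd : ∀ (u : Fin n → Additive (Abelianization G)) (i : Fin n)
      (x y : Additive (Abelianization G)),
      f (fun k => r (Function.update u i (x + y) k)) =
        f (fun k => r (Function.update u i x k)) + f (fun k => r (Function.update u i y k)) := by
    intro u i x y
    have e1 : f (fun k => r (Function.update u i (x + y) k)) =
        f (Function.update (fun k => r (u k)) i (r x * r y)) := by
      apply hinv'
      intro k
      by_cases hk : k = i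
      · subst hk
        simp [hr']
      · simp [Function.update_of_ne hk]
    have e2 : ∀ z, f (fun k => r (Function.update u i z k)) =
        f (Function.update (fun k => r (u k)) i (r z)) := by
      intro z
      apply hinv'
      intro k
      by_cases hk : k = i
      · subst hk
        simp
      · simp [Function.update_of_ne hk]
    rw [e1, e2, e2, hf]
  refine ⟨{ toFun := fun u => f (fun k => r (u k))
            map_update_add' := ?_
            map_update_smul' := ?_ }, ?_⟩
  · intro inst u i x y
    have : inst = instDecidableEqFin n := Subsingleton.elim _ _
    subst this
    exact hadd u i x y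
  · intro inst u i c x
    have : inst = instDecidableEqFin n := Subsingleton.elim _ _
    subst this
    let ψ : Additive (Abelianization G) →+ B := AddMonoidHom.mk'
      (fun x => f (fun k => r (Function.update u i x k))) (fun x y => hadd u i x y)
    exact map_zsmul ψ c x
  · intro v
    apply hinv'
    intro i
    rw [hr']
    rfl

end abel

end Pool.Agent.helper3
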