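import Mathlib
import Pool.Agent.helper3.Multi

/-! Coefficient functions of words in the lower central series. -/

namespace Pool.Agent.helper3

open Subgroup
open scoped commutatorElement IsMulCommutative

section ml

variable {G : Type} [Group G]

/-- The left-normed commutator as an element of the (additive) centre, in a group of
class at most `n+1`. -/
def lcC (n : ℕ) (h : gam G (n + 1) = ⊥) (v : Fin (n + 1) → G) : Additive (center G) :=
  Additive.ofMul ⟨lc n v, central_of_mem h (lc_mem n v)⟩

theorem lcC_add (n : ℕ) (h : gam G (n + 1) = ⊥) (v : Fin (n + 1) → G) (i : Fin (n + 1))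
    (a b : G) : lcC n h (Function.update v i (a * b)) =
      lcC n h (Function.update v i a) + lcC n h (Function.update v i b) := by
  apply Additive.toMul.injective
  apply Subtype.ext
  exact lc_mul n G h v i a b

/-- The left-normed commutator as a multilinear map. -/
noncomputable def ml (n : ℕ) (h : gam G (n + 1) = ⊥) :
    MultilinearMap ℤ (fun _ : Fin (n + 1) => Additive (Abelianization G)) (Additive (center G)) :=
  Classical.choose (exists_multilinear (lcC n h) (lcC_add n h))

/-- class of an element in the abelianization, additively -/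
abbrev ab (g : G) : Additive (Abelianization G) := Additive.ofMul (Abelianization.of g)

theorem ab_mul (a b : G) : ab (a * b) = ab a + ab b := rfl

theorem ab_one : ab (1 : G) = 0 := rfl

theorem ml_apply (n : ℕ) (h : gam G (n + 1) = ⊥) (v : Fin (n + 1) → G) :
    ml n h (fun i => ab (v i)) = lcC n h v :=
  Classical.choose_spec (exists_multilinear (lcC n h) (lcC_add n h)) v

end ml

section span

variable {G : Type} [Group G]

theorem gam_le_span (n : ℕ) :
    gam G n ≤ closure (Set.range (lc n : (Fin (n + 1) → G) → G)) ⊔ gam G (n + 1) := by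
  induction n with
  | zero =>
    intro x _
    apply mem_sup_left
    apply Subgroup.subset_closure
    exact ⟨fun _ => x, rfl⟩
  | succ n ih =>
    set S := closure (Set.range (lc (n + 1) : (Fin (n + 2) → G) → G)) ⊔ gam G (n + 2) with hS
    have hSle : S ≤ gam G (n + 1) := by
      rw [hS, sup_le_iff]
      refine ⟨?_, gam_antitone (Nat.le_succ _)⟩
      rw [closure_le]
      rintro _ ⟨v, rfl⟩
      exact lc_mem _ _
    have hSn : S.Normal := by
      constructor
      intro s hs g
      have h1 : ⁅g, s⁆ ∈ S := by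
        apply mem_sup_right
        rw [← commutatorElement_inv]
        exact inv_mem (comm_mem_left (hSle hs) g)
      have h2 : g * s * g⁻¹ = ⁅g, s⁆ * s := by simp [commutatorElement_def]
      rw [h2]
      exact mul_mem h1 hs
    rw [gam_succ, commutator_le]
    intro a ha b _
    have hmul : ∀ x y : G, ⁅x, b⁆ ∈ S → ⁅y, b⁆ ∈ S → ⁅x * y, b⁆ ∈ S := by
      intro x y hx hy
      rw [commutatorElement_mul_left_eq_conj_mul]
      exact mul_mem (hSn.conj_mem _ hy x) hx
    have hinv : ∀ x : G, ⁅x, b⁆ ∈ S → ⁅x⁻¹, b⁆ ∈ S := by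
      intro x hx
      rw [commutatorElement_inv_left, ← commutatorElement_inv]
      have := hSn.conj_mem _ (inv_mem hx) x⁻¹
      simpa using this
    have hcl : ∀ x ∈ closure (Set.range (lc n : (Fin (n + 1) → G) → G)), ⁅x, b⁆ ∈ S := by
      intro x hx
      induction hx using closure_induction with
      | mem x hx =>
        obtain ⟨v, rfl⟩ := hx
        apply mem_sup_left
        apply Subgroup.subset_closure
        refine ⟨Fin.snoc v b, ?_⟩
        simp [lc]
      | one => simp
      | mul x y _ _ hx hy => exact hmul x y hx hy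
      | inv x _ hx => exact hinv x hx
    obtain ⟨x, hx, y, hy, rfl⟩ := mem_sup_of_normal_right.mp (ih ha)
    apply hmul
    · exact hcl x hx
    · exact mem_sup_right (comm_mem_left hy b)

/-- exponent sums -/
theorem exists_deg {α : Type} [Fintype α] [DecidableEq α] (w : FreeGroup α) :
    ∃ d : α → ℤ, ∀ (G : Type) [Group G] (x : α → G),
      ab (FreeGroup.lift x w) = ∑ i, d i • ab (x i) := by
  induction w with
  | C1 => exact ⟨0, fun G _ x => by simp [ab_one]⟩
  | of i =>
    refine ⟨Pi.single i 1, fun G _ x => ?_⟩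
    rw [Finset.sum_eq_single i]
    · simp
    · intro j _ hj; simp [hj]
    · simp
  | inv_of i h =>
    obtain ⟨d, hd⟩ := h
    refine ⟨-d, fun G _ x => ?_⟩
    have := hd G x
    simp only [Pi.neg_apply, neg_smul, Finset.sum_neg_distrib, ← this, map_inv]
    rfl
  | mul x y hx hy =>
    obtain ⟨d, hd⟩ := hx
    obtain ⟨e, he⟩ := hy
    refine ⟨d + e, fun G _ x => ?_⟩
    rw [map_mul, ab_mul, hd, he]
    simp [add_smul, Finset.sum_add_distrib]

/-- `T` is a coefficient function for `w`. -/
def IsCoeff {α : Type} [Fintype α] [DecidableEq α] (n : ℕ) (w : FreeGroup α)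
    (T : (Fin (n + 1) → α) → ℤ) : Prop :=
  ∀ (G : Type) [Group G] (h : gam G (n + 1) = ⊥) (x : α → G),
    ∃ hc : FreeGroup.lift x w ∈ center G,
      Additive.ofMul (⟨FreeGroup.lift x w, hc⟩ : center G) =
        ∑ I, T I • ml n h (fun k => ab (x (I k)))

theorem exists_coeff {α : Type} [Fintype α] [DecidableEq α] (n : ℕ) (w : FreeGroup α)
    (hw : w ∈ gam (FreeGroup α) n) : ∃ T : (Fin (n + 1) → α) → ℤ, IsCoeff n w T := by
  have hone : IsCoeff (α := α) n 1 0 := by
    intro G _ h x
    exact ⟨by simp, by
      simp only [Pi.zero_apply, zero_smul, Finset.sum_const_zero]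
      apply Additive.toMul.injective
      apply Subtype.ext
      simp⟩
  have hmul : ∀ (u v : FreeGroup α) (S T : (Fin (n + 1) → α) → ℤ), IsCoeff n u S →
      IsCoeff n v T → IsCoeff n (u * v) (S + T) := by
    intro u v S T hu hv G _ h x
    obtain ⟨h1, e1⟩ := hu G h x
    obtain ⟨h2, e2⟩ := hv G h x
    refine ⟨by rw [map_mul]; exact mul_mem h1 h2, ?_⟩
    simp only [Pi.add_apply, add_smul, Finset.sum_add_distrib, ← e1, ← e2]
    apply Additive.toMul.injective
    apply Subtype.ext
    simp
  have hinv : ∀ (u : FreeGroup α) (S : (Fin (n + 1) → α) → ℤ), IsCoeff n u S →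
      IsCoeff n u⁻¹ (-S) := by
    intro u S hu G _ h x
    obtain ⟨h1, e1⟩ := hu G h x
    refine ⟨by rw [map_inv]; exact inv_mem h1, ?_⟩
    simp only [Pi.neg_apply, neg_smul, Finset.sum_neg_distrib, ← e1]
    apply Additive.toMul.injective
    apply Subtype.ext
    simp
  have hlc : ∀ v : Fin (n + 1) → FreeGroup α, ∃ T, IsCoeff n (lc n v) T := by
    intro v
    choose d hd using fun k => exists_deg (v k)
    refine ⟨fun I => ∏ k, d k (I k), ?_⟩
    intro G _ h x
    have e1 : FreeGroup.lift x (lc n v) = lc n (fun k => FreeGroup.lift x (v k)) := map_lc _ _ _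
    refine ⟨by rw [e1]; exact central_of_mem h (lc_mem _ _), ?_⟩
    have e2 : (Additive.ofMul (⟨FreeGroup.lift x (lc n v), by
        rw [e1]; exact central_of_mem h (lc_mem _ _)⟩ : center G)) =
        lcC n h (fun k => FreeGroup.lift x (v k)) := by
      apply Additive.toMul.injective
      apply Subtype.ext
      exact e1
    rw [e2, ← ml_apply]
    have e3 : (fun k => ab (FreeGroup.lift x (v k))) = fun k => ∑ i, d k i • ab (x i) := by
      funext k
      exact hd k G x
    rw [e3, MultilinearMap.map_sum]
    apply Finset.sum_congr rfl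
    intro I _
    rw [MultilinearMap.map_smul_univ]
  have hspan : ∀ u ∈ closure (Set.range (lc n : (Fin (n + 1) → FreeGroup α) → FreeGroup α)),
      ∃ T, IsCoeff n u T := by
    intro u hu
    induction hu using closure_induction with
    | mem x hx => obtain ⟨v, rfl⟩ := hx; exact hlc v
    | one => exact ⟨0, hone⟩
    | mul x y _ _ hx hy =>
      obtain ⟨S, hS⟩ := hx
      obtain ⟨T, hT⟩ := hy
      exact ⟨S + T, hmul _ _ _ _ hS hT⟩
    | inv x _ hx =>
      obtain ⟨S, hS⟩ := hx
      exact ⟨-S, hinv _ _ hS⟩
  obtain ⟨u, hu, v, hv, rfl⟩ := mem_sup_of_normal_right.mp (gam_le_span n hw)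
  obtain ⟨S, hS⟩ := hspan u hu
  refine ⟨S + 0, hmul _ _ _ _ hS ?_⟩
  intro G _ h x
  have e1 : FreeGroup.lift x v = 1 := by
    have := map_mem_gam (FreeGroup.lift x) hv
    rw [h] at this
    exact mem_bot.mp this
  refine ⟨by rw [e1]; exact one_mem _, ?_⟩
  simp only [Pi.zero_apply, zero_smul, Finset.sum_const_zero]
  apply Additive.toMul.injective
  apply Subtype.ext
  exact e1

end span

end Pool.Agent.helper3
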