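import Mathlib
import Pool.Agent.helper3.Span

/-! Identities satisfied by left-normed commutators. -/

namespace Pool.Agent.helper3

open Subgroup
open scoped commutatorElement IsMulCommutative

section elem

variable {G : Type*} [Group G]

theorem commute_of_mem {i j n : ℕ} (h : gam G n = ⊥) (hij : n ≤ i + j + 1) {x y : G}
    (hx : x ∈ gam G i) (hy : y ∈ gam G j) : x * y = y * x := by
  rw [← commutatorElement_eq_one_iff_mul_comm]
  exact eq_one_of_mem h hij (comm_mem hx hy)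

/-- multiplicativity of the commutator in the left variable -/
theorem comm_mul_left_mem {i i' j n : ℕ} (h : gam G n = ⊥) (hn : n ≤ i + i' + j + 2)
    {x x' y : G} (hx : x ∈ gam G i) (hx' : x' ∈ gam G i') (hy : y ∈ gam G j) :
    ⁅x * x', y⁆ = ⁅x, y⁆ * ⁅x', y⁆ := by
  rw [commutatorElement_mul_left_eq_conj_mul]
  have h1 : x * ⁅x', y⁆ = ⁅x', y⁆ * x :=
    commute_of_mem h (i := i) (j := i' + j + 1) (by omega) hx (comm_mem hx' hy)
  have h2 : ⁅x, y⁆ * ⁅x', y⁆ = ⁅x', y⁆ * ⁅x, y⁆ :=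
    commute_of_mem h (i := i + j + 1) (j := i' + j + 1) (by omega) (comm_mem hx hy)
      (comm_mem hx' hy)
  rw [h1, h2]; group

theorem comm_inv_left_mem {i j n : ℕ} (h : gam G n = ⊥) (hn : n ≤ i + i + j + 2)
    {x y : G} (hx : x ∈ gam G i) (hy : y ∈ gam G j) :
    ⁅x⁻¹, y⁆ = ⁅x, y⁆⁻¹ := by
  have := comm_mul_left_mem h hn hx (inv_mem hx) hy
  rw [mul_inv_cancel, commutatorElement_one_left] at this
  exact (inv_eq_of_mul_eq_one_right this.symm).symm

/-- product rule for powers when the commutator is central -/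
theorem mul_pow_central {x y : G} (h : ⁅y, x⁆ ∈ center G) (n : ℕ) :
    (x * y) ^ n = x ^ n * y ^ n * ⁅y, x⁆ ^ (n.choose 2) := by
  have hyx : y * x = ⁅y, x⁆ * (x * y) := by simp [commutatorElement_def]
  have hc : ∀ g, g * ⁅y, x⁆ = ⁅y, x⁆ * g := fun g => mem_center_iff.mp h g
  have hcn : ∀ (g : G) (k : ℕ), g * ⁅y, x⁆ ^ k = ⁅y, x⁆ ^ k * g := by
    intro g k
    have : Commute g (⁅y, x⁆ ^ k) := Commute.pow_right (hc g) k
    exact this
  have hynx : ∀ k : ℕ, y ^ k * x = ⁅y, x⁆ ^ k * (x * y ^ k) := by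
    intro k
    induction k with
    | zero => simp
    | succ k ih =>
      calc y ^ (k + 1) * x = y * (y ^ k * x) := by rw [pow_succ']; group
        _ = y * (⁅y, x⁆ ^ k * (x * y ^ k)) := by rw [ih]
        _ = ⁅y, x⁆ ^ k * (y * x) * y ^ k := by
          rw [← mul_assoc, hcn y k]; group
        _ = ⁅y, x⁆ ^ k * (⁅y, x⁆ * (x * y)) * y ^ k := by rw [hyx]
        _ = ⁅y, x⁆ ^ (k + 1) * (x * y ^ (k + 1)) := by
          rw [pow_succ ⁅y, x⁆ k, pow_succ' y k]; group
  induction n with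
  | zero => simp
  | succ n ih =>
    calc (x * y) ^ (n + 1) = x ^ n * y ^ n * ⁅y, x⁆ ^ (n.choose 2) * (x * y) := by
          rw [pow_succ, ih]
      _ = x ^ n * (y ^ n * x) * y * ⁅y, x⁆ ^ (n.choose 2) := by
          rw [mul_assoc (x ^ n * y ^ n), ← hcn (x * y) (n.choose 2)]; group
      _ = x ^ n * (⁅y, x⁆ ^ n * (x * y ^ n)) * y * ⁅y, x⁆ ^ (n.choose 2) := by rw [hynx]
      _ = ⁅y, x⁆ ^ n * (x ^ n * x * (y ^ n * y)) * ⁅y, x⁆ ^ (n.choose 2) := by
          rw [← mul_assoc (x ^ n), hcn (x ^ n) n]; group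
      _ = x ^ (n + 1) * y ^ (n + 1) * ⁅y, x⁆ ^ ((n + 1).choose 2) := by
          rw [← hcn, ← pow_succ, ← pow_succ, mul_assoc, ← pow_add]
          congr 2
          rw [Nat.choose_succ_succ' n 1, Nat.choose_one_right]

end elem

/-- `K` lies in the variety of all groups in which seventh powers of elements of `K'`,
commutators of elements of `K'`, and the fifth term of the lower central series are central. -/
structure InV (K : Type) [Group K] : Prop where
  pow : ∀ a ∈ gam K 1, a ^ 7 ∈ center K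
  ccen : ∀ a ∈ gam K 1, ∀ b ∈ gam K 1, ⁅a, b⁆ ∈ center K
  nil : gam K 5 = ⊥

section tors

variable {K : Type} [Group K]

theorem InV.pow_comm (hK : InV K) {a : K} (ha : a ∈ gam K 1) (g : K) : ⁅a, g⁆ ^ 7 = 1 := by
  set b := ⁅a, g⁆ with hb
  set a' := g * a * g⁻¹ with ha'
  have hbm : b ∈ gam K 2 := comm_mem_left ha g
  have ha'm : a' ∈ gam K 1 := (gam_normal 1).conj_mem a ha g
  have hab : a = b * a' := by
    rw [hb, ha', commutatorElement_def]; group
  have hpow : a' ^ 7 = a ^ 7 := by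
    rw [ha', conj_pow]
    have := mem_center_iff.mp (hK.pow a ha) g
    rw [this]; group
  have hc : ⁅a', b⁆ ∈ center K := hK.ccen _ ha'm _ (mem_gam_of_le (by norm_num) hbm)
  have h1 := mul_pow_central hc 7
  rw [← hab, ← hpow] at h1
  -- commutator power
  have h2 : ∀ n : ℕ, ⁅a' ^ n, b⁆ = ⁅a', b⁆ ^ n := by
    intro n
    induction n with
    | zero => simp
    | succ n ih =>
      rw [pow_succ, comm_mul_left hc, ih, pow_succ]
  have h3 : ⁅a', b⁆ ^ 7 = 1 := by
    rw [← h2]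
    exact comm_central_left (hK.pow _ ha'm)
  have h4 : ⁅a', b⁆ ^ (Nat.choose 7 2) = 1 := by
    have : Nat.choose 7 2 = 7 * 3 := by decide
    rw [this, pow_mul, h3, one_pow]
  rw [h4, mul_one] at h1
  exact (mul_eq_right.mp h1.symm)

theorem InV.pow_gam2 (hK : InV K) {a : K} (ha : a ∈ gam K 2) : a ^ 7 = 1 := by
  have hcl : gam K 2 = Subgroup.closure
      {x | ∃ p ∈ gam K 1, ∃ q ∈ (⊤ : Subgroup K), ⁅p, q⁆ = x} := rfl
  have : ∀ x ∈ Subgroup.closure {x | ∃ p ∈ gam K 1, ∃ q ∈ (⊤ : Subgroup K), ⁅p, q⁆ = x},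
      x ^ 7 = 1 := by
    intro x hx
    induction hx using closure_induction with
    | mem x hx =>
      obtain ⟨p, hp, q, _, rfl⟩ := hx
      exact hK.pow_comm hp q
    | one => simp
    | mul x y hx hy ihx ihy =>
      have hx' : x ∈ gam K 2 := by rw [hcl]; exact hx
      have hy' : y ∈ gam K 2 := by rw [hcl]; exact hy
      have hc : Commute x y := commute_of_mem hK.nil (by norm_num) hx' hy'
      rw [hc.mul_pow, ihx, ihy, mul_one]
    | inv x _ ihx => rw [inv_pow, ihx, inv_one]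
  exact this a ha

end tors

end Pool.Agent.helper3
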