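import Mathlib
import Pool.Agent.helper3.Ident

/-! Two explicit groups. -/

namespace Pool.Agent.helper3

open Subgroup
open scoped commutatorElement

/-- Heisenberg group of order `7^5` extended by a regular unipotent symplectic automorphism. -/
@[ext] structure HH where
  k : ZMod 7
  a : ZMod 7
  b : ZMod 7
  c : ZMod 7
  d : ZMod 7
  z : ZMod 7
deriving DecidableEq

namespace HH

instance : Mul HH where
  mul x y :=
    { k := x.k + y.k
      a := x.a + y.a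
      b := x.b + (y.b + x.k * y.a)
      c := x.c + (y.c + 2 * x.k * y.b + x.k ^ 2 * y.a)
      d := x.d + (y.d + 3 * x.k * y.c + 3 * x.k ^ 2 * y.b + x.k ^ 3 * y.a)
      z := x.z + y.z + (x.a * (y.d + 3 * x.k * y.c + 3 * x.k ^ 2 * y.b + x.k ^ 3 * y.a)
        - x.d * y.a - 3 * (x.b * (y.c + 2 * x.k * y.b + x.k ^ 2 * y.a)
        - x.c * (y.b + x.k * y.a))) }

instance : One HH where
  one := ⟨0, 0, 0, 0, 0, 0⟩

instance : Inv HH where
  inv x :=
    { k := - x.k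
      a := - x.a
      b := - (x.b - x.k * x.a)
      c := - (x.c - 2 * x.k * x.b + x.k ^ 2 * x.a)
      d := - (x.d - 3 * x.k * x.c + 3 * x.k ^ 2 * x.b - x.k ^ 3 * x.a)
      z := - x.z }

theorem mul_def (x y : HH) : x * y =
    { k := x.k + y.k
      a := x.a + y.a
      b := x.b + (y.b + x.k * y.a)
      c := x.c + (y.c + 2 * x.k * y.b + x.k ^ 2 * y.a)
      d := x.d + (y.d + 3 * x.k * y.c + 3 * x.k ^ 2 * y.b + x.k ^ 3 * y.a)
      z := x.z + y.z + (x.a * (y.d + 3 * x.k * y.c + 3 * x.k ^ 2 * y.b + x.k ^ 3 * y.a)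
        - x.d * y.a - 3 * (x.b * (y.c + 2 * x.k * y.b + x.k ^ 2 * y.a)
        - x.c * (y.b + x.k * y.a))) } := rfl

theorem one_def : (1 : HH) = ⟨0, 0, 0, 0, 0, 0⟩ := rfl

theorem inv_def (x : HH) : x⁻¹ =
    { k := - x.k
      a := - x.a
      b := - (x.b - x.k * x.a)
      c := - (x.c - 2 * x.k * x.b + x.k ^ 2 * x.a)
      d := - (x.d - 3 * x.k * x.c + 3 * x.k ^ 2 * x.b - x.k ^ 3 * x.a)
      z := - x.z } := rfl

instance : Group HH :=
  Group.ofLeftAxioms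
    (by intro x y w; ext <;> simp only [mul_def] <;> ring)
    (by intro x; ext <;> simp only [mul_def, one_def] <;> ring)
    (by intro x; ext <;> simp only [mul_def, one_def, inv_def] <;> ring)

/-- the filtration -/
def S1 : Subgroup HH where
  carrier := {x | x.k = 0 ∧ x.a = 0}
  one_mem' := by simp [one_def]
  mul_mem' := by
    rintro x y ⟨h1, h2⟩ ⟨h3, h4⟩
    simp [mul_def, h1, h2, h3, h4]
  inv_mem' := by
    rintro x ⟨h1, h2⟩
    simp [inv_def, h1, h2]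

def S2 : Subgroup HH where
  carrier := {x | x.k = 0 ∧ x.a = 0 ∧ x.b = 0}
  one_mem' := by simp [one_def]
  mul_mem' := by
    rintro x y ⟨h1, h2, h3⟩ ⟨h4, h5, h6⟩
    simp [mul_def, h1, h2, h3, h4, h5, h6]
  inv_mem' := by
    rintro x ⟨h1, h2, h3⟩
    simp [inv_def, h1, h2, h3]

def S3 : Subgroup HH where
  carrier := {x | x.k = 0 ∧ x.a = 0 ∧ x.b = 0 ∧ x.c = 0}
  one_mem' := by simp [one_def]
  mul_mem' := by
    rintro x y ⟨h1, h2, h3, h0⟩ ⟨h4, h5, h6, h7⟩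
    simp [mul_def, h1, h2, h3, h4, h5, h6, h0, h7]
  inv_mem' := by
    rintro x ⟨h1, h2, h3, h4⟩
    simp [inv_def, h1, h2, h3, h4]

def S4 : Subgroup HH where
  carrier := {x | x.k = 0 ∧ x.a = 0 ∧ x.b = 0 ∧ x.c = 0 ∧ x.d = 0}
  one_mem' := by simp [one_def]
  mul_mem' := by
    rintro x y ⟨h1, h2, h3, h0, h8⟩ ⟨h4, h5, h6, h7, h9⟩
    simp [mul_def, h1, h2, h3, h4, h5, h6, h0, h7, h8, h9]
  inv_mem' := by
    rintro x ⟨h1, h2, h3, h4, h5⟩
    simp [inv_def, h1, h2, h3, h4, h5]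

def filt : ℕ → Subgroup HH
  | 0 => ⊤
  | 1 => S1
  | 2 => S2
  | 3 => S3
  | 4 => S4
  | _ => ⊥

theorem filt_desc : Subgroup.IsDescendingCentralSeries filt := by
  refine ⟨rfl, ?_⟩
  intro x n hx g
  match n, hx with
  | 0, _ =>
    change x * g * x⁻¹ * g⁻¹ ∈ S1
    refine ⟨?_, ?_⟩ <;> simp only [mul_def, inv_def] <;> ring
  | 1, hx =>
    obtain ⟨h1, h2⟩ := hx
    change x * g * x⁻¹ * g⁻¹ ∈ S2
    refine ⟨?_, ?_, ?_⟩ <;> simp only [mul_def, inv_def, h1, h2] <;> ring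
  | 2, hx =>
    obtain ⟨h1, h2, h3⟩ := hx
    change x * g * x⁻¹ * g⁻¹ ∈ S3
    refine ⟨?_, ?_, ?_, ?_⟩ <;> simp only [mul_def, inv_def, h1, h2, h3] <;> ring
  | 3, hx =>
    obtain ⟨h1, h2, h3, h4⟩ := hx
    change x * g * x⁻¹ * g⁻¹ ∈ S4
    refine ⟨?_, ?_, ?_, ?_, ?_⟩ <;> simp only [mul_def, inv_def, h1, h2, h3, h4] <;> ring
  | 4, hx =>
    obtain ⟨h1, h2, h3, h4, h5⟩ := hx
    change x * g * x⁻¹ * g⁻¹ ∈ (⊥ : Subgroup HH)
    rw [mem_bot]
    ext <;> simp only [mul_def, inv_def, one_def, h1, h2, h3, h4, h5] <;> ring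
  | n + 5, hx =>
    change x * g * x⁻¹ * g⁻¹ ∈ (⊥ : Subgroup HH)
    have hx' : x = 1 := mem_bot.mp hx
    subst hx'
    simp

theorem gam_le_filt (n : ℕ) : gam HH n ≤ filt n :=
  Subgroup.descending_central_series_ge_lower filt filt_desc n

theorem central_z (x : HH) (h : x ∈ S4) : x ∈ center HH := by
  obtain ⟨h1, h2, h3, h4, h5⟩ := h
  rw [mem_center_iff]
  intro g
  ext <;> simp only [mul_def, h1, h2, h3, h4, h5] <;> ring

theorem pow_S1 (x : HH) (h : x ∈ S1) (n : ℕ) :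
    x ^ n = ⟨0, 0, n * x.b, n * x.c, n * x.d, n * x.z⟩ := by
  obtain ⟨h1, h2⟩ := h
  induction n with
  | zero => ext <;> simp [one_def]
  | succ n ih =>
    rw [pow_succ, ih]
    ext <;> simp only [mul_def, h1, h2] <;> push_cast <;> ring

theorem inV : InV HH where
  pow x hx := by
    have h : x ^ 7 = 1 := by
      rw [pow_S1 x (gam_le_filt 1 hx)]
      have h7 : ((7 : ℕ) : ZMod 7) = 0 := by decide
      rw [h7]
      ext <;> simp [one_def]
    rw [h]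
    exact one_mem _
  ccen x hx y hy := by
    obtain ⟨h1, h2⟩ := gam_le_filt 1 hx
    obtain ⟨h3, h4⟩ := gam_le_filt 1 hy
    apply central_z
    rw [commutatorElement_def]
    refine ⟨?_, ?_, ?_, ?_, ?_⟩ <;> simp only [mul_def, inv_def, h1, h2, h3, h4] <;> ring
  nil := by
    rw [eq_bot_iff]
    exact gam_le_filt 5

/-- the generators -/
def x : HH := ⟨1, 0, 0, 0, 0, 0⟩
def y : HH := ⟨0, 1, 0, 0, 0, 0⟩

/-- a central element of order seven -/
def zz : HH := ⟨0, 0, 0, 0, 0, 1⟩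

end HH

/-- `F_7^5` extended by a regular unipotent automorphism. -/
@[ext] structure GG where
  k : ZMod 7
  a : ZMod 7
  b : ZMod 7
  c : ZMod 7
  d : ZMod 7
  e : ZMod 7
deriving DecidableEq

namespace GG

instance : Mul GG where
  mul x y :=
    { k := x.k + y.k
      a := x.a + y.a
      b := x.b + (y.b + x.k * y.a)
      c := x.c + (y.c + 2 * x.k * y.b + x.k ^ 2 * y.a)
      d := x.d + (y.d + 3 * x.k * y.c + 3 * x.k ^ 2 * y.b + x.k ^ 3 * y.a)
      e := x.e + (y.e + 4 * x.k * y.d + 6 * x.k ^ 2 * y.c + 4 * x.k ^ 3 * y.b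
        + x.k ^ 4 * y.a) }

instance : One GG where
  one := ⟨0, 0, 0, 0, 0, 0⟩

instance : Inv GG where
  inv x :=
    { k := - x.k
      a := - x.a
      b := - (x.b - x.k * x.a)
      c := - (x.c - 2 * x.k * x.b + x.k ^ 2 * x.a)
      d := - (x.d - 3 * x.k * x.c + 3 * x.k ^ 2 * x.b - x.k ^ 3 * x.a)
      e := - (x.e - 4 * x.k * x.d + 6 * x.k ^ 2 * x.c - 4 * x.k ^ 3 * x.b + x.k ^ 4 * x.a) }

theorem mul_def (x y : GG) : x * y =
    { k := x.k + y.k
      a := x.a + y.a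
      b := x.b + (y.b + x.k * y.a)
      c := x.c + (y.c + 2 * x.k * y.b + x.k ^ 2 * y.a)
      d := x.d + (y.d + 3 * x.k * y.c + 3 * x.k ^ 2 * y.b + x.k ^ 3 * y.a)
      e := x.e + (y.e + 4 * x.k * y.d + 6 * x.k ^ 2 * y.c + 4 * x.k ^ 3 * y.b
        + x.k ^ 4 * y.a) } := rfl

theorem one_def : (1 : GG) = ⟨0, 0, 0, 0, 0, 0⟩ := rfl

theorem inv_def (x : GG) : x⁻¹ =
    { k := - x.k
      a := - x.a
      b := - (x.b - x.k * x.a)
      c := - (x.c - 2 * x.k * x.b + x.k ^ 2 * x.a)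
      d := - (x.d - 3 * x.k * x.c + 3 * x.k ^ 2 * x.b - x.k ^ 3 * x.a)
      e := - (x.e - 4 * x.k * x.d + 6 * x.k ^ 2 * x.c - 4 * x.k ^ 3 * x.b
        + x.k ^ 4 * x.a) } := rfl

instance : Group GG :=
  Group.ofLeftAxioms
    (by intro x y w; ext <;> simp only [mul_def] <;> ring)
    (by intro x; ext <;> simp only [mul_def, one_def] <;> ring)
    (by intro x; ext <;> simp only [mul_def, one_def, inv_def] <;> ring)

def S1 : Subgroup GG where
  carrier := {x | x.k = 0 ∧ x.a = 0}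
  one_mem' := by simp [one_def]
  mul_mem' := by
    rintro x y ⟨h1, h2⟩ ⟨h3, h4⟩
    simp [mul_def, h1, h2, h3, h4]
  inv_mem' := by
    rintro x ⟨h1, h2⟩
    simp [inv_def, h1, h2]

def S2 : Subgroup GG where
  carrier := {x | x.k = 0 ∧ x.a = 0 ∧ x.b = 0}
  one_mem' := by simp [one_def]
  mul_mem' := by
    rintro x y ⟨h1, h2, h3⟩ ⟨h4, h5, h6⟩
    simp [mul_def, h1, h2, h3, h4, h5, h6]
  inv_mem' := by
    rintro x ⟨h1, h2, h3⟩
    simp [inv_def, h1, h2, h3]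

def S3 : Subgroup GG where
  carrier := {x | x.k = 0 ∧ x.a = 0 ∧ x.b = 0 ∧ x.c = 0}
  one_mem' := by simp [one_def]
  mul_mem' := by
    rintro x y ⟨h1, h2, h3, h0⟩ ⟨h4, h5, h6, h7⟩
    simp [mul_def, h1, h2, h3, h4, h5, h6, h0, h7]
  inv_mem' := by
    rintro x ⟨h1, h2, h3, h4⟩
    simp [inv_def, h1, h2, h3, h4]

def S4 : Subgroup GG where
  carrier := {x | x.k = 0 ∧ x.a = 0 ∧ x.b = 0 ∧ x.c = 0 ∧ x.d = 0}
  one_mem' := by simp [one_def]
  mul_mem' := by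
    rintro x y ⟨h1, h2, h3, h0, h8⟩ ⟨h4, h5, h6, h7, h9⟩
    simp [mul_def, h1, h2, h3, h4, h5, h6, h0, h7, h8, h9]
  inv_mem' := by
    rintro x ⟨h1, h2, h3, h4, h5⟩
    simp [inv_def, h1, h2, h3, h4, h5]

def filt : ℕ → Subgroup GG
  | 0 => ⊤
  | 1 => S1
  | 2 => S2
  | 3 => S3
  | 4 => S4
  | _ => ⊥

theorem filt_desc : Subgroup.IsDescendingCentralSeries filt := by
  refine ⟨rfl, ?_⟩
  intro x n hx g
  match n, hx with
  | 0, _ =>
    change x * g * x⁻¹ * g⁻¹ ∈ S1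
    refine ⟨?_, ?_⟩ <;> simp only [mul_def, inv_def] <;> ring
  | 1, hx =>
    obtain ⟨h1, h2⟩ := hx
    change x * g * x⁻¹ * g⁻¹ ∈ S2
    refine ⟨?_, ?_, ?_⟩ <;> simp only [mul_def, inv_def, h1, h2] <;> ring
  | 2, hx =>
    obtain ⟨h1, h2, h3⟩ := hx
    change x * g * x⁻¹ * g⁻¹ ∈ S3
    refine ⟨?_, ?_, ?_, ?_⟩ <;> simp only [mul_def, inv_def, h1, h2, h3] <;> ring
  | 3, hx =>
    obtain ⟨h1, h2, h3, h4⟩ := hx
    change x * g * x⁻¹ * g⁻¹ ∈ S4
    refine ⟨?_, ?_, ?_, ?_, ?_⟩ <;> simp only [mul_def, inv_def, h1, h2, h3, h4] <;> ring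
  | 4, hx =>
    obtain ⟨h1, h2, h3, h4, h5⟩ := hx
    change x * g * x⁻¹ * g⁻¹ ∈ (⊥ : Subgroup GG)
    rw [mem_bot]
    ext <;> simp only [mul_def, inv_def, one_def, h1, h2, h3, h4, h5] <;> ring
  | n + 5, hx =>
    change x * g * x⁻¹ * g⁻¹ ∈ (⊥ : Subgroup GG)
    have hx' : x = 1 := mem_bot.mp hx
    subst hx'
    simp

theorem gam_le_filt (n : ℕ) : gam GG n ≤ filt n :=
  Subgroup.descending_central_series_ge_lower filt filt_desc n

theorem pow_S1 (x : GG) (h : x ∈ S1) (n : ℕ) :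
    x ^ n = ⟨0, 0, n * x.b, n * x.c, n * x.d, n * x.e⟩ := by
  obtain ⟨h1, h2⟩ := h
  induction n with
  | zero => ext <;> simp [one_def]
  | succ n ih =>
    rw [pow_succ, ih]
    ext <;> simp only [mul_def, h1, h2] <;> push_cast <;> ring

theorem inV : InV GG where
  pow x hx := by
    have h : x ^ 7 = 1 := by
      rw [pow_S1 x (gam_le_filt 1 hx)]
      have h7 : ((7 : ℕ) : ZMod 7) = 0 := by decide
      rw [h7]
      ext <;> simp [one_def]
    rw [h]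
    exact one_mem _
  ccen x hx y hy := by
    obtain ⟨h1, h2⟩ := gam_le_filt 1 hx
    obtain ⟨h3, h4⟩ := gam_le_filt 1 hy
    have : ⁅x, y⁆ = 1 := by
      rw [commutatorElement_def]
      ext <;> simp only [mul_def, inv_def, one_def, h1, h2, h3, h4] <;> ring
    rw [this]
    exact one_mem _
  nil := by
    rw [eq_bot_iff]
    exact gam_le_filt 5

def x : GG := ⟨1, 0, 0, 0, 0, 0⟩
def y : GG := ⟨0, 1, 0, 0, 0, 0⟩

end GG

end Pool.Agent.helper3
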