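import Mathlib

/-! Polarization of multilinear expressions. -/

namespace Pool.Agent.helper3

open Finset

theorem incl_excl {n : ℕ} (r : Fin n → Fin n) :
    ∑ S : Finset (Fin n), (if ∀ k, r k ∈ S then (-1 : ℤ) ^ (n - S.card) else 0) =
      if Function.Surjective r then 1 else 0 := by
  classical
  have h1 : ∑ S : Finset (Fin n), (if ∀ k, r k ∈ S then (-1 : ℤ) ^ (n - S.card) else 0) =
      ∑ U : Finset (Fin n), (if ∀ k, r k ∈ Uᶜ then (-1 : ℤ) ^ (n - (Uᶜ).card) else 0) := by
    apply Fintype.sum_equiv (Function.Involutive.toPerm compl compl_compl)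
    intro S
    change _ = (if ∀ k, r k ∈ (Sᶜ)ᶜ then (-1 : ℤ) ^ (n - ((Sᶜ)ᶜ).card) else 0)
    rw [compl_compl]
  rw [h1]
  have h2 : ∀ U : Finset (Fin n), (if ∀ k, r k ∈ Uᶜ then (-1 : ℤ) ^ (n - (Uᶜ).card) else 0) =
      if U ∈ ((univ.image r)ᶜ).powerset then (-1 : ℤ) ^ U.card else 0 := by
    intro U
    have e1 : n - (Uᶜ).card = U.card := by
      rw [card_compl, Fintype.card_fin]
      have : U.card ≤ n := by simpa using card_le_univ U
      omega
    rw [e1]
    have e2 : (∀ k, r k ∈ Uᶜ) ↔ U ∈ ((univ.image r)ᶜ).powerset := by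
      rw [mem_powerset]
      constructor
      · intro h x hx
        rw [mem_compl]
        intro hx'
        obtain ⟨k, _, rfl⟩ := mem_image.mp hx'
        exact (mem_compl.mp (h k)) hx
      · intro h k
        rw [mem_compl]
        intro hk
        exact (mem_compl.mp (h hk)) (mem_image_of_mem r (mem_univ k))
    simp only [e2]
  simp only [h2]
  rw [← sum_filter]
  have h3 : univ.filter (fun U => U ∈ ((univ.image r)ᶜ).powerset) = ((univ.image r)ᶜ).powerset := by
    ext U; simp
  rw [h3, Finset.sum_powerset_neg_one_pow_card]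
  congr 1
  rw [compl_eq_empty_iff, eq_univ_iff_forall]
  simp [Function.Surjective]

theorem sum_surj {n : ℕ} {B : Type*} [AddCommMonoid B] (g : (Fin n → Fin n) → B) :
    ∑ r : Fin n → Fin n, (if Function.Surjective r then g r else 0) =
      ∑ π : Equiv.Perm (Fin n), g π := by
  classical
  rw [← sum_filter]
  symm
  apply sum_bij (fun (π : Equiv.Perm (Fin n)) _ => (π : Fin n → Fin n))
  · intro π _
    simp [π.surjective]
  · intro π _ ρ _ h
    exact DFunLike.coe_injective h
  · intro r hr
    have hs : Function.Surjective r := by simpa using hr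
    have hb : Function.Bijective r := ⟨Finite.injective_iff_surjective.mpr hs, hs⟩
    exact ⟨Equiv.ofBijective r hb, mem_univ _, rfl⟩
  · intro π _
    rfl

theorem polarize {A B α : Type*} [AddCommGroup A] [AddCommGroup B] [Fintype α] [DecidableEq α]
    {n : ℕ} (m : MultilinearMap ℤ (fun _ : Fin n => A) B) (T : (Fin n → α) → ℤ)
    (J : Fin n → α) (v : Fin n → A) :
    ∑ S : Finset (Fin n), (-1 : ℤ) ^ (n - S.card) •
      ∑ I : Fin n → α, T I • m (fun k => ∑ a ∈ S.filter (fun a => J a = I k), v a) =
    ∑ π : Equiv.Perm (Fin n), T (fun k => J (π k)) • m (fun k => v (π k)) := by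
  classical
  have h1 : ∀ S : Finset (Fin n),
      ∑ I : Fin n → α, T I • m (fun k => ∑ a ∈ S.filter (fun a => J a = I k), v a) =
      ∑ r : Fin n → Fin n, if ∀ k, r k ∈ S then T (fun k => J (r k)) • m (fun k => v (r k))
        else 0 := by
    intro S
    have h2 : ∀ I : Fin n → α, T I • m (fun k => ∑ a ∈ S.filter (fun a => J a = I k), v a) =
        ∑ r : Fin n → Fin n, if (∀ k, r k ∈ S) ∧ (fun k => J (r k)) = I then
          T I • m (fun k => v (r k)) else 0 := by
      intro I
      rw [MultilinearMap.map_sum_finset, smul_sum, ← sum_filter]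
      apply sum_congr _ (fun _ _ => rfl)
      ext r
      simp only [Fintype.mem_piFinset, mem_filter, mem_univ, true_and, funext_iff]
      constructor
      · intro h; exact ⟨fun k => (h k).1, fun k => (h k).2⟩
      · intro h k; exact ⟨h.1 k, h.2 k⟩
    simp only [h2]
    rw [sum_comm]
    apply sum_congr rfl
    intro r _
    by_cases hr : ∀ k, r k ∈ S
    · simp only [hr, implies_true, true_and, if_true]
      rw [sum_ite_eq]
      simp
    · simp [hr]
  simp only [h1, smul_sum]
  rw [sum_comm]
  have h4 : ∀ r : Fin n → Fin n, ∑ S : Finset (Fin n), (-1 : ℤ) ^ (n - S.card) •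
      (if ∀ k, r k ∈ S then T (fun k => J (r k)) • m (fun k => v (r k)) else 0) =
      if Function.Surjective r then T (fun k => J (r k)) • m (fun k => v (r k)) else 0 := by
    intro r
    have h5 : ∀ S : Finset (Fin n), (-1 : ℤ) ^ (n - S.card) •
      (if ∀ k, r k ∈ S then T (fun k => J (r k)) • m (fun k => v (r k)) else 0) =
      (if ∀ k, r k ∈ S then (-1 : ℤ) ^ (n - S.card) else 0) •
        (T (fun k => J (r k)) • m (fun k => v (r k))) := by
      intro S
      split_ifs <;> simp
    simp only [h5]
    rw [← sum_smul, incl_excl]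
    split_ifs <;> simp
  simp only [h4]
  exact sum_surj _

theorem sum_perm_eq {A B α : Type*} [AddCommGroup A] [AddCommGroup B] [Fintype α] [DecidableEq α]
    {n : ℕ} (m : MultilinearMap ℤ (fun _ : Fin n => A) B) (T : (Fin n → α) → ℤ)
    (x : α → A) :
    ∑ J : Fin n → α, ∑ π : Equiv.Perm (Fin n), T (fun k => J (π k)) • m (fun k => x (J (π k))) =
    (n.factorial : ℤ) • ∑ I : Fin n → α, T I • m (fun k => x (I k)) := by
  rw [sum_comm]
  have h1 : ∀ π : Equiv.Perm (Fin n), ∑ J : Fin n → α,
      T (fun k => J (π k)) • m (fun k => x (J (π k))) =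
      ∑ I : Fin n → α, T I • m (fun k => x (I k)) := by
    intro π
    exact Fintype.sum_equiv (Equiv.arrowCongr π.symm (Equiv.refl α)) _ _ (fun J => rfl)
  simp only [h1, sum_const, card_univ, Fintype.card_perm, Fintype.card_fin]
  simp

end Pool.Agent.helper3
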