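import Mathlib
import Pool.Agent.helper3.Ident

/-! Multilinear systems of left-normed commutators of weights 3, 4, 5. -/

namespace Pool.Agent.helper3

open Subgroup
open scoped commutatorElement IsMulCommutative

structure Sys3 {A B : Type*} [AddCommGroup A] [AddCommGroup B] (m : A → A → A → B) : Prop where
  add1 : ∀ a a' b c, m (a + a') b c = m a b c + m a' b c
  add2 : ∀ a b b' c, m a (b + b') c = m a b c + m a b' c
  add3 : ∀ a b c c', m a b (c + c') = m a b c + m a b c'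
  alt : ∀ a c, m a a c = 0
  jac : ∀ a b c, m a b c + m b c a + m c a b = 0

structure Sys4 {A B : Type*} [AddCommGroup A] [AddCommGroup B] (m : A → A → A → A → B) :
    Prop where
  add1 : ∀ a a' b c d, m (a + a') b c d = m a b c d + m a' b c d
  add2 : ∀ a b b' c d, m a (b + b') c d = m a b c d + m a b' c d
  add3 : ∀ a b c c' d, m a b (c + c') d = m a b c d + m a b c' d
  add4 : ∀ a b c d d', m a b c (d + d') = m a b c d + m a b c d'
  alt : ∀ a c d, m a a c d = 0
  jac : ∀ a b c d, m a b c d + m b c a d + m c a b d = 0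
  quad : ∀ a b c d, m a b c d - m a b d c = -(m c d a b - m c d b a)

structure Sys5 {A B : Type*} [AddCommGroup A] [AddCommGroup B] (m : A → A → A → A → A → B) :
    Prop where
  add1 : ∀ a a' b c d e, m (a + a') b c d e = m a b c d e + m a' b c d e
  add2 : ∀ a b b' c d e, m a (b + b') c d e = m a b c d e + m a b' c d e
  add3 : ∀ a b c c' d e, m a b (c + c') d e = m a b c d e + m a b c' d e
  add4 : ∀ a b c d d' e, m a b c (d + d') e = m a b c d e + m a b c d' e
  add5 : ∀ a b c d e e', m a b c d (e + e') = m a b c d e + m a b c d e'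
  alt : ∀ a c d e, m a a c d e = 0
  jac : ∀ a b c d e, m a b c d e + m b c a d e + m c a b d e = 0
  sym : ∀ a b c d e, m a b c d e = m a b d c e
  quad : ∀ a b c d e, m a b c d e - m a b c e d = m d e c a b - m d e c b a

section real

variable {K : Type} [Group K]

theorem ab_surj (u : Additive (Abelianization K)) : ∃ g : K, ab g = u := by
  obtain ⟨g, hg⟩ := QuotientGroup.mk_surjective (Additive.toMul u)
  exact ⟨g, by apply Additive.toMul.injective; exact hg⟩

/-- a central element, additively -/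
abbrev cE (g : K) (hg : g ∈ center K) : Additive (center K) := Additive.ofMul ⟨g, hg⟩

theorem cE_add {g g' : K} (hg : g ∈ center K) (hg' : g' ∈ center K) :
    cE g hg + cE g' hg' = cE (g * g') (mul_mem hg hg') := rfl

theorem cE_neg {g : K} (hg : g ∈ center K) :
    - cE g hg = cE (g⁻¹) (inv_mem hg) := rfl

theorem cE_eq {g g' : K} (hg : g ∈ center K) (hg' : g' ∈ center K) (h : g = g') :
    cE g hg = cE g' hg' := by subst h; rfl

theorem cE_zero {g : K} (hg : g ∈ center K) (h : g = 1) :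
    cE g hg = 0 := by subst h; rfl

noncomputable def m3 (h : gam K 3 = ⊥) (a b c : Additive (Abelianization K)) :
    Additive (center K) := ml 2 h ![a, b, c]

noncomputable def m4 (h : gam K 4 = ⊥) (a b c d : Additive (Abelianization K)) :
    Additive (center K) := ml 3 h ![a, b, c, d]

noncomputable def m5 (h : gam K 5 = ⊥) (a b c d e : Additive (Abelianization K)) :
    Additive (center K) := ml 4 h ![a, b, c, d, e]

theorem c3_mem (x y z : K) : ⁅⁅x, y⁆, z⁆ ∈ gam K 2 := lc_mem 2 ![x, y, z]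

theorem c4_mem (x y z t : K) : ⁅⁅⁅x, y⁆, z⁆, t⁆ ∈ gam K 3 := lc_mem 3 ![x, y, z, t]

theorem c5_mem (x y z t u : K) : ⁅⁅⁅⁅x, y⁆, z⁆, t⁆, u⁆ ∈ gam K 4 := lc_mem 4 ![x, y, z, t, u]

theorem m3_apply (h : gam K 3 = ⊥) (x y z : K) :
    m3 h (ab x) (ab y) (ab z) = cE ⁅⁅x, y⁆, z⁆ (central_of_mem h (c3_mem x y z)) := by
  have e : (![ab x, ab y, ab z] : Fin 3 → Additive (Abelianization K)) =
      fun i => ab ((![x, y, z] : Fin 3 → K) i) := by
    funext i; fin_cases i <;> rfl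
  unfold m3
  rw [e, ml_apply]
  rfl

theorem m4_apply (h : gam K 4 = ⊥) (x y z t : K) :
    m4 h (ab x) (ab y) (ab z) (ab t) =
      cE ⁅⁅⁅x, y⁆, z⁆, t⁆ (central_of_mem h (c4_mem x y z t)) := by
  have e : (![ab x, ab y, ab z, ab t] : Fin 4 → Additive (Abelianization K)) =
      fun i => ab ((![x, y, z, t] : Fin 4 → K) i) := by
    funext i; fin_cases i <;> rfl
  unfold m4
  rw [e, ml_apply]
  rfl

theorem m5_apply (h : gam K 5 = ⊥) (x y z t u : K) :
    m5 h (ab x) (ab y) (ab z) (ab t) (ab u) =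
      cE ⁅⁅⁅⁅x, y⁆, z⁆, t⁆, u⁆ (central_of_mem h (c5_mem x y z t u)) := by
  have e : (![ab x, ab y, ab z, ab t, ab u] : Fin 5 → Additive (Abelianization K)) =
      fun i => ab ((![x, y, z, t, u] : Fin 5 → K) i) := by
    funext i; fin_cases i <;> rfl
  unfold m5
  rw [e, ml_apply]
  rfl

theorem sys3 (h : gam K 3 = ⊥) : Sys3 (m3 h) where
  add1 a a' b c := by
    have := (ml 2 h).map_update_add ![0, b, c] 0 a a'
    have e : ∀ x, Function.update (![0, b, c] : Fin 3 → Additive (Abelianization K)) 0 x =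
      ![x, b, c] := by intro x; funext i; fin_cases i <;> rfl
    rwa [e, e, e] at this
  add2 a b b' c := by
    have := (ml 2 h).map_update_add ![a, 0, c] 1 b b'
    have e : ∀ x, Function.update (![a, 0, c] : Fin 3 → Additive (Abelianization K)) 1 x =
      ![a, x, c] := by intro x; funext i; fin_cases i <;> rfl
    rwa [e, e, e] at this
  add3 a b c c' := by
    have := (ml 2 h).map_update_add ![a, b, 0] 2 c c'
    have e : ∀ x, Function.update (![a, b, 0] : Fin 3 → Additive (Abelianization K)) 2 x =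
      ![a, b, x] := by intro x; funext i; fin_cases i <;> rfl
    rwa [e, e, e] at this
  alt a c := by
    obtain ⟨x, rfl⟩ := ab_surj a
    obtain ⟨z, rfl⟩ := ab_surj c
    rw [m3_apply]
    apply cE_zero
    simp
  jac a b c := by
    obtain ⟨x, rfl⟩ := ab_surj a
    obtain ⟨y, rfl⟩ := ab_surj b
    obtain ⟨z, rfl⟩ := ab_surj c
    rw [m3_apply, m3_apply, m3_apply, cE_add, cE_add]
    apply cE_zero
    exact jacobi (i := 0) (j := 0) (k := 0) h (mem_top _) (mem_top _) (mem_top _)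

/-- Jacobi modulo a term of the lower central series. -/
theorem jacobi_mod {i j k : ℕ} {x y z : K} (hx : x ∈ gam K i) (hy : y ∈ gam K j)
    (hz : z ∈ gam K k) :
    ⁅⁅x, y⁆, z⁆ * ⁅⁅y, z⁆, x⁆ * ⁅⁅z, x⁆, y⁆ ∈ gam K (i + j + k + 3) := by
  set N := gam K (i + j + k + 3) with hN
  let q := QuotientGroup.mk' N
  have := jacobi (G := K ⧸ N) (i := i) (j := j) (k := k) (gam_quot_eq_bot _)
    (map_mem_gam q hx) (map_mem_gam q hy) (map_mem_gam q hz)
  rw [← map_commutatorElement, ← map_commutatorElement, ← map_commutatorElement,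
    ← map_commutatorElement, ← map_commutatorElement, ← map_commutatorElement,
    ← map_mul, ← map_mul] at this
  exact (QuotientGroup.eq_one_iff _).mp this

/-- `[[x⁻¹, y], ...]` version modulo -/
theorem comm_inv_mod {i j : ℕ} {x y : K} (hx : x ∈ gam K i) (hy : y ∈ gam K j) :
    ⁅x⁻¹, y⁆ * ⁅x, y⁆ ∈ gam K (i + i + j + 2) := by
  set N := gam K (i + i + j + 2) with hN
  let q := QuotientGroup.mk' N
  have := comm_inv_left_mem (G := K ⧸ N) (i := i) (j := j) (gam_quot_eq_bot _) le_rfl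
    (map_mem_gam q hx) (map_mem_gam q hy)
  rw [← map_inv, ← map_commutatorElement, ← map_commutatorElement, ← map_inv] at this
  have h2 : q (⁅x⁻¹, y⁆ * ⁅x, y⁆) = 1 := by
    rw [map_mul, this, ← map_mul, inv_mul_cancel, map_one]
  exact (QuotientGroup.eq_one_iff _).mp h2

theorem sys4 (h : gam K 4 = ⊥) : Sys4 (m4 h) where
  add1 a a' b c d := by
    have := (ml 3 h).map_update_add ![0, b, c, d] 0 a a'
    have e : ∀ x, Function.update (![0, b, c, d] : Fin 4 → Additive (Abelianization K)) 0 x =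
      ![x, b, c, d] := by intro x; funext i; fin_cases i <;> rfl
    rwa [e, e, e] at this
  add2 a b b' c d := by
    have := (ml 3 h).map_update_add ![a, 0, c, d] 1 b b'
    have e : ∀ x, Function.update (![a, 0, c, d] : Fin 4 → Additive (Abelianization K)) 1 x =
      ![a, x, c, d] := by intro x; funext i; fin_cases i <;> rfl
    rwa [e, e, e] at this
  add3 a b c c' d := by
    have := (ml 3 h).map_update_add ![a, b, 0, d] 2 c c'
    have e : ∀ x, Function.update (![a, b, 0, d] : Fin 4 → Additive (Abelianization K)) 2 x =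
      ![a, b, x, d] := by intro x; funext i; fin_cases i <;> rfl
    rwa [e, e, e] at this
  add4 a b c d d' := by
    have := (ml 3 h).map_update_add ![a, b, c, 0] 3 d d'
    have e : ∀ x, Function.update (![a, b, c, 0] : Fin 4 → Additive (Abelianization K)) 3 x =
      ![a, b, c, x] := by intro x; funext i; fin_cases i <;> rfl
    rwa [e, e, e] at this
  alt a c d := by
    obtain ⟨x, rfl⟩ := ab_surj a
    obtain ⟨z, rfl⟩ := ab_surj c
    obtain ⟨t, rfl⟩ := ab_surj d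
    rw [m4_apply]
    apply cE_zero
    simp
  jac a b c d := by
    obtain ⟨x, rfl⟩ := ab_surj a
    obtain ⟨y, rfl⟩ := ab_surj b
    obtain ⟨z, rfl⟩ := ab_surj c
    obtain ⟨t, rfl⟩ := ab_surj d
    rw [m4_apply, m4_apply, m4_apply, cE_add, cE_add]
    apply cE_zero
    have hX := c3_mem x y z
    have hY := c3_mem y z x
    have hZ := c3_mem z x y
    have ht : t ∈ gam K 0 := mem_top _
    rw [← comm_mul_left_mem h (by norm_num) hX hY ht,
      ← comm_mul_left_mem h (by norm_num) (mul_mem hX hY) hZ ht]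
    have hJ := jacobi_mod (K := K) (i := 0) (j := 0) (k := 0) (x := x) (y := y) (z := z)
      (mem_top _) (mem_top _) (mem_top _)
    exact eq_one_of_mem h (m := 4) (by norm_num) (comm_mem_left hJ t)
  quad a b c d := by
    obtain ⟨x, rfl⟩ := ab_surj a
    obtain ⟨y, rfl⟩ := ab_surj b
    obtain ⟨z, rfl⟩ := ab_surj c
    obtain ⟨t, rfl⟩ := ab_surj d
    -- m x y z t - m x y t z = [[x,y],[z,t]]
    have key : ∀ x y z t : K, m4 h (ab x) (ab y) (ab z) (ab t) - m4 h (ab x) (ab y) (ab t) (ab z)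
        = cE ⁅⁅x, y⁆, ⁅z, t⁆⁆ (central_of_mem h (comm_mem (i := 1) (j := 1)
          (comm_mem_left (mem_top x) y) (comm_mem_left (mem_top z) t))) := by
      intro x y z t
      have hu : ⁅x, y⁆ ∈ gam K 1 := comm_mem_left (mem_top x) y
      have hw : ⁅z, t⁆ ∈ gam K 1 := comm_mem_left (mem_top z) t
      have hJ := jacobi (i := 1) (j := 0) (k := 0) h hu (mem_top z) (mem_top t)
      have e1 : ⁅⁅t, ⁅x, y⁆⁆, z⁆ = ⁅⁅⁅x, y⁆, t⁆, z⁆⁻¹ := by
        rw [← commutatorElement_inv ⁅x, y⁆ t]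
        exact comm_inv_left_mem (j := 0) h (by norm_num) (comm_mem_left hu t) (mem_top z)
      have e2 : ⁅⁅z, t⁆, ⁅x, y⁆⁆ = ⁅⁅x, y⁆, ⁅z, t⁆⁆⁻¹ := (commutatorElement_inv _ _).symm
      rw [e1, e2] at hJ
      rw [m4_apply, m4_apply, sub_eq_add_neg, cE_neg, cE_add]
      apply cE_eq
      have hc : ⁅⁅⁅x, y⁆, t⁆, z⁆ ∈ center K := central_of_mem h (c4_mem x y t z)
      have hc2 : ⁅⁅x, y⁆, ⁅z, t⁆⁆ * ⁅⁅⁅x, y⁆, t⁆, z⁆ = ⁅⁅⁅x, y⁆, t⁆, z⁆ * ⁅⁅x, y⁆, ⁅z, t⁆⁆ :=
        mem_center_iff.mp hc _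
      have h3 : ⁅⁅⁅x, y⁆, z⁆, t⁆ = ⁅⁅⁅x, y⁆, t⁆, z⁆ * ⁅⁅x, y⁆, ⁅z, t⁆⁆ := by
        rw [mul_inv_eq_one, mul_inv_eq_iff_eq_mul] at hJ
        exact hJ
      rw [h3, ← hc2]; group
    rw [key, key, cE_neg]
    apply cE_eq
    rw [commutatorElement_inv]

theorem sys5 (hK : InV K) : Sys5 (m5 hK.nil) where
  add1 a a' b c d f := by
    have := (ml 4 hK.nil).map_update_add ![0, b, c, d, f] 0 a a'
    have e : ∀ x, Function.update (![0, b, c, d, f] : Fin 5 → Additive (Abelianization K)) 0 x =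
      ![x, b, c, d, f] := by intro x; funext i; fin_cases i <;> rfl
    rwa [e, e, e] at this
  add2 a b b' c d f := by
    have := (ml 4 hK.nil).map_update_add ![a, 0, c, d, f] 1 b b'
    have e : ∀ x, Function.update (![a, 0, c, d, f] : Fin 5 → Additive (Abelianization K)) 1 x =
      ![a, x, c, d, f] := by intro x; funext i; fin_cases i <;> rfl
    rwa [e, e, e] at this
  add3 a b c c' d f := by
    have := (ml 4 hK.nil).map_update_add ![a, b, 0, d, f] 2 c c'
    have e : ∀ x, Function.update (![a, b, 0, d, f] : Fin 5 → Additive (Abelianization K)) 2 x =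
      ![a, b, x, d, f] := by intro x; funext i; fin_cases i <;> rfl
    rwa [e, e, e] at this
  add4 a b c d d' f := by
    have := (ml 4 hK.nil).map_update_add ![a, b, c, 0, f] 3 d d'
    have e : ∀ x, Function.update (![a, b, c, 0, f] : Fin 5 → Additive (Abelianization K)) 3 x =
      ![a, b, c, x, f] := by intro x; funext i; fin_cases i <;> rfl
    rwa [e, e, e] at this
  add5 a b c d f f' := by
    have := (ml 4 hK.nil).map_update_add ![a, b, c, d, 0] 4 f f'
    have e : ∀ x, Function.update (![a, b, c, d, 0] : Fin 5 → Additive (Abelianization K)) 4 x =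
      ![a, b, c, d, x] := by intro x; funext i; fin_cases i <;> rfl
    rwa [e, e, e] at this
  alt a c d f := by
    obtain ⟨x, rfl⟩ := ab_surj a
    obtain ⟨z, rfl⟩ := ab_surj c
    obtain ⟨t, rfl⟩ := ab_surj d
    obtain ⟨u, rfl⟩ := ab_surj f
    rw [m5_apply]
    apply cE_zero
    simp
  jac a b c d f := by
    have h := hK.nil
    obtain ⟨x, rfl⟩ := ab_surj a
    obtain ⟨y, rfl⟩ := ab_surj b
    obtain ⟨z, rfl⟩ := ab_surj c
    obtain ⟨t, rfl⟩ := ab_surj d
    obtain ⟨u, rfl⟩ := ab_surj f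
    rw [m5_apply, m5_apply, m5_apply, cE_add, cE_add]
    apply cE_zero
    have hX := c3_mem x y z
    have hY := c3_mem y z x
    have hZ := c3_mem z x y
    have ht : t ∈ gam K 0 := mem_top _
    have hu : u ∈ gam K 0 := mem_top _
    have hX' := c4_mem x y z t
    have hY' := c4_mem y z x t
    have hZ' := c4_mem z x y t
    rw [← comm_mul_left_mem h (by norm_num) hX' hY' hu,
      ← comm_mul_left_mem h (by norm_num) (mul_mem hX' hY') hZ' hu,
      ← comm_mul_left_mem h (by norm_num) hX hY ht,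
      ← comm_mul_left_mem h (by norm_num) (mul_mem hX hY) hZ ht]
    have hJ := jacobi_mod (K := K) (i := 0) (j := 0) (k := 0) (x := x) (y := y) (z := z)
      (mem_top _) (mem_top _) (mem_top _)
    exact eq_one_of_mem h (m := 5) (by norm_num) (comm_mem_left (comm_mem_left hJ t) u)
  sym a b c d f := by
    have h := hK.nil
    obtain ⟨x, rfl⟩ := ab_surj a
    obtain ⟨y, rfl⟩ := ab_surj b
    obtain ⟨z, rfl⟩ := ab_surj c
    obtain ⟨t, rfl⟩ := ab_surj d
    obtain ⟨u, rfl⟩ := ab_surj f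
    rw [m5_apply, m5_apply]
    apply cE_eq
    have hw : ⁅x, y⁆ ∈ gam K 1 := comm_mem_left (mem_top x) y
    have hzt : ⁅z, t⁆ ∈ gam K 1 := comm_mem_left (mem_top z) t
    have hJ := jacobi_mod (K := K) (i := 1) (j := 0) (k := 0) hw (mem_top z) (mem_top t)
    have hcen : ⁅⁅z, t⁆, ⁅x, y⁆⁆ ∈ center K := hK.ccen _ hzt _ hw
    have hI := comm_inv_mod (K := K) (i := 2) (j := 0) (x := ⁅⁅x, y⁆, t⁆) (y := z)
      (c3_mem x y t) (mem_top z)
    rw [commutatorElement_inv] at hI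
    -- names
    set P := ⁅⁅⁅x, y⁆, z⁆, t⁆ with hP
    set Q := ⁅⁅⁅x, y⁆, t⁆, z⁆ with hQ
    set Z := ⁅⁅z, t⁆, ⁅x, y⁆⁆ with hZ
    set R := ⁅⁅t, ⁅x, y⁆⁆, z⁆ with hR
    have hj4 : P * Z * R ∈ gam K 4 := hJ
    have hi4 : R * Q ∈ gam K 4 := mem_gam_of_le (by norm_num) hI
    have hjc : P * Z * R ∈ center K := central_of_mem h hj4
    have hic : R * Q ∈ center K := central_of_mem h hi4
    -- P = (P Z R) * (R Q)⁻¹ ... up to central
    have hPQ : P = Q * ((P * Z * R) * (R * Q)⁻¹ * Z⁻¹) := by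
      have c1 : ∀ g, g * Z = Z * g := fun g => mem_center_iff.mp hcen g
      have e1 : P * Z * R * (R * Q)⁻¹ = P * Q⁻¹ * Z := by
        calc P * Z * R * (R * Q)⁻¹ = P * (Z * (R * (R * Q)⁻¹)) := by group
          _ = P * (Z * Q⁻¹ ) := by
            have hq : (R * Q)⁻¹ * R = R * (R * Q)⁻¹ := by
              have := mem_center_iff.mp (inv_mem hic) R
              exact this.symm
            have : R * (R * Q)⁻¹ = Q⁻¹ := by rw [← hq]; group
            rw [this]
          _ = P * Q⁻¹ * Z := by rw [← c1 Q⁻¹]; group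
      rw [e1]
      have e2 : P * Q⁻¹ * Z * Z⁻¹ = P * Q⁻¹ := by group
      rw [e2]
      have e3 : P * Q⁻¹ ∈ center K := by
        have : P * Q⁻¹ = (P * Z * R * (R * Q)⁻¹) * Z⁻¹ := by rw [e1, e2]
        rw [this]
        exact mul_mem (mul_mem hjc (inv_mem hic)) (inv_mem hcen)
      rw [mem_center_iff.mp e3 Q]; group
    have hcc : (P * Z * R) * (R * Q)⁻¹ * Z⁻¹ ∈ center K :=
      mul_mem (mul_mem hjc (inv_mem hic)) (inv_mem hcen)
    have : ⁅P, u⁆ = ⁅Q, u⁆ := by
      rw [hPQ, comm_mul_left, comm_central_left hcc, mul_one]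
      rw [comm_central_left hcc]; exact one_mem _
    exact this
  quad a b c d f := by
    have h := hK.nil
    obtain ⟨x, rfl⟩ := ab_surj a
    obtain ⟨y, rfl⟩ := ab_surj b
    obtain ⟨z, rfl⟩ := ab_surj c
    obtain ⟨t, rfl⟩ := ab_surj d
    obtain ⟨u, rfl⟩ := ab_surj f
    have key : ∀ x y z t u : K, m5 h (ab x) (ab y) (ab z) (ab t) (ab u) -
        m5 h (ab x) (ab y) (ab z) (ab u) (ab t)
        = cE ⁅⁅⁅x, y⁆, z⁆, ⁅t, u⁆⁆ (central_of_mem h (comm_mem (i := 2) (j := 1)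
          (c3_mem x y z) (comm_mem_left (mem_top t) u))) := by
      intro x y z t u
      have hx' : ⁅⁅x, y⁆, z⁆ ∈ gam K 2 := c3_mem x y z
      have hw : ⁅t, u⁆ ∈ gam K 1 := comm_mem_left (mem_top t) u
      have hJ := jacobi (i := 2) (j := 0) (k := 0) h hx' (mem_top t) (mem_top u)
      have e1 : ⁅⁅u, ⁅⁅x, y⁆, z⁆⁆, t⁆ = ⁅⁅⁅⁅x, y⁆, z⁆, u⁆, t⁆⁻¹ := by
        rw [← commutatorElement_inv ⁅⁅x, y⁆, z⁆ u]
        exact comm_inv_left_mem (j := 0) h (by norm_num) (comm_mem_left hx' u) (mem_top t)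
      have e2 : ⁅⁅t, u⁆, ⁅⁅x, y⁆, z⁆⁆ = ⁅⁅⁅x, y⁆, z⁆, ⁅t, u⁆⁆⁻¹ :=
        (commutatorElement_inv _ _).symm
      rw [e1, e2] at hJ
      rw [m5_apply, m5_apply, sub_eq_add_neg, cE_neg, cE_add]
      apply cE_eq
      have hc : ⁅⁅⁅⁅x, y⁆, z⁆, u⁆, t⁆ ∈ center K := central_of_mem h (c5_mem x y z u t)
      have hc2 : ⁅⁅⁅x, y⁆, z⁆, ⁅t, u⁆⁆ * ⁅⁅⁅⁅x, y⁆, z⁆, u⁆, t⁆ =
          ⁅⁅⁅⁅x, y⁆, z⁆, u⁆, t⁆ * ⁅⁅⁅x, y⁆, z⁆, ⁅t, u⁆⁆ := mem_center_iff.mp hc _
      have h3 : ⁅⁅⁅⁅x, y⁆, z⁆, t⁆, u⁆ = ⁅⁅⁅⁅x, y⁆, z⁆, u⁆, t⁆ * ⁅⁅⁅x, y⁆, z⁆, ⁅t, u⁆⁆ := by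
        rw [mul_inv_eq_one, mul_inv_eq_iff_eq_mul] at hJ
        exact hJ
      rw [h3, ← hc2]; group
    rw [key, key]
    apply cE_eq
    -- [[p,c],w] = [[w,c],p] for p, w in K'
    have hp : ⁅x, y⁆ ∈ gam K 1 := comm_mem_left (mem_top x) y
    have hw : ⁅t, u⁆ ∈ gam K 1 := comm_mem_left (mem_top t) u
    have hJ := jacobi (i := 1) (j := 0) (k := 1) h hp (mem_top z) hw
    have hcen : ⁅⁅t, u⁆, ⁅x, y⁆⁆ ∈ center K := hK.ccen _ hw _ hp
    rw [comm_central_left hcen, mul_one] at hJ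
    have e1 : ⁅⁅z, ⁅t, u⁆⁆, ⁅x, y⁆⁆ = ⁅⁅⁅t, u⁆, z⁆, ⁅x, y⁆⁆⁻¹ := by
      rw [← commutatorElement_inv ⁅t, u⁆ z]
      exact comm_inv_left_mem (j := 1) h (by norm_num) (comm_mem_left hw z) hp
    rw [e1, mul_inv_eq_one] at hJ
    exact hJ

end real

end Pool.Agent.helper3
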