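import Mathlib
import Pool.Agent.helper3.Sys

/-! Normal forms of multilinear expressions. -/

namespace Pool.Agent.helper3

section anti

variable {A B : Type*} [AddCommGroup A] [AddCommGroup B]

theorem Sys3.anti {m : A → A → A → B} (hm : Sys3 m) (a b c : A) : m b a c = - m a b c := by
  have h := hm.alt (a + b) c
  rw [hm.add1, hm.add2, hm.add2, hm.alt, hm.alt] at h
  rw [eq_neg_iff_add_eq_zero]
  rw [← h]; abel

theorem Sys4.anti {m : A → A → A → A → B} (hm : Sys4 m) (a b c d : A) :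
    m b a c d = - m a b c d := by
  have h := hm.alt (a + b) c d
  rw [hm.add1, hm.add2, hm.add2, hm.alt, hm.alt] at h
  rw [eq_neg_iff_add_eq_zero]
  rw [← h]; abel

theorem Sys5.anti {m : A → A → A → A → A → B} (hm : Sys5 m) (a b c d e : A) :
    m b a c d e = - m a b c d e := by
  have h := hm.alt (a + b) c d e
  rw [hm.add1, hm.add2, hm.add2, hm.alt, hm.alt] at h
  rw [eq_neg_iff_add_eq_zero]
  rw [← h]; abel

/-- move `a` from third to first place -/
theorem Sys3.third {m : A → A → A → B} (hm : Sys3 m) (a b c : A) :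
    m b c a = m a c b - m a b c := by
  have h := hm.jac a b c
  rw [hm.anti a c b] at h
  have h2 : m b c a = -(m a b c + - m a c b) := by
    rw [eq_neg_iff_add_eq_zero, ← h]; abel
  rw [h2]; abel

theorem Sys4.third {m : A → A → A → A → B} (hm : Sys4 m) (a b c d : A) :
    m b c a d = m a c b d - m a b c d := by
  have h := hm.jac a b c d
  rw [hm.anti a c b d] at h
  have h2 : m b c a d = -(m a b c d + - m a c b d) := by
    rw [eq_neg_iff_add_eq_zero, ← h]; abel
  rw [h2]; abel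

theorem Sys5.third {m : A → A → A → A → A → B} (hm : Sys5 m) (a b c d e : A) :
    m b c a d e = m a c b d e - m a b c d e := by
  have h := hm.jac a b c d e
  rw [hm.anti a c b d e] at h
  have h2 : m b c a d e = -(m a b c d e + - m a c b d e) := by
    rw [eq_neg_iff_add_eq_zero, ← h]; abel
  rw [h2]; abel

/-- move the last entry to the first place -/
theorem Sys4.last {m : A → A → A → A → B} (hm : Sys4 m) (a b c d : A) :
    m b c d a = m a c b d - m a b c d + m a d b c - m a d c b := by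
  have h := hm.quad b c d a
  have h2 : m b c d a = m b c a d - (m d a b c - m d a c b) := by
    rw [← sub_eq_zero] at h ⊢
    rw [← h]; abel
  rw [h2, hm.third a b c d, hm.anti a d b c, hm.anti a d c b]
  abel

theorem Sys5.last {m : A → A → A → A → A → B} (hm : Sys5 m) (a b c d e : A) :
    m b c d e a = m a c b d e - m a b c d e - m a e d b c + m a e d c b := by
  have h := hm.quad b c d e a
  have h2 : m b c d e a = m b c a d e + (m e a d b c - m e a d c b) := by
    rw [hm.sym b c a d e]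
    rw [← sub_eq_zero] at h ⊢
    rw [← h]; abel
  rw [h2, hm.third a b c d e, hm.anti a e d b c, hm.anti a e d c b]
  abel

end anti

section nf

open Equiv

/-- induction principle for permutations of `Fin (n+1)` by adjacent transpositions on the left -/
theorem perm_ind {n : ℕ} {P : Perm (Fin (n + 1)) → Prop} (h1 : P 1)
    (h2 : ∀ (i : Fin n) (π : Perm (Fin (n + 1))), P π → P (swap i.castSucc i.succ * π)) :
    ∀ π, P π := by
  intro π
  have hπ : π ∈ Submonoid.closure (Set.range fun i : Fin n ↦ swap i.castSucc i.succ) := by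
    rw [Perm.mclosure_swap_castSucc_succ]; trivial
  induction hπ using Submonoid.closure_induction_left with
  | one => exact h1
  | mul_left x hx y _ ih =>
    obtain ⟨i, rfl⟩ := hx
    exact h2 i y ih

variable {A B : Type*} [AddCommGroup A] [AddCommGroup B]

def nf3 (b : Fin 2 → ℤ) (m : A → A → A → B) (v : Fin 3 → A) : B :=
  b 0 • m (v 0) (v 1) (v 2) + b 1 • m (v 0) (v 2) (v 1)

def nf4 (b : Fin 6 → ℤ) (m : A → A → A → A → B) (v : Fin 4 → A) : B :=
  b 0 • m (v 0) (v 1) (v 2) (v 3) + b 1 • m (v 0) (v 1) (v 3) (v 2) +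
  b 2 • m (v 0) (v 2) (v 1) (v 3) + b 3 • m (v 0) (v 2) (v 3) (v 1) +
  b 4 • m (v 0) (v 3) (v 1) (v 2) + b 5 • m (v 0) (v 3) (v 2) (v 1)

def nf5 (b : Fin 12 → ℤ) (m : A → A → A → A → A → B) (v : Fin 5 → A) : B :=
  b 0 • m (v 0) (v 1) (v 2) (v 3) (v 4) + b 1 • m (v 0) (v 1) (v 2) (v 4) (v 3) +
  b 2 • m (v 0) (v 1) (v 3) (v 4) (v 2) + b 3 • m (v 0) (v 2) (v 1) (v 3) (v 4) +
  b 4 • m (v 0) (v 2) (v 1) (v 4) (v 3) + b 5 • m (v 0) (v 2) (v 3) (v 4) (v 1) +
  b 6 • m (v 0) (v 3) (v 1) (v 2) (v 4) + b 7 • m (v 0) (v 3) (v 1) (v 4) (v 2) +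
  b 8 • m (v 0) (v 3) (v 2) (v 4) (v 1) + b 9 • m (v 0) (v 4) (v 1) (v 2) (v 3) +
  b 10 • m (v 0) (v 4) (v 1) (v 3) (v 2) + b 11 • m (v 0) (v 4) (v 2) (v 3) (v 1)

theorem nf3_exists (π : Perm (Fin 3)) : ∃ b : Fin 2 → ℤ,
    ∀ (A B : Type) [AddCommGroup A] [AddCommGroup B] (m : A → A → A → B) (_ : Sys3 m)
      (v : Fin 3 → A), m (v (π 0)) (v (π 1)) (v (π 2)) = nf3 b m v := by
  induction π using perm_ind with
  | h1 =>
    refine ⟨![1, 0], fun A B _ _ m hm v => ?_⟩
    simp [nf3]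
  | h2 i π ih =>
    obtain ⟨b, hb⟩ := ih
    fin_cases i
    · refine ⟨![- b 0 - b 1, b 1], fun A B _ _ m hm v => ?_⟩
      have := hb A B m hm (fun i => v (swap (0 : Fin 3) 1 i))
      change m (v (swap (0 : Fin 3) 1 (π 0))) (v (swap (0 : Fin 3) 1 (π 1)))
        (v (swap (0 : Fin 3) 1 (π 2))) = _
      rw [this]
      have e0 : swap (0 : Fin 3) 1 0 = 1 := by decide
      have e1 : swap (0 : Fin 3) 1 1 = 0 := by decide
      have e2 : swap (0 : Fin 3) 1 2 = 2 := by decide
      simp only [nf3, e0, e1, e2, Matrix.cons_val_zero, Matrix.cons_val_one]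
      rw [hm.anti (v 0) (v 1) (v 2), hm.third (v 0) (v 1) (v 2)]
      module
    · refine ⟨![b 1, b 0], fun A B _ _ m hm v => ?_⟩
      have := hb A B m hm (fun i => v (swap (1 : Fin 3) 2 i))
      change m (v (swap (1 : Fin 3) 2 (π 0))) (v (swap (1 : Fin 3) 2 (π 1)))
        (v (swap (1 : Fin 3) 2 (π 2))) = _
      rw [this]
      have e0 : swap (1 : Fin 3) 2 0 = 0 := by decide
      have e1 : swap (1 : Fin 3) 2 1 = 2 := by decide
      have e2 : swap (1 : Fin 3) 2 2 = 1 := by decide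
      simp only [nf3, e0, e1, e2, Matrix.cons_val_zero, Matrix.cons_val_one]
      module

theorem nf4_exists (π : Perm (Fin 4)) : ∃ b : Fin 6 → ℤ,
    ∀ (A B : Type) [AddCommGroup A] [AddCommGroup B] (m : A → A → A → A → B) (_ : Sys4 m)
      (v : Fin 4 → A), m (v (π 0)) (v (π 1)) (v (π 2)) (v (π 3)) = nf4 b m v := by
  induction π using perm_ind with
  | h1 =>
    refine ⟨![1, 0, 0, 0, 0, 0], fun A B _ _ m hm v => ?_⟩
    simp [nf4]
  | h2 i π ih =>
    obtain ⟨b, hb⟩ := ih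
    fin_cases i
    · -- images: t0 → -t0, t1 → -t1, t2 → t2 - t0,
      -- t3: m 0231 → m 1230 = t2 - t0 + t4 - t5
      -- t4: m 0312 → m 1302 = t4 - t1
      -- t5: m 0321 → m 1320 = t4 - t1 + t2 - t3
      refine ⟨![- b 0 - b 2 - b 3, - b 1 - b 4 - b 5, b 2 + b 3 + b 5, - b 5,
        b 4 + b 5 + b 3, - b 3], fun A B _ _ m hm v => ?_⟩
      have := hb A B m hm (fun i => v (swap (0 : Fin 4) 1 i))
      change m (v (swap (0 : Fin 4) 1 (π 0))) (v (swap (0 : Fin 4) 1 (π 1)))
        (v (swap (0 : Fin 4) 1 (π 2))) (v (swap (0 : Fin 4) 1 (π 3))) = _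
      rw [this]
      have e0 : swap (0 : Fin 4) 1 0 = 1 := by decide
      have e1 : swap (0 : Fin 4) 1 1 = 0 := by decide
      have e2 : swap (0 : Fin 4) 1 2 = 2 := by decide
      have e3 : swap (0 : Fin 4) 1 3 = 3 := by decide
      simp only [nf4, e0, e1, e2, e3]
      simp only [Matrix.cons_val]
      rw [hm.anti (v 0) (v 1) (v 2) (v 3), hm.anti (v 0) (v 1) (v 3) (v 2),
        hm.third (v 0) (v 1) (v 2) (v 3), hm.third (v 0) (v 1) (v 3) (v 2),
        hm.last (v 0) (v 1) (v 2) (v 3), hm.last (v 0) (v 1) (v 3) (v 2)]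
      module
    · refine ⟨![b 2, b 3, b 0, b 1, b 5, b 4], fun A B _ _ m hm v => ?_⟩
      have := hb A B m hm (fun i => v (swap (1 : Fin 4) 2 i))
      change m (v (swap (1 : Fin 4) 2 (π 0))) (v (swap (1 : Fin 4) 2 (π 1)))
        (v (swap (1 : Fin 4) 2 (π 2))) (v (swap (1 : Fin 4) 2 (π 3))) = _
      rw [this]
      have e0 : swap (1 : Fin 4) 2 0 = 0 := by decide
      have e1 : swap (1 : Fin 4) 2 1 = 2 := by decide
      have e2 : swap (1 : Fin 4) 2 2 = 1 := by decide
      have e3 : swap (1 : Fin 4) 2 3 = 3 := by decide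
      simp only [nf4, e0, e1, e2, e3]
      simp only [Matrix.cons_val]
      module
    · refine ⟨![b 1, b 0, b 4, b 5, b 2, b 3], fun A B _ _ m hm v => ?_⟩
      have := hb A B m hm (fun i => v (swap (2 : Fin 4) 3 i))
      change m (v (swap (2 : Fin 4) 3 (π 0))) (v (swap (2 : Fin 4) 3 (π 1)))
        (v (swap (2 : Fin 4) 3 (π 2))) (v (swap (2 : Fin 4) 3 (π 3))) = _
      rw [this]
      have e0 : swap (2 : Fin 4) 3 0 = 0 := by decide
      have e1 : swap (2 : Fin 4) 3 1 = 1 := by decide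
      have e2 : swap (2 : Fin 4) 3 2 = 3 := by decide
      have e3 : swap (2 : Fin 4) 3 3 = 2 := by decide
      simp only [nf4, e0, e1, e2, e3]
      simp only [Matrix.cons_val]
      module

theorem nf5_exists (π : Perm (Fin 5)) : ∃ b : Fin 12 → ℤ,
    ∀ (A B : Type) [AddCommGroup A] [AddCommGroup B] (m : A → A → A → A → A → B) (_ : Sys5 m)
      (v : Fin 5 → A), m (v (π 0)) (v (π 1)) (v (π 2)) (v (π 3)) (v (π 4)) = nf5 b m v := by
  induction π using perm_ind with
  | h1 =>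
    refine ⟨![1, 0, 0, 0, 0, 0, 0, 0, 0, 0, 0, 0], fun A B _ _ m hm v => ?_⟩
    simp only [nf5, Matrix.cons_val, Perm.coe_one, id_eq]
    module
  | h2 i π ih =>
    obtain ⟨b, hb⟩ := ih
    fin_cases i
    · refine ⟨![- b 0 - b 3 - b 5 - b 6 - b 8, - b 1 - b 4 - b 9 - b 11, - b 2 - b 7 - b 10,
        b 3 + b 5, b 4, 0, b 6 + b 8 - b 11, b 7, b 11, - b 8 + b 9 + b 11, - b 5 + b 10,
        b 5 + b 8], fun A B _ _ m hm v => ?_⟩
      have := hb A B m hm (fun i => v (swap (0 : Fin 5) 1 i))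
      change m (v (swap (0 : Fin 5) 1 (π 0))) (v (swap (0 : Fin 5) 1 (π 1)))
        (v (swap (0 : Fin 5) 1 (π 2))) (v (swap (0 : Fin 5) 1 (π 3)))
        (v (swap (0 : Fin 5) 1 (π 4))) = _
      rw [this]
      have e0 : swap (0 : Fin 5) 1 0 = 1 := by decide
      have e1 : swap (0 : Fin 5) 1 1 = 0 := by decide
      have e2 : swap (0 : Fin 5) 1 2 = 2 := by decide
      have e3 : swap (0 : Fin 5) 1 3 = 3 := by decide
      have e4 : swap (0 : Fin 5) 1 4 = 4 := by decide
      simp only [nf5, e0, e1, e2, e3, e4]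
      simp only [Matrix.cons_val]
      generalize v 0 = a0
      generalize v 1 = a1
      generalize v 2 = a2
      generalize v 3 = a3
      generalize v 4 = a4
      rw [hm.anti a0 a1 a2 a3 a4, hm.anti a0 a1 a2 a4 a3, hm.anti a0 a1 a3 a4 a2,
        hm.third a0 a1 a2 a3 a4, hm.third a0 a1 a2 a4 a3, hm.third a0 a1 a3 a2 a4,
        hm.third a0 a1 a3 a4 a2, hm.third a0 a1 a4 a2 a3, hm.third a0 a1 a4 a3 a2,
        hm.last a0 a1 a2 a3 a4, hm.last a0 a1 a3 a2 a4, hm.last a0 a1 a4 a2 a3,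
        hm.sym a0 a4 a3 a1 a2, hm.sym a0 a4 a3 a2 a1, hm.sym a0 a1 a3 a2 a4,
        hm.sym a0 a4 a2 a1 a3, hm.sym a0 a1 a4 a2 a3, hm.sym a0 a3 a2 a1 a4,
        hm.sym a0 a1 a4 a3 a2]
      module
    · -- (1 2)
      refine ⟨![b 3, b 4, b 5, b 0, b 1, b 2, b 6, b 8, b 7, b 9, b 11, b 10],
        fun A B _ _ m hm v => ?_⟩
      have := hb A B m hm (fun i => v (swap (1 : Fin 5) 2 i))
      change m (v (swap (1 : Fin 5) 2 (π 0))) (v (swap (1 : Fin 5) 2 (π 1)))
        (v (swap (1 : Fin 5) 2 (π 2))) (v (swap (1 : Fin 5) 2 (π 3)))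
        (v (swap (1 : Fin 5) 2 (π 4))) = _
      rw [this]
      have e0 : swap (1 : Fin 5) 2 0 = 0 := by decide
      have e1 : swap (1 : Fin 5) 2 1 = 2 := by decide
      have e2 : swap (1 : Fin 5) 2 2 = 1 := by decide
      have e3 : swap (1 : Fin 5) 2 3 = 3 := by decide
      have e4 : swap (1 : Fin 5) 2 4 = 4 := by decide
      simp only [nf5, e0, e1, e2, e3, e4]
      simp only [Matrix.cons_val]
      generalize v 0 = a0
      generalize v 1 = a1
      generalize v 2 = a2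
      generalize v 3 = a3
      generalize v 4 = a4
      rw [hm.sym a0 a3 a2 a1 a4, hm.sym a0 a4 a2 a1 a3]
      module
    · -- (2 3)
      refine ⟨![b 0, b 2, b 1, b 6, b 7, b 8, b 3, b 4, b 5, b 10, b 9, b 11],
        fun A B _ _ m hm v => ?_⟩
      have := hb A B m hm (fun i => v (swap (2 : Fin 5) 3 i))
      change m (v (swap (2 : Fin 5) 3 (π 0))) (v (swap (2 : Fin 5) 3 (π 1)))
        (v (swap (2 : Fin 5) 3 (π 2))) (v (swap (2 : Fin 5) 3 (π 3)))
        (v (swap (2 : Fin 5) 3 (π 4))) = _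
      rw [this]
      have e0 : swap (2 : Fin 5) 3 0 = 0 := by decide
      have e1 : swap (2 : Fin 5) 3 1 = 1 := by decide
      have e2 : swap (2 : Fin 5) 3 2 = 3 := by decide
      have e3 : swap (2 : Fin 5) 3 3 = 2 := by decide
      have e4 : swap (2 : Fin 5) 3 4 = 4 := by decide
      simp only [nf5, e0, e1, e2, e3, e4]
      simp only [Matrix.cons_val]
      generalize v 0 = a0
      generalize v 1 = a1
      generalize v 2 = a2
      generalize v 3 = a3
      generalize v 4 = a4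
      rw [hm.sym a0 a1 a3 a2 a4, hm.sym a0 a4 a3 a2 a1]
      module
    · -- (3 4)
      refine ⟨![b 1, b 0, b 2, b 4, b 3, b 5, b 9, b 10, b 11, b 6, b 7, b 8],
        fun A B _ _ m hm v => ?_⟩
      have := hb A B m hm (fun i => v (swap (3 : Fin 5) 4 i))
      change m (v (swap (3 : Fin 5) 4 (π 0))) (v (swap (3 : Fin 5) 4 (π 1)))
        (v (swap (3 : Fin 5) 4 (π 2))) (v (swap (3 : Fin 5) 4 (π 3)))
        (v (swap (3 : Fin 5) 4 (π 4))) = _
      rw [this]
      have e0 : swap (3 : Fin 5) 4 0 = 0 := by decide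
      have e1 : swap (3 : Fin 5) 4 1 = 1 := by decide
      have e2 : swap (3 : Fin 5) 4 2 = 2 := by decide
      have e3 : swap (3 : Fin 5) 4 3 = 4 := by decide
      have e4 : swap (3 : Fin 5) 4 4 = 3 := by decide
      simp only [nf5, e0, e1, e2, e3, e4]
      simp only [Matrix.cons_val]
      generalize v 0 = a0
      generalize v 1 = a1
      generalize v 2 = a2
      generalize v 3 = a3
      generalize v 4 = a4
      rw [hm.sym a0 a1 a4 a3 a2, hm.sym a0 a2 a4 a3 a1]
      module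

/-- linear combinations over all permutations -/
theorem nf3_sum (C : Perm (Fin 3) → ℤ) : ∃ b : Fin 2 → ℤ,
    ∀ (A B : Type) [AddCommGroup A] [AddCommGroup B] (m : A → A → A → B) (_ : Sys3 m)
      (v : Fin 3 → A), ∑ π, C π • m (v (π 0)) (v (π 1)) (v (π 2)) = nf3 b m v := by
  choose b hb using nf3_exists
  refine ⟨fun i => ∑ π, C π * b π i, fun A B _ _ m hm v => ?_⟩
  have : ∀ π, m (v (π 0)) (v (π 1)) (v (π 2)) = nf3 (b π) m v := fun π => hb π A B m hm v
  simp only [this, nf3, smul_add, smul_smul, Finset.sum_add_distrib, Finset.sum_smul]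

theorem nf4_sum (C : Perm (Fin 4) → ℤ) : ∃ b : Fin 6 → ℤ,
    ∀ (A B : Type) [AddCommGroup A] [AddCommGroup B] (m : A → A → A → A → B) (_ : Sys4 m)
      (v : Fin 4 → A), ∑ π, C π • m (v (π 0)) (v (π 1)) (v (π 2)) (v (π 3)) = nf4 b m v := by
  choose b hb using nf4_exists
  refine ⟨fun i => ∑ π, C π * b π i, fun A B _ _ m hm v => ?_⟩
  have : ∀ π, m (v (π 0)) (v (π 1)) (v (π 2)) (v (π 3)) = nf4 (b π) m v :=
    fun π => hb π A B m hm v
  simp only [this, nf4, smul_add, smul_smul, Finset.sum_add_distrib, Finset.sum_smul]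

theorem nf5_sum (C : Perm (Fin 5) → ℤ) : ∃ b : Fin 12 → ℤ,
    ∀ (A B : Type) [AddCommGroup A] [AddCommGroup B] (m : A → A → A → A → A → B) (_ : Sys5 m)
      (v : Fin 5 → A),
      ∑ π, C π • m (v (π 0)) (v (π 1)) (v (π 2)) (v (π 3)) (v (π 4)) = nf5 b m v := by
  choose b hb using nf5_exists
  refine ⟨fun i => ∑ π, C π * b π i, fun A B _ _ m hm v => ?_⟩
  have : ∀ π, m (v (π 0)) (v (π 1)) (v (π 2)) (v (π 3)) (v (π 4)) = nf5 (b π) m v :=
    fun π => hb π A B m hm v
  simp only [this, nf5, smul_add, smul_smul, Finset.sum_add_distrib, Finset.sum_smul]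

end nf

end Pool.Agent.helper3
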