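import Mathlib
import Pool.Agent.helper3.NF

/-! The vanishing lemmas. -/

namespace Pool.Agent.helper3

section pf

variable {A B : Type*} [AddCommGroup B]

/-- the Pluecker type relation, doubled -/
theorem pf_aux (T : A → A → A → A → A → B)
    (hanti : ∀ a b c d e, T a b c d e = - T b a c d e)
    (hsymm : ∀ a b c d e, T a b c d e = T d e c a b)
    (hjac : ∀ a b c d e, T a b c d e + T b c a d e + T c a b d e = 0)
    (a0 a1 a2 a3 a4 : A) :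
    (2 : ℤ) • (T a0 a1 a4 a2 a3 - T a0 a2 a4 a1 a3 + T a0 a3 a4 a1 a2) = 0 := by
  have j1 : T a2 a3 a4 a0 a1 + T a3 a4 a2 a0 a1 + T a4 a2 a3 a0 a1 = 0 := hjac a2 a3 a4 a0 a1
  rw [hsymm a2 a3 a4 a0 a1, hsymm a3 a4 a2 a0 a1, hanti a4 a2 a3 a0 a1, hsymm a2 a4 a3 a0 a1] at j1
  have j2 : T a0 a1 a4 a2 a3 + T a1 a4 a0 a2 a3 + T a4 a0 a1 a2 a3 = 0 := hjac a0 a1 a4 a2 a3
  rw [hanti a4 a0 a1 a2 a3] at j2
  have j3 : T a1 a3 a4 a0 a2 + T a3 a4 a1 a0 a2 + T a4 a1 a3 a0 a2 = 0 := hjac a1 a3 a4 a0 a2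
  rw [hsymm a1 a3 a4 a0 a2, hsymm a3 a4 a1 a0 a2, hanti a4 a1 a3 a0 a2, hsymm a1 a4 a3 a0 a2] at j3
  have j4 : T a0 a2 a4 a1 a3 + T a2 a4 a0 a1 a3 + T a4 a0 a2 a1 a3 = 0 := hjac a0 a2 a4 a1 a3
  rw [hsymm a2 a4 a0 a1 a3, hanti a4 a0 a2 a1 a3] at j4
  have j5 : T a1 a2 a4 a0 a3 + T a2 a4 a1 a0 a3 + T a4 a1 a2 a0 a3 = 0 := hjac a1 a2 a4 a0 a3
  rw [hsymm a1 a2 a4 a0 a3, hsymm a2 a4 a1 a0 a3, hanti a4 a1 a2 a0 a3, hsymm a1 a4 a2 a0 a3] at j5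
  have j6 : T a0 a3 a4 a1 a2 + T a3 a4 a0 a1 a2 + T a4 a0 a3 a1 a2 = 0 := hjac a0 a3 a4 a1 a2
  rw [hsymm a3 a4 a0 a1 a2, hanti a4 a0 a3 a1 a2] at j6
  have j7 : T a0 a1 a2 a3 a4 + T a1 a2 a0 a3 a4 + T a2 a0 a1 a3 a4 = 0 := hjac a0 a1 a2 a3 a4
  rw [hanti a2 a0 a1 a3 a4] at j7
  have j8 : T a0 a1 a3 a2 a4 + T a1 a3 a0 a2 a4 + T a3 a0 a1 a2 a4 = 0 := hjac a0 a1 a3 a2 a4
  rw [hanti a3 a0 a1 a2 a4] at j8
  have j9 : T a0 a2 a3 a1 a4 + T a2 a3 a0 a1 a4 + T a3 a0 a2 a1 a4 = 0 := hjac a0 a2 a3 a1 a4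
  rw [hsymm a2 a3 a0 a1 a4, hanti a3 a0 a2 a1 a4] at j9
  have j10 : T a1 a2 a3 a0 a4 + T a2 a3 a1 a0 a4 + T a3 a1 a2 a0 a4 = 0 := hjac a1 a2 a3 a0 a4
  rw [hsymm a1 a2 a3 a0 a4, hsymm a2 a3 a1 a0 a4, hanti a3 a1 a2 a0 a4, hsymm a1 a3 a2 a0 a4] at j10
  linear_combination (norm := module) (1 : ℤ) • j1 + (1 : ℤ) • j2 + (-1 : ℤ) • j3 + (-1 : ℤ) • j4 + (1 : ℤ) • j5 + (1 : ℤ) • j6 + (-1 : ℤ) • j7 + (1 : ℤ) • j8 + (-1 : ℤ) • j9 + (1 : ℤ) • j10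

end pf

section van

variable {A B : Type*} [AddCommGroup A] [AddCommGroup B]

theorem smul_eq_zero_of_dvd (h7 : ∀ b : B, (7 : ℤ) • b = 0) {n : ℤ} (hn : (7 : ℤ) ∣ n) (b : B) :
    n • b = 0 := by
  obtain ⟨k, rfl⟩ := hn
  rw [mul_comm, mul_smul, h7, smul_zero]

theorem smul_congr (h7 : ∀ b : B, (7 : ℤ) • b = 0) {n k : ℤ} (hn : (7 : ℤ) ∣ n - k) (b : B) :
    n • b = k • b := by
  have := smul_eq_zero_of_dvd h7 hn b
  rw [sub_smul, sub_eq_zero] at this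
  exact this

theorem eq_zero_of_two (h7 : ∀ b : B, (7 : ℤ) • b = 0) {b : B} (h : (2 : ℤ) • b = 0) : b = 0 := by
  have : b = (7 : ℤ) • b - (3 : ℤ) • ((2 : ℤ) • b) := by module
  rw [this, h7, h]; simp

theorem eq_zero_of_three (h7 : ∀ b : B, (7 : ℤ) • b = 0) {b : B} (h : (3 : ℤ) • b = 0) :
    b = 0 := by
  have : b = (7 : ℤ) • b - (2 : ℤ) • ((3 : ℤ) • b) := by module
  rw [this, h7, h]; simp

theorem van3_aux {m : A → A → A → B} (hm : Sys3 m) (h7 : ∀ b : B, (7 : ℤ) • b = 0) (κ : ℤ)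
    (h : ∀ x y, κ • m x y x = 0) (a b c : A) : κ • m a b c = 0 := by
  have lin : ∀ a b c, κ • m a b c + κ • m c b a = 0 := by
    intro a b c
    have h1 := h (a + c) b
    rw [hm.add1, hm.add3, hm.add3] at h1
    have h2 := h a b
    have h3 := h c b
    linear_combination (norm := module) h1 - h2 - h3
  have e1 : ∀ a b c, κ • m b c a = κ • m a b c := by
    intro a b c
    have h1 := lin a b c
    rw [hm.anti b c a] at h1
    linear_combination (norm := module) - h1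
  have hj := hm.jac a b c
  have h1 := e1 a b c
  have h2 := e1 b c a
  apply eq_zero_of_three h7
  have : (κ : ℤ) • (m a b c + m b c a + m c a b) = 0 := by rw [hj, smul_zero]
  linear_combination (norm := module) this - (2 : ℤ) • h1 - h2

theorem van3 {m : A → A → A → B} (hm : Sys3 m) (h7 : ∀ b : B, (7 : ℤ) • b = 0)
    (b : Fin 2 → ℤ) (h1 : ∀ x y, nf3 b m ![x, y, x] = 0) (h2 : ∀ x y, nf3 b m ![x, x, y] = 0)
    (v : Fin 3 → A) : nf3 b m v = 0 := by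
  have e1 : ∀ x y, b 0 • m x y x = 0 := by
    intro x y
    have := h1 x y
    simp only [nf3, Matrix.cons_val] at this
    rwa [hm.alt, smul_zero, add_zero] at this
  have e2 : ∀ x y, b 1 • m x y x = 0 := by
    intro x y
    have := h2 x y
    simp only [nf3, Matrix.cons_val] at this
    rwa [hm.alt, smul_zero, zero_add] at this
  unfold nf3
  rw [van3_aux hm h7 _ e1, van3_aux hm h7 _ e2, add_zero]

omit [AddCommGroup A] in
theorem van4 {m : A → A → A → A → B} (h7 : ∀ b : B, (7 : ℤ) • b = 0)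
    (b : Fin 6 → ℤ) (hb : ∀ i, (7 : ℤ) ∣ b i) (v : Fin 4 → A) : nf4 b m v = 0 := by
  unfold nf4
  simp only [smul_eq_zero_of_dvd h7 (hb _), add_zero]

/-- quadratic part -/
theorem pf5 {m : A → A → A → A → A → B} (hm : Sys5 m) (h7 : ∀ b : B, (7 : ℤ) • b = 0)
    (a0 i j k l : A) :
    m a0 i l k j - m a0 i l j k + (m a0 j l i k - m a0 j l k i) + (m a0 k l j i - m a0 k l i j)
      = 0 := by
  let T : A → A → A → A → A → B := fun a b c d e => m a b c d e - m a b c e d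
  have hanti : ∀ a b c d e, T a b c d e = - T b a c d e := by
    intro a b c d e
    simp only [T]
    rw [hm.anti a b c d e, hm.anti a b c e d]; abel
  have hsymm : ∀ a b c d e, T a b c d e = T d e c a b := by
    intro a b c d e
    exact hm.quad a b c d e
  have hjac : ∀ a b c d e, T a b c d e + T b c a d e + T c a b d e = 0 := by
    intro a b c d e
    have h1 := hm.jac a b c d e
    have h2 := hm.jac a b c e d
    simp only [T]
    linear_combination (norm := module) h1 - h2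
  have := eq_zero_of_two h7 (pf_aux T hanti hsymm hjac a0 i j k l)
  simp only [T] at this
  linear_combination (norm := module) - this

theorem van5 {m : A → A → A → A → A → B} (hm : Sys5 m) (h7 : ∀ b : B, (7 : ℤ) • b = 0)
    (b : Fin 12 → ℤ)
    (r1 : (7 : ℤ) ∣ b 0 + b 1 + b 2) (r2 : (7 : ℤ) ∣ b 3 + b 4 + b 5)
    (r3 : (7 : ℤ) ∣ b 6 + b 7 + b 8) (_r4 : (7 : ℤ) ∣ b 9 + b 10 + b 11)
    (s12 : (7 : ℤ) ∣ b 2 + b 5) (s13 : (7 : ℤ) ∣ b 1 + b 8) (s14 : (7 : ℤ) ∣ b 0 + b 11)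
    (s23 : (7 : ℤ) ∣ b 4 + b 7) (s24 : (7 : ℤ) ∣ b 3 + b 10) (s34 : (7 : ℤ) ∣ b 6 + b 9)
    (v : Fin 5 → A) : nf5 b m v = 0 := by
  unfold nf5
  generalize v 0 = a0
  generalize v 1 = a1
  generalize v 2 = a2
  generalize v 3 = a3
  generalize v 4 = a4
  rw [smul_congr h7 (n := b 0) (k := - b 2 - b 1) (by omega),
    smul_congr h7 (n := b 5) (k := - b 2) (by omega),
    smul_congr h7 (n := b 8) (k := - b 1) (by omega),
    smul_congr h7 (n := b 11) (k := b 2 + b 1) (by omega),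
    smul_congr h7 (n := b 3) (k := b 2 - b 4) (by omega),
    smul_congr h7 (n := b 7) (k := - b 4) (by omega),
    smul_congr h7 (n := b 10) (k := b 4 - b 2) (by omega),
    smul_congr h7 (n := b 6) (k := b 4 + b 1) (by omega),
    smul_congr h7 (n := b 9) (k := - b 4 - b 1) (by omega)]
  have c1 := pf5 hm h7 a0 a1 a2 a4 a3
  have c2 := pf5 hm h7 a0 a1 a3 a4 a2
  have c3 := pf5 hm h7 a0 a2 a3 a4 a1
  rw [hm.sym a0 a1 a3 a2 a4, hm.sym a0 a2 a3 a1 a4, hm.sym a0 a4 a3 a2 a1,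
    hm.sym a0 a4 a3 a1 a2] at c1
  rw [hm.sym a0 a3 a2 a1 a4, hm.sym a0 a4 a2 a1 a3] at c2
  linear_combination (norm := module) b 2 • c1 + b 1 • c2 + b 4 • c3


end van

end Pool.Agent.helper3
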