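import Mathlib
import Pool.Agent.helper3.Polar
import Pool.Agent.helper3.Van
import Pool.Agent.helper3.Grp

/-! Words vanishing on the two-generator groups of the variety. -/

namespace Pool.Agent.helper3

open Subgroup
open scoped commutatorElement IsMulCommutative

section uu

/-- the verbal subgroup generated by seventh powers of elements of `G'`, commutators of
elements of `G'` and the fifth term of the lower central series -/
def uu (G : Type) [Group G] : Subgroup G :=
  closure ({z | ∃ a ∈ gam G 1, a ^ 7 = z} ∪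
    {z | ∃ a ∈ gam G 1, ∃ b ∈ gam G 1, ⁅a, b⁆ = z}) ⊔ gam G 4

variable {G H K L : Type} [Group G] [Group H] [Group K] [Group L]

theorem inV_iff : InV K ↔ uu K ≤ center K := by
  constructor
  · intro h
    refine sup_le ?_ ?_
    · rw [closure_le]
      rintro z (⟨a, ha, rfl⟩ | ⟨a, ha, b, hb, rfl⟩)
      · exact h.pow a ha
      · exact h.ccen a ha b hb
    · have := h.nil
      rw [gam_succ, commutator_top_right_eq_bot_iff_le_center] at this
      exact this
  · intro h
    refine ⟨?_, ?_, ?_⟩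
    · intro a ha
      exact h (mem_sup_left (subset_closure (Or.inl ⟨a, ha, rfl⟩)))
    · intro a ha b hb
      exact h (mem_sup_left (subset_closure (Or.inr ⟨a, ha, b, hb, rfl⟩)))
    · rw [gam_succ, commutator_top_right_eq_bot_iff_le_center]
      exact le_trans le_sup_right h

theorem uu_map (f : G →* H) : (uu G).map f ≤ uu H := by
  rw [map_le_iff_le_comap]
  refine sup_le ?_ ?_
  · rw [closure_le]
    rintro z (⟨a, ha, rfl⟩ | ⟨a, ha, b, hb, rfl⟩)
    · refine mem_sup_left (subset_closure (Or.inl ⟨f a, map_mem_gam f ha, ?_⟩))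
      rw [map_pow]
    · refine mem_sup_left (subset_closure (Or.inr ⟨f a, map_mem_gam f ha, f b,
        map_mem_gam f hb, ?_⟩))
      rw [map_commutatorElement]
  · intro z hz
    exact mem_sup_right (map_mem_gam f hz)

theorem exists_gam_of_surj (f : G →* H) (hf : Function.Surjective f) {n : ℕ} {x : H}
    (hx : x ∈ gam H n) : ∃ y ∈ gam G n, f y = x := by
  have : (gam G n).map f = gam H n := by
    rw [map_lowerCentralSeries, map_top_of_surjective f hf]
  rw [← this] at hx
  exact hx

theorem uu_surj (f : G →* H) (hf : Function.Surjective f) : uu H ≤ (uu G).map f := by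
  refine sup_le ?_ ?_
  · rw [closure_le]
    rintro z (⟨a, ha, rfl⟩ | ⟨a, ha, b, hb, rfl⟩)
    · obtain ⟨a', ha', rfl⟩ := exists_gam_of_surj f hf ha
      exact ⟨a' ^ 7, mem_sup_left (subset_closure (Or.inl ⟨a', ha', rfl⟩)), map_pow _ _ _⟩
    · obtain ⟨a', ha', rfl⟩ := exists_gam_of_surj f hf ha
      obtain ⟨b', hb', rfl⟩ := exists_gam_of_surj f hf hb
      exact ⟨⁅a', b'⁆, mem_sup_left (subset_closure (Or.inr ⟨a', ha', b', hb', rfl⟩)),
        map_commutatorElement _ _ _⟩
  · intro z hz
    obtain ⟨z', hz', rfl⟩ := exists_gam_of_surj f hf hz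
    exact ⟨z', mem_sup_right hz', rfl⟩

theorem inV_of_surj (f : G →* H) (hf : Function.Surjective f)
    (h : ∀ z ∈ ⁅uu G, (⊤ : Subgroup G)⁆, f z = 1) : InV H := by
  rw [inV_iff]
  intro x hx
  obtain ⟨y, hy, rfl⟩ := uu_surj f hf hx
  rw [mem_center_iff]
  intro g
  obtain ⟨g', rfl⟩ := hf g
  have h1 := h ⁅y, g'⁆ (commutator_mem_commutator hy (mem_top g'))
  rw [map_commutatorElement, commutatorElement_eq_one_iff_mul_comm] at h1
  exact h1.symm

theorem InV.kill (hK : InV K) (f : G →* K) {z : G} (hz : z ∈ ⁅uu G, (⊤ : Subgroup G)⁆) :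
    f z = 1 := by
  have h1 : f z ∈ (⁅uu G, (⊤ : Subgroup G)⁆).map f := mem_map_of_mem f hz
  rw [map_commutator] at h1
  have h2 : ⁅(uu G).map f, (⊤ : Subgroup G).map f⁆ ≤ ⁅uu K, (⊤ : Subgroup K)⁆ :=
    commutator_mono (uu_map f) le_top
  have h3 : ⁅uu K, (⊤ : Subgroup K)⁆ = ⊥ := by
    rw [commutator_top_right_eq_bot_iff_le_center]
    exact inV_iff.mp hK
  have h4 := h2 h1
  rw [h3] at h4
  exact mem_bot.mp h4

theorem InV.surj (hK : InV K) (f : K →* L) (hf : Function.Surjective f) : InV L :=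
  inV_of_surj f hf (fun z hz => by
    have : z = 1 := hK.kill (MonoidHom.id K) hz
    rw [this, map_one])

theorem inV_quot (N : Subgroup G) [N.Normal] (h : ⁅uu G, (⊤ : Subgroup G)⁆ ≤ N) :
    InV (G ⧸ N) :=
  inV_of_surj (QuotientGroup.mk' N) (QuotientGroup.mk'_surjective N) (fun z hz => by
    rw [QuotientGroup.mk'_apply, QuotientGroup.eq_one_iff]
    exact h hz)

instance uu_normal : (uu G).Normal := by
  constructor
  intro z hz g
  have : uu G ≤ uu G := le_rfl
  have h1 := uu_map (MulAut.conj g).toMonoidHom (mem_map_of_mem _ hz)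
  simpa using h1

end uu

section good

/-- `w` vanishes on all two-generated subgroups of groups `K` with `InV K` -/
def Good {α : Type} (w : FreeGroup α) : Prop :=
  ∀ (K : Type) [Group K], InV K → ∀ (x y : K) (h : α → K),
    (∀ i, h i ∈ closure ({x, y} : Set K)) → FreeGroup.lift h w = 1

variable {α β : Type}

theorem Good.one : Good (1 : FreeGroup α) := fun _ _ _ _ _ _ _ => map_one _

theorem Good.mul {u w : FreeGroup α} (hu : Good u) (hw : Good w) : Good (u * w) := by
  intro K _ hK x y h hh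
  rw [map_mul, hu K hK x y h hh, hw K hK x y h hh, mul_one]

theorem Good.zpow {u : FreeGroup α} (hu : Good u) (n : ℤ) : Good (u ^ n) := by
  intro K _ hK x y h hh
  rw [map_zpow, hu K hK x y h hh, one_zpow]

theorem Good.prod (l : List (FreeGroup α)) (hl : ∀ w ∈ l, Good w) : Good l.prod := by
  induction l with
  | nil => exact Good.one
  | cons a l ih =>
    rw [List.prod_cons]
    exact (hl a (by simp)).mul (ih (fun w hw => hl w (by simp [hw])))

theorem lift_mem {K : Type} [Group K] (H : Subgroup K) (h : α → K) (hh : ∀ i, h i ∈ H)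
    (w : FreeGroup α) : FreeGroup.lift h w ∈ H := by
  induction w with
  | C1 => simp
  | of i => simpa using hh i
  | inv_of i ih => rw [map_inv]; exact inv_mem ih
  | mul a b ha hb => rw [map_mul]; exact mul_mem ha hb

theorem Good.map {w : FreeGroup α} (hw : Good w) (f : FreeGroup α →* FreeGroup β) :
    Good (f w) := by
  intro K _ hK x y h hh
  have e : FreeGroup.lift h (f w) =
      FreeGroup.lift (fun i => FreeGroup.lift h (f (FreeGroup.of i))) w := by
    have : (FreeGroup.lift h).comp f =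
        FreeGroup.lift (fun i => FreeGroup.lift h (f (FreeGroup.of i))) := by
      ext i; simp
    exact DFunLike.congr_fun this w
  rw [e]
  exact hw K hK x y _ (fun i => lift_mem _ h hh _)

end good

section hS

variable {α K L : Type} [Group K] [Group L] [DecidableEq α]

/-- polarized substitution -/
def hS {n : ℕ} (J : Fin n → α) (v : Fin n → K) (S : Finset (Fin n)) (i : α) : K :=
  (List.ofFn fun a => if a ∈ S ∧ J a = i then v a else 1).prod

theorem map_hS {n : ℕ} (f : K →* L) (J : Fin n → α) (v : Fin n → K) (S : Finset (Fin n))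
    (i : α) : f (hS J v S i) = hS J (fun a => f (v a)) S i := by
  unfold hS
  rw [map_list_prod, List.map_ofFn]
  congr 2
  funext a
  simp only [Function.comp]
  split_ifs <;> simp

theorem hS_mem {n : ℕ} (H : Subgroup K) (J : Fin n → α) (v : Fin n → K) (hv : ∀ a, v a ∈ H)
    (S : Finset (Fin n)) (i : α) : hS J v S i ∈ H := by
  unfold hS
  apply list_prod_mem
  intro x hx
  rw [List.mem_ofFn] at hx
  obtain ⟨a, rfl⟩ := hx
  split_ifs
  · exact hv a
  · exact one_mem _

theorem ab_hS {n : ℕ} (J : Fin n → α) (v : Fin n → K) (S : Finset (Fin n)) (i : α) :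
    ab (hS J v S i) = ∑ a ∈ S.filter (fun a => J a = i), ab (v a) := by
  unfold hS ab
  rw [map_list_prod, List.map_ofFn, List.prod_ofFn, ofMul_prod]
  rw [Finset.sum_filter]
  rw [← Finset.sum_filter_add_sum_filter_not Finset.univ (fun a => a ∈ S)]
  have h1 : ∑ a ∈ Finset.univ.filter (fun a => ¬ a ∈ S), Additive.ofMul
      ((⇑Abelianization.of ∘ fun a => if a ∈ S ∧ J a = i then v a else 1) a) = 0 := by
    apply Finset.sum_eq_zero
    intro a ha
    have : a ∉ S := by simpa using ha
    simp [this]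
  rw [h1, add_zero]
  have h2 : Finset.univ.filter (fun a => a ∈ S) = S := by ext; simp
  rw [h2]
  apply Finset.sum_congr rfl
  intro a ha
  simp only [Function.comp, ha, true_and]
  split_ifs <;> simp

end hS

section stage

variable {α : Type} [Fintype α] [DecidableEq α]

/-- coefficient function valid for groups in the variety -/
def IsCoeffV (n : ℕ) (w : FreeGroup α) (T : (Fin (n + 1) → α) → ℤ) : Prop :=
  ∀ (K : Type) [Group K] (_ : InV K) (h : gam K (n + 1) = ⊥) (x : α → K),
    ∃ hc : FreeGroup.lift x w ∈ center K,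
      cE (FreeGroup.lift x w) hc = ∑ I, T I • ml n h (fun k => ab (x (I k)))

/-- `w` vanishes on all groups of the variety of class at most `n` -/
def Vanish (n : ℕ) (w : FreeGroup α) : Prop :=
  ∀ (K : Type) [Group K], InV K → gam K n = ⊥ → ∀ x : α → K, FreeGroup.lift x w = 1

omit [Fintype α] [DecidableEq α] in
theorem lift_of_apply {K : Type} [Group K] (f : FreeGroup α →* K) (w : FreeGroup α) :
    FreeGroup.lift (fun i => f (FreeGroup.of i)) w = f w := by
  have : FreeGroup.lift (fun i => f (FreeGroup.of i)) = f := by ext; simp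
  rw [this]

omit [Fintype α] [DecidableEq α] in
theorem Vanish.mem {n : ℕ} {w : FreeGroup α} (hw : Vanish n w) :
    w ∈ ⁅uu (FreeGroup α), (⊤ : Subgroup (FreeGroup α))⁆ ⊔ gam (FreeGroup α) n := by
  set N := ⁅uu (FreeGroup α), (⊤ : Subgroup (FreeGroup α))⁆ ⊔ gam (FreeGroup α) n with hN
  have hK : InV (FreeGroup α ⧸ N) := inV_quot N le_sup_left
  have hg : gam (FreeGroup α ⧸ N) n = ⊥ := by
    rw [eq_bot_iff]
    intro x hx
    obtain ⟨y, hy, rfl⟩ := exists_gam_of_surj (QuotientGroup.mk' N)
      (QuotientGroup.mk'_surjective N) hx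
    rw [mem_bot, QuotientGroup.mk'_apply, QuotientGroup.eq_one_iff]
    exact mem_sup_right hy
  have := hw _ hK hg (fun i => QuotientGroup.mk' N (FreeGroup.of i))
  have e : FreeGroup.lift (fun i => QuotientGroup.mk' N (FreeGroup.of i)) w =
      QuotientGroup.mk' N w := by
    have : FreeGroup.lift (fun i => QuotientGroup.mk' N (FreeGroup.of i)) =
      QuotientGroup.mk' N := by ext; simp
    rw [this]
  rw [e, QuotientGroup.mk'_apply, QuotientGroup.eq_one_iff] at this
  exact this

theorem Vanish.exists_coeffV {n : ℕ} {w : FreeGroup α} (hw : Vanish n w) :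
    ∃ T, IsCoeffV n w T := by
  obtain ⟨u, hu, g, hg, rfl⟩ := mem_sup_of_normal_right.mp hw.mem
  obtain ⟨T, hT⟩ := exists_coeff n g hg
  refine ⟨T, ?_⟩
  intro K _ hK h x
  obtain ⟨hc, he⟩ := hT K h x
  have e : FreeGroup.lift x (u * g) = FreeGroup.lift x g := by
    rw [map_mul, hK.kill (FreeGroup.lift x) hu, one_mul]
  refine ⟨by rw [e]; exact hc, ?_⟩
  rw [← he]
  exact cE_eq _ _ e

theorem ml_tors {K : Type} [Group K] (hK : InV K) {n : ℕ} (hn : 2 ≤ n)
    (h : gam K (n + 1) = ⊥) (v : Fin (n + 1) → K) :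
    (7 : ℤ) • ml n h (fun k => ab (v k)) = 0 := by
  rw [ml_apply]
  apply Additive.toMul.injective
  apply Subtype.ext
  have : lc n v ^ 7 = 1 := hK.pow_gam2 (mem_gam_of_le hn (lc_mem n v))
  have e : (7 : ℤ) = ((7 : ℕ) : ℤ) := rfl
  rw [e, natCast_zsmul]
  exact this

theorem IsCoeffV.pol {n : ℕ} {w : FreeGroup α} {T : (Fin (n + 1) → α) → ℤ}
    (hT : IsCoeffV n w T) {K : Type} [Group K] (hK : InV K) (h : gam K (n + 1) = ⊥)
    (J : Fin (n + 1) → α) (v : Fin (n + 1) → K)
    (hc : ∀ S : Finset (Fin (n + 1)), FreeGroup.lift (hS J v S) w ∈ center K) :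
    ∑ π : Equiv.Perm (Fin (n + 1)), T (fun k => J (π k)) • ml n h (fun k => ab (v (π k))) =
      ∑ S : Finset (Fin (n + 1)), (-1 : ℤ) ^ (n + 1 - S.card) •
        cE (FreeGroup.lift (hS J v S) w) (hc S) := by
  have := polarize (ml n h) T J (fun a => ab (v a))
  rw [← this]
  apply Finset.sum_congr rfl
  intro S _
  congr 1
  obtain ⟨hc', he⟩ := hT K hK h (hS J v S)
  rw [he]
  apply Finset.sum_congr rfl
  intro I _
  congr 2
  funext k
  rw [ab_hS]

theorem pol_good {n : ℕ} {w : FreeGroup α} {T : (Fin (n + 1) → α) → ℤ} (hw : Good w)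
    (hT : IsCoeffV n w T) {K : Type} [Group K] (hK : InV K) (h : gam K (n + 1) = ⊥)
    (J : Fin (n + 1) → α) (v : Fin (n + 1) → K) (x y : K)
    (hv : ∀ a, v a ∈ closure ({x, y} : Set K)) :
    ∑ π : Equiv.Perm (Fin (n + 1)), T (fun k => J (π k)) • ml n h (fun k => ab (v (π k))) = 0 := by
  have h1 : ∀ S, FreeGroup.lift (hS J v S) w = 1 := fun S =>
    hw K hK x y _ (fun i => hS_mem _ J v hv S i)
  rw [hT.pol hK h J v (fun S => by rw [h1]; exact one_mem _)]
  apply Finset.sum_eq_zero
  intro S _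
  rw [cE_zero _ (h1 S), smul_zero]

theorem coprime_zero {B : Type*} [AddCommGroup B] {c : B} {k : ℤ} (hk : IsCoprime 7 k)
    (h7 : (7 : ℤ) • c = 0) (hk0 : k • c = 0) : c = 0 := by
  obtain ⟨a, b, hab⟩ := hk
  have : c = (1 : ℤ) • c := (one_smul ℤ c).symm
  rw [this, ← hab, add_smul, mul_smul, mul_smul, h7, hk0]
  simp

theorem IsCoeffV.finish {n : ℕ} {w : FreeGroup α} {T : (Fin (n + 1) → α) → ℤ}
    (hT : IsCoeffV n w T) (hn : 2 ≤ n) (hn4 : n ≤ 4) {K : Type} [Group K] (hK : InV K)
    (h : gam K (n + 1) = ⊥)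
    (hJ : ∀ (J : Fin (n + 1) → α) (v : Fin (n + 1) → K), ∑ π : Equiv.Perm (Fin (n + 1)),
      T (fun k => J (π k)) • ml n h (fun k => ab (v (π k))) = 0) (x : α → K) :
    FreeGroup.lift x w = 1 := by
  obtain ⟨hc, he⟩ := hT K hK h x
  have h1 := sum_perm_eq (ml n h) T (fun i => ab (x i))
  have h2 : ∑ J : Fin (n + 1) → α, ∑ π : Equiv.Perm (Fin (n + 1)),
      T (fun k => J (π k)) • ml n h (fun k => ab (x (J (π k)))) = 0 := by
    apply Finset.sum_eq_zero
    intro J _
    exact hJ J (fun a => x (J a))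
  rw [h2, ← he] at h1
  have h7 : (7 : ℤ) • cE (FreeGroup.lift x w) hc = 0 := by
    rw [he, Finset.smul_sum]
    apply Finset.sum_eq_zero
    intro I _
    rw [smul_comm, ml_tors hK hn h (fun k => x (I k)), smul_zero]
  have hcop : IsCoprime (7 : ℤ) ((n + 1).factorial : ℤ) := by
    have : n = 2 ∨ n = 3 ∨ n = 4 := by omega
    rcases this with rfl | rfl | rfl
    · exact ⟨1, -1, by decide⟩
    · exact ⟨7, -2, by decide⟩
    · exact ⟨-17, 1, by decide⟩
  have h3 := coprime_zero hcop h7 h1.symm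
  have h4 := congrArg (fun z : Additive (center K) => ((Additive.toMul z : center K) : K)) h3
  exact h4

end stage

end Pool.Agent.helper3
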