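import Mathlib
import Pool.Agent.helper3.Good

/-! Evaluations in the two explicit groups. -/

namespace Pool.Agent.helper3

open Subgroup
open scoped commutatorElement IsMulCommutative

theorem GG.eval4 : (⁅⁅⁅GG.x, GG.y⁆, GG.x⁆, GG.x⁆).d ≠ 0 := by decide

theorem GG.eval5 : ⁅⁅⁅⁅GG.x, GG.y⁆, GG.x⁆, GG.x⁆, GG.x⁆ ≠ 1 := by decide

theorem HH.eval4 : ⁅⁅HH.y, HH.x⁆, ⁅HH.x, ⁅HH.x, HH.y⁆⁆⁆ ≠ 1 := by decide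

theorem HH.eval5 : ⁅⁅⁅⁅HH.x, HH.y⁆, HH.x⁆, HH.x⁆, HH.y⁆ *
    (⁅⁅⁅⁅HH.x, HH.y⁆, HH.x⁆, HH.y⁆, HH.x⁆)⁻¹ ≠ 1 := by decide

end Pool.Agent.helper3
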