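import Mathlib
import Pool.Agent.helper3.Eval

/-! The stages of the induction on the class. -/

namespace Pool.Agent.helper3

open Subgroup
open scoped commutatorElement IsMulCommutative

section detect

theorem detect {B : Type*} [AddCommGroup B] {q : B} (h7 : (7 : ℤ) • q = 0) (hq : q ≠ 0)
    {κ : ℤ} (h : κ • q = 0) : (7 : ℤ) ∣ κ := by
  by_contra hcon
  apply hq
  apply coprime_zero (k := κ) _ h7 h
  rw [Int.isCoprime_iff_gcd_eq_one]
  have h1 : Nat.Coprime 7 κ.natAbs := by
    rw [Nat.Prime.coprime_iff_not_dvd (by norm_num)]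
    intro h2
    apply hcon
    exact Int.natCast_dvd.mpr h2
  exact h1

end detect

section tor

variable {A B : Type} [AddCommGroup A] [AddCommGroup B]

/-- the elements killed by seven -/
def tor (B : Type) [AddCommGroup B] : AddSubgroup B where
  carrier := {b | (7 : ℤ) • b = 0}
  zero_mem' := by simp
  add_mem' := by
    intro a b ha hb
    have ha' : (7 : ℤ) • a = 0 := ha
    have hb' : (7 : ℤ) • b = 0 := hb
    change (7 : ℤ) • (a + b) = 0
    rw [smul_add, ha', hb', add_zero]
  neg_mem' := by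
    intro a ha
    have ha' : (7 : ℤ) • a = 0 := ha
    change (7 : ℤ) • (- a) = 0
    rw [smul_neg, ha', neg_zero]

theorem tor_seven (b : tor B) : (7 : ℤ) • b = 0 := by
  apply Subtype.ext
  exact b.2

theorem van3' {m : A → A → A → B} (hm : Sys3 m) (h7 : ∀ a b c, (7 : ℤ) • m a b c = 0)
    (b : Fin 2 → ℤ) (h1 : ∀ x y, nf3 b m ![x, y, x] = 0) (h2 : ∀ x y, nf3 b m ![x, x, y] = 0)
    (v : Fin 3 → A) : nf3 b m v = 0 := by
  let m' : A → A → A → tor B := fun a b c => ⟨m a b c, h7 a b c⟩
  have hm' : Sys3 m' :=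
    { add1 := fun a a' b c => Subtype.ext (hm.add1 a a' b c)
      add2 := fun a b b' c => Subtype.ext (hm.add2 a b b' c)
      add3 := fun a b c c' => Subtype.ext (hm.add3 a b c c')
      alt := fun a c => Subtype.ext (hm.alt a c)
      jac := fun a b c => Subtype.ext (hm.jac a b c) }
  have hn : ∀ v, ((nf3 b m' v : tor B) : B) = nf3 b m v := fun v => rfl
  have := van3 hm' tor_seven b (fun x y => Subtype.ext ((hn _).trans (h1 x y)))
    (fun x y => Subtype.ext ((hn _).trans (h2 x y))) v
  rw [← hn, this]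
  rfl

omit [AddCommGroup A] in
theorem van4' {m : A → A → A → A → B} (h7 : ∀ a b c d, (7 : ℤ) • m a b c d = 0)
    (b : Fin 6 → ℤ) (hb : ∀ i, (7 : ℤ) ∣ b i) (v : Fin 4 → A) : nf4 b m v = 0 := by
  let m' : A → A → A → A → tor B := fun a b c d => ⟨m a b c d, h7 a b c d⟩
  have hn : ∀ v, ((nf4 b m' v : tor B) : B) = nf4 b m v := fun v => rfl
  have := van4 (m := m') tor_seven b hb v
  rw [← hn, this]
  rfl

theorem van5' {m : A → A → A → A → A → B} (hm : Sys5 m)
    (h7 : ∀ a b c d e, (7 : ℤ) • m a b c d e = 0)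
    (b : Fin 12 → ℤ)
    (r1 : (7 : ℤ) ∣ b 0 + b 1 + b 2) (r2 : (7 : ℤ) ∣ b 3 + b 4 + b 5)
    (r3 : (7 : ℤ) ∣ b 6 + b 7 + b 8) (r4 : (7 : ℤ) ∣ b 9 + b 10 + b 11)
    (s12 : (7 : ℤ) ∣ b 2 + b 5) (s13 : (7 : ℤ) ∣ b 1 + b 8) (s14 : (7 : ℤ) ∣ b 0 + b 11)
    (s23 : (7 : ℤ) ∣ b 4 + b 7) (s24 : (7 : ℤ) ∣ b 3 + b 10) (s34 : (7 : ℤ) ∣ b 6 + b 9)
    (v : Fin 5 → A) : nf5 b m v = 0 := by
  let m' : A → A → A → A → A → tor B := fun a b c d e => ⟨m a b c d e, h7 a b c d e⟩
  have hm' : Sys5 m' :=
    { add1 := fun a a' b c d e => Subtype.ext (hm.add1 a a' b c d e)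
      add2 := fun a b b' c d e => Subtype.ext (hm.add2 a b b' c d e)
      add3 := fun a b c c' d e => Subtype.ext (hm.add3 a b c c' d e)
      add4 := fun a b c d d' e => Subtype.ext (hm.add4 a b c d d' e)
      add5 := fun a b c d e e' => Subtype.ext (hm.add5 a b c d e e')
      alt := fun a c d e => Subtype.ext (hm.alt a c d e)
      jac := fun a b c d e => Subtype.ext (hm.jac a b c d e)
      sym := fun a b c d e => Subtype.ext (hm.sym a b c d e)
      quad := fun a b c d e => Subtype.ext (hm.quad a b c d e) }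
  have hn : ∀ v, ((nf5 b m' v : tor B) : B) = nf5 b m v := fun v => rfl
  have := van5 hm' tor_seven b r1 r2 r3 r4 s12 s13 s14 s23 s24 s34 v
  rw [← hn, this]
  rfl

end tor

section stages

variable {α : Type} [Fintype α] [DecidableEq α]

/-- Stage 0 -/
theorem stage0 {w : FreeGroup α} (hw : Good w) : Vanish 1 w := by
  obtain ⟨d, hd⟩ := exists_deg w
  have hZ : InV (Multiplicative ℤ) := by
    have hb : gam (Multiplicative ℤ) 1 = ⊥ := by
      rw [gam_succ, commutator_top_right_eq_bot_iff_le_center]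
      rw [CommGroup.center_eq_top]
      exact le_top
    refine ⟨?_, ?_, ?_⟩
    · intro a ha
      rw [CommGroup.center_eq_top]; trivial
    · intro a ha b hb
      rw [CommGroup.center_eq_top]; trivial
    · exact gam_eq_bot_of_le hb (by norm_num)
  have hd0 : ∀ i, d i = 0 := by
    intro i
    let h : α → Multiplicative ℤ := fun j => if j = i then Multiplicative.ofAdd 1 else 1
    have h1 := hw (Multiplicative ℤ) hZ (Multiplicative.ofAdd 1) 1 h (by
      intro j
      simp only [h]
      split_ifs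
      · exact subset_closure (by simp)
      · exact one_mem _)
    have h2 := hd (Multiplicative ℤ) h
    rw [h1, ab_one] at h2
    have h3 : ∑ j, d j • ab (h j) = d i • ab (Multiplicative.ofAdd (1 : ℤ)) := by
      rw [Finset.sum_eq_single i]
      · simp [h]
      · intro j _ hj
        simp only [h, hj, if_false]
        rw [ab_one, smul_zero]
      · simp
    rw [h3] at h2
    have h4 : Abelianization.of ((Multiplicative.ofAdd (1 : ℤ)) ^ (d i)) = 1 := by
      rw [map_zpow]
      exact h2.symm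
    have h5 : (MonoidHom.id (Multiplicative ℤ)) ((Multiplicative.ofAdd (1 : ℤ)) ^ (d i)) =
        Abelianization.lift (MonoidHom.id (Multiplicative ℤ)) 1 := by
      rw [← h4, Abelianization.lift_apply_of]
    have h6 : (Multiplicative.ofAdd (1 : ℤ)) ^ (d i) = 1 :=
      h5.trans (MonoidHom.map_one _)
    have h7 := congrArg Multiplicative.toAdd h6
    rw [toAdd_zpow, toAdd_ofAdd, toAdd_one] at h7
    simpa using h7
  intro K _ hK hb x
  have h1 := hd K x
  have h2 : ab (FreeGroup.lift x w) = 0 := by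
    rw [h1]
    apply Finset.sum_eq_zero
    intro i _
    rw [hd0, zero_smul]
  have h3 : Abelianization.of (FreeGroup.lift x w) = 1 := h2
  have h4 : FreeGroup.lift x w ∈ commutator K := by
    rw [← Abelianization.ker_of]
    exact h3
  have h5 : commutator K = gam K 1 := rfl
  rw [h5, hb] at h4
  exact mem_bot.mp h4

/-- Stage 1 -/
theorem stage1 {w : FreeGroup α} (hw : Good w) (hv : Vanish 1 w) : Vanish 2 w := by
  obtain ⟨T, hT⟩ := hv.exists_coeffV
  intro K _ hK h x
  obtain ⟨hc, he⟩ := hT K hK h x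
  have h0 : ∑ I : Fin 2 → α, T I • ml 1 h (fun k => ab (x (I k))) = 0 := by
    apply Finset.sum_involution (fun I _ => fun k => I (Equiv.swap (0 : Fin 2) 1 k))
    · intro I _
      have h1 := pol_good hw hT hK h I (fun k => x (I k)) (x (I 0)) (x (I 1)) (by
        intro a
        fin_cases a
        · exact subset_closure (by simp)
        · exact subset_closure (by simp))
      have h2 : (Finset.univ : Finset (Equiv.Perm (Fin 2))) = {1, Equiv.swap 0 1} := by decide
      rw [h2, Finset.sum_pair (by decide)] at h1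
      exact h1
    · intro I _ hne heq
      apply hne
      have h3 : I 1 = I 0 := by
        have := congrFun heq 0
        simpa using this
      have h4 : ml 1 h (fun k => ab (x (I k))) = 0 := by
        rw [ml_apply]
        apply Additive.toMul.injective
        apply Subtype.ext
        change lc 1 (fun k => x (I k)) = 1
        change ⁅x (I 0), x (I 1)⁆ = 1
        rw [h3]; simp
      rw [h4, smul_zero]
    · intro I _; exact Finset.mem_univ _
    · intro I _
      funext k
      simp
  rw [h0] at he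
  have h4 := congrArg (fun z : Additive (center K) => ((Additive.toMul z : center K) : K)) he
  exact h4

theorem ml3_eq {K : Type} [Group K] (h : gam K 3 = ⊥) (u : Fin 3 → Additive (Abelianization K)) :
    ml 2 h u = m3 h (u 0) (u 1) (u 2) := by
  unfold m3
  congr 1
  funext i; fin_cases i <;> rfl

theorem ml4_eq {K : Type} [Group K] (h : gam K 4 = ⊥) (u : Fin 4 → Additive (Abelianization K)) :
    ml 3 h u = m4 h (u 0) (u 1) (u 2) (u 3) := by
  unfold m4
  congr 1
  funext i; fin_cases i <;> rfl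

theorem ml5_eq {K : Type} [Group K] (h : gam K 5 = ⊥) (u : Fin 5 → Additive (Abelianization K)) :
    ml 4 h u = m5 h (u 0) (u 1) (u 2) (u 3) (u 4) := by
  unfold m5
  congr 1
  funext i; fin_cases i <;> rfl

theorem m3_tors {K : Type} [Group K] (hK : InV K) (h : gam K 3 = ⊥)
    (a b c : Additive (Abelianization K)) : (7 : ℤ) • m3 h a b c = 0 := by
  obtain ⟨x, rfl⟩ := ab_surj a
  obtain ⟨y, rfl⟩ := ab_surj b
  obtain ⟨z, rfl⟩ := ab_surj c
  have := ml_tors hK (n := 2) le_rfl h ![x, y, z]
  rw [ml3_eq] at this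
  exact this

theorem m4_tors {K : Type} [Group K] (hK : InV K) (h : gam K 4 = ⊥)
    (a b c d : Additive (Abelianization K)) : (7 : ℤ) • m4 h a b c d = 0 := by
  obtain ⟨x, rfl⟩ := ab_surj a
  obtain ⟨y, rfl⟩ := ab_surj b
  obtain ⟨z, rfl⟩ := ab_surj c
  obtain ⟨t, rfl⟩ := ab_surj d
  have := ml_tors hK (n := 3) (by norm_num) h ![x, y, z, t]
  rw [ml4_eq] at this
  exact this

theorem m5_tors {K : Type} [Group K] (hK : InV K) (h : gam K 5 = ⊥)
    (a b c d e : Additive (Abelianization K)) : (7 : ℤ) • m5 h a b c d e = 0 := by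
  obtain ⟨x, rfl⟩ := ab_surj a
  obtain ⟨y, rfl⟩ := ab_surj b
  obtain ⟨z, rfl⟩ := ab_surj c
  obtain ⟨t, rfl⟩ := ab_surj d
  obtain ⟨u, rfl⟩ := ab_surj e
  have := ml_tors hK (n := 4) (by norm_num) h ![x, y, z, t, u]
  rw [ml5_eq] at this
  exact this

/-- Stage 2 -/
theorem stage2 {w : FreeGroup α} (hw : Good w) (hv : Vanish 2 w) : Vanish 3 w := by
  obtain ⟨T, hT⟩ := hv.exists_coeffV
  intro K _ hK h x
  apply hT.finish le_rfl (by norm_num) hK h _ x
  intro J v
  obtain ⟨b, hb⟩ := nf3_sum (fun π => T (fun k => J (π k)))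
  have key : ∀ v : Fin 3 → K, ∑ π : Equiv.Perm (Fin 3),
      T (fun k => J (π k)) • ml 2 h (fun k => ab (v (π k))) =
      nf3 b (m3 h) (fun k => ab (v k)) := by
    intro v
    rw [← hb _ _ (m3 h) (sys3 h)]
    apply Finset.sum_congr rfl
    intro π _
    rw [ml3_eq]
  rw [key]
  apply van3' (sys3 h) (m3_tors hK h)
  · intro x y
    obtain ⟨x, rfl⟩ := ab_surj x
    obtain ⟨y, rfl⟩ := ab_surj y
    have h1 := pol_good hw hT hK h J ![x, y, x] x y (by
      intro a
      fin_cases a
      · exact subset_closure (by simp)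
      · exact subset_closure (by simp)
      · exact subset_closure (by simp))
    rw [key] at h1
    exact h1
  · intro x y
    obtain ⟨x, rfl⟩ := ab_surj x
    obtain ⟨y, rfl⟩ := ab_surj y
    have h1 := pol_good hw hT hK h J ![x, x, y] x y (by
      intro a
      fin_cases a
      · exact subset_closure (by simp)
      · exact subset_closure (by simp)
      · exact subset_closure (by simp))
    rw [key] at h1
    exact h1

end stages

end Pool.Agent.helper3
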