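import Mathlib
import Pool.Agent.helper3.Stage

/-! The last stage of the induction on the class. -/

namespace Pool.Agent.helper3

open Subgroup
open scoped commutatorElement IsMulCommutative

section patterns

variable {A B : Type} [AddCommGroup A] [AddCommGroup B] {m : A → A → A → A → A → B}

theorem row1 (hm : Sys5 m) (b : Fin 12 → ℤ) (x y : A) :
    nf5 b m ![x, y, x, x, x] = (b 0 + b 1 + b 2) • m x y x x x := by
  simp only [nf5, Matrix.cons_val, hm.alt, smul_zero, add_zero]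
  module

theorem row2 (hm : Sys5 m) (b : Fin 12 → ℤ) (x y : A) :
    nf5 b m ![x, x, y, x, x] = (b 3 + b 4 + b 5) • m x y x x x := by
  simp only [nf5, Matrix.cons_val, hm.alt, smul_zero, add_zero, zero_add]
  module

theorem row3 (hm : Sys5 m) (b : Fin 12 → ℤ) (x y : A) :
    nf5 b m ![x, x, x, y, x] = (b 6 + b 7 + b 8) • m x y x x x := by
  simp only [nf5, Matrix.cons_val, hm.alt, smul_zero, add_zero, zero_add]
  module

theorem row4 (hm : Sys5 m) (b : Fin 12 → ℤ) (x y : A) :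
    nf5 b m ![x, x, x, x, y] = (b 9 + b 10 + b 11) • m x y x x x := by
  simp only [nf5, Matrix.cons_val, hm.alt, smul_zero, add_zero, zero_add]
  module

theorem two12 (hm : Sys5 m) (b : Fin 12 → ℤ) (x y : A) :
    nf5 b m ![x, y, y, x, x] = (b 2 + b 5) • (m x y x x y - m x y x y x) +
      ((b 0 + b 1 + b 2) + (b 3 + b 4 + b 5)) • m x y x y x := by
  simp only [nf5, Matrix.cons_val, hm.alt, smul_zero, add_zero, zero_add, hm.sym x y y x x]
  module

theorem two13 (hm : Sys5 m) (b : Fin 12 → ℤ) (x y : A) :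
    nf5 b m ![x, y, x, y, x] = (b 1 + b 8) • (m x y x x y - m x y x y x) +
      ((b 0 + b 1 + b 2) + (b 6 + b 7 + b 8)) • m x y x y x := by
  simp only [nf5, Matrix.cons_val, hm.alt, smul_zero, add_zero, zero_add, hm.sym x y y x x]
  module

theorem two14 (hm : Sys5 m) (b : Fin 12 → ℤ) (x y : A) :
    nf5 b m ![x, y, x, x, y] = (b 0 + b 11) • (m x y x x y - m x y x y x) +
      ((b 0 + b 1 + b 2) + (b 9 + b 10 + b 11)) • m x y x y x := by
  simp only [nf5, Matrix.cons_val, hm.alt, smul_zero, add_zero, zero_add, hm.sym x y y x x]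
  module

theorem two23 (hm : Sys5 m) (b : Fin 12 → ℤ) (x y : A) :
    nf5 b m ![x, x, y, y, x] = (b 4 + b 7) • (m x y x x y - m x y x y x) +
      ((b 3 + b 4 + b 5) + (b 6 + b 7 + b 8)) • m x y x y x := by
  simp only [nf5, Matrix.cons_val, hm.alt, smul_zero, add_zero, zero_add, hm.sym x y y x x]
  module

theorem two24 (hm : Sys5 m) (b : Fin 12 → ℤ) (x y : A) :
    nf5 b m ![x, x, y, x, y] = (b 3 + b 10) • (m x y x x y - m x y x y x) +
      ((b 3 + b 4 + b 5) + (b 9 + b 10 + b 11)) • m x y x y x := by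
  simp only [nf5, Matrix.cons_val, hm.alt, smul_zero, add_zero, zero_add, hm.sym x y y x x]
  module

theorem two34 (hm : Sys5 m) (b : Fin 12 → ℤ) (x y : A) :
    nf5 b m ![x, x, x, y, y] = (b 6 + b 9) • (m x y x x y - m x y x y x) +
      ((b 6 + b 7 + b 8) + (b 9 + b 10 + b 11)) • m x y x y x := by
  simp only [nf5, Matrix.cons_val, hm.alt, smul_zero, add_zero, zero_add, hm.sym x y y x x]
  module

end patterns

section stage4

variable {α : Type} [Fintype α] [DecidableEq α]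

theorem vec_mem {K : Type} [Group K] {n : ℕ} (x y : K) (v : Fin n → K)
    (h : ∀ a, v a = x ∨ v a = y) (a : Fin n) : v a ∈ closure ({x, y} : Set K) := by
  rcases h a with h | h <;> rw [h]
  · exact subset_closure (by simp)
  · exact subset_closure (by simp)

/-- Stage 4 -/
theorem stage4 {w : FreeGroup α} (hw : Good w) (hv : Vanish 4 w) : Vanish 5 w := by
  obtain ⟨T, hT⟩ := hv.exists_coeffV
  intro K _ hK h x
  apply hT.finish (by norm_num) le_rfl hK h _ x
  intro J v
  obtain ⟨b, hb⟩ := nf5_sum (fun π => T (fun k => J (π k)))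
  have key : ∀ (K : Type) [Group K] (hK : InV K) (v : Fin 5 → K), ∑ π : Equiv.Perm (Fin 5),
      T (fun k => J (π k)) • ml 4 hK.nil (fun k => ab (v (π k))) =
      nf5 b (m5 hK.nil) (fun k => ab (v k)) := by
    intro K _ hK v
    rw [← hb _ _ (m5 hK.nil) (sys5 hK)]
    apply Finset.sum_congr rfl
    intro π _
    rw [ml5_eq]
  have zero : ∀ (K : Type) [Group K] (hK : InV K) (x0 x1 x2 x3 x4 x y : K),
      (∀ a : Fin 5, ![x0, x1, x2, x3, x4] a = x ∨ ![x0, x1, x2, x3, x4] a = y) →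
      nf5 b (m5 hK.nil) ![ab x0, ab x1, ab x2, ab x3, ab x4] = 0 := by
    intro K _ hK x0 x1 x2 x3 x4 x y hxy
    have e : (![ab x0, ab x1, ab x2, ab x3, ab x4] : Fin 5 → Additive (Abelianization K)) =
      fun k => ab ((![x0, x1, x2, x3, x4] : Fin 5 → K) k) := by
      funext k; fin_cases k <;> rfl
    rw [e]
    exact (key K hK _).symm.trans
      (pol_good hw hT hK hK.nil J _ x y (vec_mem x y _ hxy))
  -- evaluation in `GG`
  have sG := sys5 GG.inV
  have hGt : (7 : ℤ) • m5 GG.inV.nil (ab GG.x) (ab GG.y) (ab GG.x) (ab GG.x) (ab GG.x) = 0 :=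
    m5_tors GG.inV _ _ _ _ _ _
  have hGn : m5 GG.inV.nil (ab GG.x) (ab GG.y) (ab GG.x) (ab GG.x) (ab GG.x) ≠ 0 := by
    rw [m5_apply]
    intro h0
    apply GG.eval5
    exact congrArg (fun z : Additive (center GG) => ((Additive.toMul z : center GG) : GG)) h0
  have r1 : (7 : ℤ) ∣ b 0 + b 1 + b 2 := by
    have h1 := zero GG GG.inV GG.x GG.y GG.x GG.x GG.x GG.x GG.y (by decide)
    rw [row1 sG] at h1
    exact detect hGt hGn h1
  have r2 : (7 : ℤ) ∣ b 3 + b 4 + b 5 := by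
    have h1 := zero GG GG.inV GG.x GG.x GG.y GG.x GG.x GG.x GG.y (by decide)
    rw [row2 sG] at h1
    exact detect hGt hGn h1
  have r3 : (7 : ℤ) ∣ b 6 + b 7 + b 8 := by
    have h1 := zero GG GG.inV GG.x GG.x GG.x GG.y GG.x GG.x GG.y (by decide)
    rw [row3 sG] at h1
    exact detect hGt hGn h1
  have r4 : (7 : ℤ) ∣ b 9 + b 10 + b 11 := by
    have h1 := zero GG GG.inV GG.x GG.x GG.x GG.x GG.y GG.x GG.y (by decide)
    rw [row4 sG] at h1
    exact detect hGt hGn h1
  -- evaluation in `HH`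
  have sH := sys5 HH.inV
  set q := m5 HH.inV.nil (ab HH.x) (ab HH.y) (ab HH.x) (ab HH.x) (ab HH.y) -
    m5 HH.inV.nil (ab HH.x) (ab HH.y) (ab HH.x) (ab HH.y) (ab HH.x) with hq
  have hHt : (7 : ℤ) • q = 0 := by
    rw [hq, smul_sub, m5_tors HH.inV, m5_tors HH.inV, sub_zero]
  have hHn : q ≠ 0 := by
    rw [hq, m5_apply, m5_apply, sub_eq_add_neg, cE_neg, cE_add]
    intro h0
    apply HH.eval5
    exact congrArg (fun z : Additive (center HH) => ((Additive.toMul z : center HH) : HH)) h0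
  have fin : ∀ (c r : ℤ), (7 : ℤ) ∣ r →
      c • q + r • m5 HH.inV.nil (ab HH.x) (ab HH.y) (ab HH.x) (ab HH.y) (ab HH.x) = 0 →
      (7 : ℤ) ∣ c := by
    intro c r hr h0
    obtain ⟨s, rfl⟩ := hr
    rw [mul_comm, mul_smul, m5_tors HH.inV, smul_zero, add_zero] at h0
    exact detect hHt hHn h0
  have s12 : (7 : ℤ) ∣ b 2 + b 5 := by
    have h1 := zero HH HH.inV HH.x HH.y HH.y HH.x HH.x HH.x HH.y (by decide)
    rw [two12 sH] at h1
    exact fin _ _ (dvd_add r1 r2) h1
  have s13 : (7 : ℤ) ∣ b 1 + b 8 := by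
    have h1 := zero HH HH.inV HH.x HH.y HH.x HH.y HH.x HH.x HH.y (by decide)
    rw [two13 sH] at h1
    exact fin _ _ (dvd_add r1 r3) h1
  have s14 : (7 : ℤ) ∣ b 0 + b 11 := by
    have h1 := zero HH HH.inV HH.x HH.y HH.x HH.x HH.y HH.x HH.y (by decide)
    rw [two14 sH] at h1
    exact fin _ _ (dvd_add r1 r4) h1
  have s23 : (7 : ℤ) ∣ b 4 + b 7 := by
    have h1 := zero HH HH.inV HH.x HH.x HH.y HH.y HH.x HH.x HH.y (by decide)
    rw [two23 sH] at h1
    exact fin _ _ (dvd_add r2 r3) h1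
  have s24 : (7 : ℤ) ∣ b 3 + b 10 := by
    have h1 := zero HH HH.inV HH.x HH.x HH.y HH.x HH.y HH.x HH.y (by decide)
    rw [two24 sH] at h1
    exact fin _ _ (dvd_add r2 r4) h1
  have s34 : (7 : ℤ) ∣ b 6 + b 9 := by
    have h1 := zero HH HH.inV HH.x HH.x HH.x HH.y HH.y HH.x HH.y (by decide)
    rw [two34 sH] at h1
    exact fin _ _ (dvd_add r3 r4) h1
  have h1 : (∑ π : Equiv.Perm (Fin 5),
      T (fun k => J (π k)) • ml 4 h (fun k => ab (v (π k)))) =
      nf5 b (m5 hK.nil) (fun k => ab (v k)) := key K hK v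
  rw [h1]
  exact van5' (sys5 hK) (m5_tors hK hK.nil) b r1 r2 r3 r4 s12 s13 s14 s23 s24 s34 _

end stage4

end Pool.Agent.helper3
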