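import Mathlib
import Pool.Agent.helper3.Stage4

/-! The third stage of the induction on the class. -/

namespace Pool.Agent.helper3

open Subgroup
open scoped commutatorElement IsMulCommutative

section PW

variable {α : Type} [DecidableEq α]

/-- polarized word -/
noncomputable def PW {n : ℕ} (J : Fin (n + 1) → α) (w : FreeGroup α) :
    FreeGroup (Fin (n + 1)) :=
  ((Finset.univ : Finset (Finset (Fin (n + 1)))).toList.map (fun S =>
    (FreeGroup.lift (hS J FreeGroup.of S) w) ^ ((-1 : ℤ) ^ (n + 1 - S.card)))).prod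

theorem PW_good {n : ℕ} (J : Fin (n + 1) → α) {w : FreeGroup α} (hw : Good w) :
    Good (PW J w) := by
  apply Good.prod
  intro u hu
  rw [List.mem_map] at hu
  obtain ⟨S, _, rfl⟩ := hu
  exact (hw.map _).zpow _

theorem lift_PW {n : ℕ} (J : Fin (n + 1) → α) (w : FreeGroup α) {K : Type} [Group K]
    (v : Fin (n + 1) → K) : FreeGroup.lift v (PW J w) =
      ((Finset.univ : Finset (Finset (Fin (n + 1)))).toList.map (fun S =>
        (FreeGroup.lift (hS J v S) w) ^ ((-1 : ℤ) ^ (n + 1 - S.card)))).prod := by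
  unfold PW
  rw [map_list_prod, List.map_map]
  congr 2
  funext S
  simp only [Function.comp, map_zpow]
  congr 1
  have : (FreeGroup.lift v).comp (FreeGroup.lift (hS J FreeGroup.of S)) =
      FreeGroup.lift (hS J v S) := by
    ext i
    simp only [MonoidHom.comp_apply, FreeGroup.lift_apply_of]
    rw [map_hS]
    simp
  exact DFunLike.congr_fun this w

theorem cE_zpow {K : Type} [Group K] {g : K} (hg : g ∈ center K) (n : ℤ) :
    n • cE g hg = cE (g ^ n) (zpow_mem hg n) := rfl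

variable [Fintype α]

theorem PW_eval {n : ℕ} {w : FreeGroup α} {T : (Fin (n + 1) → α) → ℤ}
    (hT : IsCoeffV n w T) {K : Type} [Group K] (hK : InV K) (h : gam K (n + 1) = ⊥)
    (J : Fin (n + 1) → α) (v : Fin (n + 1) → K) :
    ∃ hc : FreeGroup.lift v (PW J w) ∈ center K, cE (FreeGroup.lift v (PW J w)) hc =
      ∑ π : Equiv.Perm (Fin (n + 1)), T (fun k => J (π k)) • ml n h (fun k => ab (v (π k))) := by
  have hc : ∀ S : Finset (Fin (n + 1)), FreeGroup.lift (hS J v S) w ∈ center K := fun S =>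
    (hT K hK h (hS J v S)).1
  have key : ∀ l : List (Finset (Fin (n + 1))),
      ∃ hcl : (l.map (fun S =>
        (FreeGroup.lift (hS J v S) w) ^ ((-1 : ℤ) ^ (n + 1 - S.card)))).prod ∈ center K,
      cE _ hcl = (l.map (fun S => (-1 : ℤ) ^ (n + 1 - S.card) •
        cE (FreeGroup.lift (hS J v S) w) (hc S))).sum := by
    intro l
    induction l with
    | nil => exact ⟨one_mem _, rfl⟩
    | cons S l ih =>
      obtain ⟨h1, h2⟩ := ih
      refine ⟨?_, ?_⟩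
      · rw [List.map_cons, List.prod_cons]
        exact mul_mem (zpow_mem (hc S) _) h1
      · simp only [List.map_cons, List.prod_cons, List.sum_cons]
        rw [← h2, cE_zpow, cE_add]
  obtain ⟨h1, h2⟩ := key (Finset.univ : Finset (Finset (Fin (n + 1)))).toList
  refine ⟨by rw [lift_PW]; exact h1, ?_⟩
  rw [hT.pol hK h J v hc, ← Finset.sum_map_toList, ← h2]
  exact cE_eq _ _ (lift_PW J w v)

/-- words trivial in class `n` depend only on the abelianized arguments -/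
theorem Vanish.agree {n : ℕ} {w : FreeGroup α} (hw : Vanish n w) {K : Type} [Group K]
    (hK : InV K) (h : gam K (n + 1) = ⊥) (x y : α → K) (hxy : ∀ i, ab (x i) = ab (y i)) :
    FreeGroup.lift x w = FreeGroup.lift y w := by
  obtain ⟨T, hT⟩ := hw.exists_coeffV
  obtain ⟨h1, h2⟩ := hT K hK h x
  obtain ⟨h3, h4⟩ := hT K hK h y
  simp only [hxy] at h2
  have h5 := h2.trans h4.symm
  exact congrArg (fun z : Additive (center K) => ((Additive.toMul z : center K) : K)) h5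

end PW

section stage3

theorem m4_sub {K : Type} [Group K] (h : gam K 4 = ⊥) (x y z t : K) :
    m4 h (ab x) (ab y) (ab z) (ab t) - m4 h (ab x) (ab y) (ab t) (ab z)
      = cE ⁅⁅x, y⁆, ⁅z, t⁆⁆ (central_of_mem h (comm_mem (i := 1) (j := 1)
        (comm_mem_left (mem_top x) y) (comm_mem_left (mem_top z) t))) := by
  have hu : ⁅x, y⁆ ∈ gam K 1 := comm_mem_left (mem_top x) y
  have hw : ⁅z, t⁆ ∈ gam K 1 := comm_mem_left (mem_top z) t
  have hJ := jacobi (i := 1) (j := 0) (k := 0) h hu (mem_top z) (mem_top t)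
  have e1 : ⁅⁅t, ⁅x, y⁆⁆, z⁆ = ⁅⁅⁅x, y⁆, t⁆, z⁆⁻¹ := by
    rw [← commutatorElement_inv ⁅x, y⁆ t]
    exact comm_inv_left_mem (j := 0) h (by norm_num) (comm_mem_left hu t) (mem_top z)
  have e2 : ⁅⁅z, t⁆, ⁅x, y⁆⁆ = ⁅⁅x, y⁆, ⁅z, t⁆⁆⁻¹ := (commutatorElement_inv _ _).symm
  rw [e1, e2] at hJ
  rw [m4_apply, m4_apply, sub_eq_add_neg, cE_neg, cE_add]
  apply cE_eq
  have hc : ⁅⁅⁅x, y⁆, t⁆, z⁆ ∈ center K := central_of_mem h (c4_mem x y t z)
  have hc2 : ⁅⁅x, y⁆, ⁅z, t⁆⁆ * ⁅⁅⁅x, y⁆, t⁆, z⁆ = ⁅⁅⁅x, y⁆, t⁆, z⁆ * ⁅⁅x, y⁆, ⁅z, t⁆⁆ :=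
    mem_center_iff.mp hc _
  have h3 : ⁅⁅⁅x, y⁆, z⁆, t⁆ = ⁅⁅⁅x, y⁆, t⁆, z⁆ * ⁅⁅x, y⁆, ⁅z, t⁆⁆ := by
    rw [mul_inv_eq_one, mul_inv_eq_iff_eq_mul] at hJ
    exact hJ
  rw [h3, ← hc2]; group

section patterns4

variable {A B : Type} [AddCommGroup A] [AddCommGroup B] {m : A → A → A → A → B}

theorem one1 (hm : Sys4 m) (b : Fin 6 → ℤ) (x y : A) :
    nf4 b m ![x, y, x, x] = (b 0 + b 1) • m x y x x := by
  simp only [nf4, Matrix.cons_val, hm.alt, smul_zero, add_zero]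
  module

theorem one2 (hm : Sys4 m) (b : Fin 6 → ℤ) (x y : A) :
    nf4 b m ![x, x, y, x] = (b 2 + b 3) • m x y x x := by
  simp only [nf4, Matrix.cons_val, hm.alt, smul_zero, add_zero, zero_add]
  module

theorem one3 (hm : Sys4 m) (b : Fin 6 → ℤ) (x y : A) :
    nf4 b m ![x, x, x, y] = (b 4 + b 5) • m x y x x := by
  simp only [nf4, Matrix.cons_val, hm.alt, smul_zero, add_zero, zero_add]
  module

end patterns4

/-- free generators -/
abbrev zv (i : Fin 4) : FreeGroup (Fin 4) := FreeGroup.of i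

/-- the word detecting the metabelian quotient -/
def EW (b0 b2 b4 : ℤ) : FreeGroup (Fin 4) :=
  ⁅⁅zv 0, zv 1⁆, ⁅zv 2, zv 3⁆⁆ ^ b0 * ⁅⁅zv 0, zv 2⁆, ⁅zv 1, zv 3⁆⁆ ^ b2 *
    ⁅⁅zv 0, zv 3⁆, ⁅zv 1, zv 2⁆⁆ ^ b4

theorem lift_EW {K : Type} [Group K] (b0 b2 b4 : ℤ) (v : Fin 4 → K) :
    FreeGroup.lift v (EW b0 b2 b4) =
      ⁅⁅v 0, v 1⁆, ⁅v 2, v 3⁆⁆ ^ b0 * ⁅⁅v 0, v 2⁆, ⁅v 1, v 3⁆⁆ ^ b2 *
        ⁅⁅v 0, v 3⁆, ⁅v 1, v 2⁆⁆ ^ b4 := by
  unfold EW
  simp only [map_mul, map_zpow, map_commutatorElement, FreeGroup.lift_apply_of]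

theorem detectM {K : Type} [Group K] {q : K} (h7 : q ^ 7 = 1) (hq : q ≠ 1)
    {κ : ℤ} (h : q ^ κ = 1) : (7 : ℤ) ∣ κ := by
  have : Fact (Nat.Prime 7) := ⟨by norm_num⟩
  have h1 : orderOf q = 7 := orderOf_eq_prime h7 hq
  rw [← orderOf_dvd_iff_zpow_eq_one, h1] at h
  exact h

variable {α : Type} [Fintype α] [DecidableEq α]

/-- Stage 3 -/
theorem stage3 {w : FreeGroup α} (hw : Good w) (hv : Vanish 3 w) : Vanish 4 w := by
  obtain ⟨T, hT⟩ := hv.exists_coeffV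
  intro K _ hK h x
  apply hT.finish (by norm_num) (by norm_num) hK h _ x
  intro J v
  obtain ⟨b, hb⟩ := nf4_sum (fun π => T (fun k => J (π k)))
  have key : ∀ (K : Type) [Group K] (_ : InV K) (h : gam K 4 = ⊥) (v : Fin 4 → K),
      ∑ π : Equiv.Perm (Fin 4), T (fun k => J (π k)) • ml 3 h (fun k => ab (v (π k))) =
      nf4 b (m4 h) (fun k => ab (v k)) := by
    intro K _ hK h v
    rw [← hb _ _ (m4 h) (sys4 h)]
    apply Finset.sum_congr rfl
    intro π _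
    rw [ml4_eq]
  have zero : ∀ (K : Type) [Group K] (hK : InV K) (h : gam K 4 = ⊥) (x0 x1 x2 x3 x y : K),
      (∀ a : Fin 4, ![x0, x1, x2, x3] a = x ∨ ![x0, x1, x2, x3] a = y) →
      nf4 b (m4 h) ![ab x0, ab x1, ab x2, ab x3] = 0 := by
    intro K _ hK h x0 x1 x2 x3 x y hxy
    have e : (![ab x0, ab x1, ab x2, ab x3] : Fin 4 → Additive (Abelianization K)) =
      fun k => ab ((![x0, x1, x2, x3] : Fin 4 → K) k) := by
      funext k; fin_cases k <;> rfl
    rw [e]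
    exact (key K hK h _).symm.trans
      (pol_good hw hT hK h J _ x y (vec_mem x y _ hxy))
  -- evaluation in the quotient of `GG` of class three
  let Q := GG ⧸ gam GG 4
  let p : GG →* Q := QuotientGroup.mk' (gam GG 4)
  have hp : Function.Surjective p := QuotientGroup.mk'_surjective _
  have hQ : InV Q := GG.inV.surj p hp
  have hQ4 : gam Q 4 = ⊥ := gam_quot_eq_bot 4
  have sQ := sys4 hQ4
  have hGt : (7 : ℤ) • m4 hQ4 (ab (p GG.x)) (ab (p GG.y)) (ab (p GG.x)) (ab (p GG.x)) = 0 :=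
    m4_tors hQ _ _ _ _ _
  have hGn : m4 hQ4 (ab (p GG.x)) (ab (p GG.y)) (ab (p GG.x)) (ab (p GG.x)) ≠ 0 := by
    rw [m4_apply]
    intro h0
    have h1 : ⁅⁅⁅p GG.x, p GG.y⁆, p GG.x⁆, p GG.x⁆ = 1 :=
      congrArg (fun z : Additive (center Q) => ((Additive.toMul z : center Q) : Q)) h0
    rw [← map_commutatorElement, ← map_commutatorElement, ← map_commutatorElement] at h1
    have h2 : ⁅⁅⁅GG.x, GG.y⁆, GG.x⁆, GG.x⁆ ∈ gam GG 4 := (QuotientGroup.eq_one_iff _).mp h1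
    exact GG.eval4 (GG.gam_le_filt 4 h2).2.2.2.2
  have r1 : (7 : ℤ) ∣ b 0 + b 1 := by
    have h1 := zero Q hQ hQ4 (p GG.x) (p GG.y) (p GG.x) (p GG.x) (p GG.x) (p GG.y) (by
      intro a; fin_cases a <;> simp)
    rw [one1 sQ] at h1
    exact detect hGt hGn h1
  have r2 : (7 : ℤ) ∣ b 2 + b 3 := by
    have h1 := zero Q hQ hQ4 (p GG.x) (p GG.x) (p GG.y) (p GG.x) (p GG.x) (p GG.y) (by
      intro a; fin_cases a <;> simp)
    rw [one2 sQ] at h1
    exact detect hGt hGn h1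
  have r3 : (7 : ℤ) ∣ b 4 + b 5 := by
    have h1 := zero Q hQ hQ4 (p GG.x) (p GG.x) (p GG.x) (p GG.y) (p GG.x) (p GG.y) (by
      intro a; fin_cases a <;> simp)
    rw [one3 sQ] at h1
    exact detect hGt hGn h1
  -- the polarized word agrees with `EW` in class three
  have hE : Vanish 4 ((PW J w)⁻¹ * EW (b 0) (b 2) (b 4)) := by
    intro L _ hL hL4 u
    obtain ⟨hc, he⟩ := PW_eval hT hL hL4 J u
    have h1 : (∑ π : Equiv.Perm (Fin 4),
      T (fun k => J (π k)) • ml 3 hL4 (fun k => ab (u (π k)))) =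
        nf4 b (m4 hL4) (fun k => ab (u k)) := key L hL hL4 u
    have h2 := he.trans h1
    have t4 := m4_tors hL hL4
    have h3 : nf4 b (m4 hL4) (fun k => ab (u k)) =
        b 0 • (m4 hL4 (ab (u 0)) (ab (u 1)) (ab (u 2)) (ab (u 3)) -
          m4 hL4 (ab (u 0)) (ab (u 1)) (ab (u 3)) (ab (u 2))) +
        b 2 • (m4 hL4 (ab (u 0)) (ab (u 2)) (ab (u 1)) (ab (u 3)) -
          m4 hL4 (ab (u 0)) (ab (u 2)) (ab (u 3)) (ab (u 1))) +
        b 4 • (m4 hL4 (ab (u 0)) (ab (u 3)) (ab (u 1)) (ab (u 2)) -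
          m4 hL4 (ab (u 0)) (ab (u 3)) (ab (u 2)) (ab (u 1))) := by
      obtain ⟨k1, hk1⟩ := r1
      obtain ⟨k2, hk2⟩ := r2
      obtain ⟨k3, hk3⟩ := r3
      have e1 : b 1 = 7 * k1 - b 0 := by omega
      have e2 : b 3 = 7 * k2 - b 2 := by omega
      have e3 : b 5 = 7 * k3 - b 4 := by omega
      unfold nf4
      rw [e1, e2, e3]
      have f1 := t4 (ab (u 0)) (ab (u 1)) (ab (u 3)) (ab (u 2))
      have f2 := t4 (ab (u 0)) (ab (u 2)) (ab (u 3)) (ab (u 1))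
      have f3 := t4 (ab (u 0)) (ab (u 3)) (ab (u 2)) (ab (u 1))
      linear_combination (norm := module) k1 • f1 + k2 • f2 + k3 • f3
    rw [h3, m4_sub, m4_sub, m4_sub, cE_zpow, cE_zpow, cE_zpow, cE_add, cE_add] at h2
    have h4 : FreeGroup.lift u (PW J w) =
      ⁅⁅u 0, u 1⁆, ⁅u 2, u 3⁆⁆ ^ b 0 * ⁅⁅u 0, u 2⁆, ⁅u 1, u 3⁆⁆ ^ b 2 *
        ⁅⁅u 0, u 3⁆, ⁅u 1, u 2⁆⁆ ^ b 4 :=
      congrArg (fun z : Additive (center L) => ((Additive.toMul z : center L) : L)) h2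
    rw [map_mul, map_inv, h4, lift_EW, inv_mul_cancel]
  -- evaluation in `HH`
  have hHH : ∀ u u' : Fin 4 → HH, (∀ i, u i ∈ closure ({HH.x, HH.y} : Set HH)) →
      (∀ i, u' i ∈ closure ({HH.x, HH.y} : Set HH)) → (∀ i, ab (u i) = ab (u' i)) →
      FreeGroup.lift u (EW (b 0) (b 2) (b 4)) = FreeGroup.lift u' (EW (b 0) (b 2) (b 4)) := by
    intro u u' hu hu' huu
    have h1 := hE.agree HH.inV HH.inV.nil u u' huu
    rw [map_mul, map_mul, map_inv, map_inv, PW_good J hw HH HH.inV HH.x HH.y u hu,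
      PW_good J hw HH HH.inV HH.x HH.y u' hu', inv_one, one_mul, one_mul] at h1
    exact h1
  have mx : HH.x ∈ closure ({HH.x, HH.y} : Set HH) := subset_closure (by simp)
  have my : HH.y ∈ closure ({HH.x, HH.y} : Set HH) := subset_closure (by simp)
  have ma : ⁅HH.x, HH.y⁆ ∈ closure ({HH.x, HH.y} : Set HH) := by
    rw [commutatorElement_def]
    exact mul_mem (mul_mem (mul_mem mx my) (inv_mem mx)) (inv_mem my)
  have mab : ab ⁅HH.x, HH.y⁆ = ab (1 : HH) := by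
    have : Abelianization.of ⁅HH.x, HH.y⁆ = 1 := by
      rw [map_commutatorElement]
      exact commutatorElement_eq_one_iff_mul_comm.mpr (mul_comm _ _)
    exact this
  set D := ⁅⁅HH.y, HH.x⁆, ⁅HH.x, ⁅HH.x, HH.y⁆⁆⁆ with hD
  have hD7 : D ^ 7 = 1 := by
    apply HH.inV.pow_gam2
    apply mem_gam_of_le (j := 4) (by norm_num)
    exact comm_mem (i := 1) (j := 2) (comm_mem_left (mem_top _) _)
      (comm_mem (i := 0) (j := 1) (mem_top _) (comm_mem_left (mem_top _) _))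
  have hD1 : D ≠ 1 := HH.eval4
  have q1 : (7 : ℤ) ∣ b 0 + b 2 := by
    have h1 := hHH ![HH.y, HH.x, HH.x, ⁅HH.x, HH.y⁆] ![HH.y, HH.x, HH.x, 1]
      (by intro i; fin_cases i; exacts [my, mx, mx, ma])
      (by intro i; fin_cases i; exacts [my, mx, mx, one_mem _])
      (by intro i; fin_cases i; exacts [rfl, rfl, rfl, mab])
    rw [lift_EW, lift_EW] at h1
    simp only [Matrix.cons_val, commutatorElement_one_right, commutatorElement_self,
      commutatorElement_one_left, one_zpow, mul_one] at h1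
    rw [← hD, ← zpow_add] at h1
    exact detectM hD7 hD1 h1
  have q2 : (7 : ℤ) ∣ - b 0 - b 4 := by
    have h1 := hHH ![HH.x, HH.y, HH.x, ⁅HH.x, HH.y⁆] ![HH.x, HH.y, HH.x, 1]
      (by intro i; fin_cases i; exacts [mx, my, mx, ma])
      (by intro i; fin_cases i; exacts [mx, my, mx, one_mem _])
      (by intro i; fin_cases i; exacts [rfl, rfl, rfl, mab])
    rw [lift_EW, lift_EW] at h1
    simp only [Matrix.cons_val, commutatorElement_one_right, commutatorElement_self,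
      commutatorElement_one_left, one_zpow, mul_one] at h1
    have e1 : ⁅⁅HH.x, HH.y⁆, ⁅HH.x, ⁅HH.x, HH.y⁆⁆⁆ = D⁻¹ := by decide
    have e2 : ⁅⁅HH.x, ⁅HH.x, HH.y⁆⁆, ⁅HH.y, HH.x⁆⁆ = D⁻¹ := by decide
    rw [e1, e2, ← zpow_add, inv_zpow, ← zpow_neg] at h1
    have h2 := detectM hD7 hD1 h1
    omega
  have q3 : (7 : ℤ) ∣ b 4 - b 0 := by
    have h1 := hHH ![HH.y, HH.x, ⁅HH.x, HH.y⁆, HH.x] ![HH.y, HH.x, 1, HH.x]
      (by intro i; fin_cases i; exacts [my, mx, ma, mx])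
      (by intro i; fin_cases i; exacts [my, mx, one_mem _, mx])
      (by intro i; fin_cases i; exacts [rfl, rfl, mab, rfl])
    rw [lift_EW, lift_EW] at h1
    simp only [Matrix.cons_val, commutatorElement_one_right, commutatorElement_self,
      commutatorElement_one_left, one_zpow, mul_one, one_mul] at h1
    have e1 : ⁅⁅HH.y, HH.x⁆, ⁅⁅HH.x, HH.y⁆, HH.x⁆⁆ = D⁻¹ := by decide
    rw [e1, ← hD, inv_zpow, ← zpow_neg, ← zpow_add] at h1
    have h2 := detectM hD7 hD1 h1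
    omega
  have h1 : (∑ π : Equiv.Perm (Fin 4),
      T (fun k => J (π k)) • ml 3 h (fun k => ab (v (π k)))) =
      nf4 b (m4 h) (fun k => ab (v k)) := key K hK h v
  rw [h1]
  apply van4' (m4_tors hK h)
  intro i
  fin_cases i
  · change (7 : ℤ) ∣ b 0; omega
  · change (7 : ℤ) ∣ b 1; omega
  · change (7 : ℤ) ∣ b 2; omega
  · change (7 : ℤ) ∣ b 3; omega
  · change (7 : ℤ) ∣ b 4; omega
  · change (7 : ℤ) ∣ b 5; omega

end stage3

/-- Words vanishing on two-generated groups of the variety are laws of the variety. -/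
theorem law_of_good {α : Type} [Fintype α] [DecidableEq α] {w : FreeGroup α} (hw : Good w)
    (K : Type) [Group K] (hK : InV K) (x : α → K) : FreeGroup.lift x w = 1 :=
  stage4 hw (stage3 hw (stage2 hw (stage1 hw (stage0 hw)))) K hK hK.nil x

end Pool.Agent.helper3
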