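import Mathlib
import Pool.Agent.helper3.Stage3

/-! The class four part: two-generated groups are metabelian. -/

namespace Pool.Agent.helper3

open Subgroup
open scoped commutatorElement IsMulCommutative

section lin

variable {A B : Type} [AddCommGroup A] [AddCommGroup B] {m : A → A → A → A → B}

theorem Sys4.smul1 (hm : Sys4 m) (n : ℤ) (a b c d : A) : m (n • a) b c d = n • m a b c d :=
  map_zsmul (AddMonoidHom.mk' (fun a => m a b c d) (fun a a' => hm.add1 a a' b c d)) n a

theorem Sys4.smul2 (hm : Sys4 m) (n : ℤ) (a b c d : A) : m a (n • b) c d = n • m a b c d :=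
  map_zsmul (AddMonoidHom.mk' (fun b => m a b c d) (fun b b' => hm.add2 a b b' c d)) n b

theorem Sys4.smul3 (hm : Sys4 m) (n : ℤ) (a b c d : A) : m a b (n • c) d = n • m a b c d :=
  map_zsmul (AddMonoidHom.mk' (fun c => m a b c d) (fun c c' => hm.add3 a b c c' d)) n c

theorem Sys4.smul4 (hm : Sys4 m) (n : ℤ) (a b c d : A) : m a b c (n • d) = n • m a b c d :=
  map_zsmul (AddMonoidHom.mk' (fun d => m a b c d) (fun d d' => hm.add4 a b c d d')) n d

theorem Sys4.rank_two (hm : Sys4 m) (X Y : A) (hz : m X Y X Y - m X Y Y X = 0)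
    (i j k l p q r s : ℤ) :
    m (i • X + j • Y) (k • X + l • Y) (p • X + q • Y) (r • X + s • Y) -
      m (i • X + j • Y) (k • X + l • Y) (r • X + s • Y) (p • X + q • Y) = 0 := by
  simp only [hm.add1, hm.add2, hm.add3, hm.add4, hm.smul1, hm.smul2, hm.smul3, hm.smul4,
    hm.alt, smul_zero, add_zero, zero_add, hm.anti X Y]
  linear_combination (norm := module) ((i * l - j * k) * (p * s - q * r)) • hz

end lin

theorem span_two {K : Type} [Group K] {x y : K} (hxy : closure ({x, y} : Set K) = ⊤)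
    (u : Additive (Abelianization K)) : ∃ i j : ℤ, u = i • ab x + j • ab y := by
  obtain ⟨g, rfl⟩ := ab_surj u
  have hg : g ∈ closure ({x, y} : Set K) := by rw [hxy]; trivial
  induction hg using closure_induction with
  | mem z hz =>
    rcases hz with rfl | hz
    · exact ⟨1, 0, by simp⟩
    · have hz' : z = y := hz
      subst hz'
      exact ⟨0, 1, by simp⟩
  | one => exact ⟨0, 0, by simp [ab_one]⟩
  | mul a b _ _ ha hb =>
    obtain ⟨i, j, h1⟩ := ha
    obtain ⟨k, l, h2⟩ := hb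
    refine ⟨i + k, j + l, ?_⟩
    rw [ab_mul, h1, h2]
    module
  | inv a _ ha =>
    obtain ⟨i, j, h1⟩ := ha
    refine ⟨-i, -j, ?_⟩
    have : ab a⁻¹ = - ab a := rfl
    rw [this, h1]
    module

/-- two-generated groups of class at most four are metabelian -/
theorem metab_of_two {K : Type} [Group K] (h : gam K 4 = ⊥) {x y : K}
    (hxy : closure ({x, y} : Set K) = ⊤) (a b c d : K) : ⁅⁅a, b⁆, ⁅c, d⁆⁆ = 1 := by
  obtain ⟨i, j, h1⟩ := span_two hxy (ab a)
  obtain ⟨k, l, h2⟩ := span_two hxy (ab b)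
  obtain ⟨p, q, h3⟩ := span_two hxy (ab c)
  obtain ⟨r, s, h4⟩ := span_two hxy (ab d)
  have hs := m4_sub h a b c d
  have hz : m4 h (ab x) (ab y) (ab x) (ab y) - m4 h (ab x) (ab y) (ab y) (ab x) = 0 := by
    rw [m4_sub]
    apply cE_zero
    simp
  rw [h1, h2, h3, h4, (sys4 h).rank_two (ab x) (ab y) hz] at hs
  exact (congrArg (fun z : Additive (center K) => ((Additive.toMul z : center K) : K)) hs).symm

/-- The metabelian law is not a consequence. -/
theorem not_mem_four : ⁅⁅zv 0, zv 1⁆, ⁅zv 2, zv 3⁆⁆ ∉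
    gam (FreeGroup (Fin 4)) 4 ⊔ ⁅uu (FreeGroup (Fin 4)), (⊤ : Subgroup (FreeGroup (Fin 4)))⁆ := by
  intro hmem
  have hv : Vanish 4 (⁅⁅zv 0, zv 1⁆, ⁅zv 2, zv 3⁆⁆) := by
    intro K _ hK h4 u
    obtain ⟨g, hg, z, hz, e⟩ := mem_sup_of_normal_right.mp hmem
    rw [← e, map_mul, hK.kill _ hz, mul_one]
    have := map_mem_gam (FreeGroup.lift u) hg
    rw [h4] at this
    exact mem_bot.mp this
  have mab : ab ⁅HH.x, HH.y⁆ = ab (1 : HH) := by
    have : Abelianization.of ⁅HH.x, HH.y⁆ = 1 := by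
      rw [map_commutatorElement]
      exact commutatorElement_eq_one_iff_mul_comm.mpr (mul_comm _ _)
    exact this
  have h1 := hv.agree HH.inV HH.inV.nil ![HH.y, HH.x, HH.x, ⁅HH.x, HH.y⁆] ![HH.y, HH.x, HH.x, 1]
    (by intro i; fin_cases i; exacts [rfl, rfl, rfl, mab])
  simp only [map_commutatorElement, FreeGroup.lift_apply_of, Matrix.cons_val,
    commutatorElement_one_right] at h1
  exact HH.eval4 h1

end Pool.Agent.helper3
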