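import Mathlib

/-! The space `R x N x {0,1}^N` of lines at oscillating distances. -/

namespace Pool.Agent.helper3.RNPSpace

open Topology MeasureTheory Set

/-- distance from `s` to the nearest integer multiple of `h` -/
noncomputable def lat (h s : ℝ) : ℝ := |s - h * round (s / h)|

theorem lat_nonneg (h s : ℝ) : 0 ≤ lat h s := abs_nonneg _

theorem lat_le_sub {h : ℝ} (hh : 0 < h) (s : ℝ) (m : ℤ) : lat h s ≤ |s - h * m| := by
  unfold lat
  have h1 := round_le (s / h) m
  have e1 : s - h * round (s / h) = h * (s / h - round (s / h)) := by field_simp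
  have e2 : s - h * m = h * (s / h - m) := by field_simp
  rw [e1, e2, abs_mul, abs_mul]
  exact mul_le_mul_of_nonneg_left h1 (abs_nonneg _)

theorem lat_le_half {h : ℝ} (hh : 0 < h) (s : ℝ) : lat h s ≤ h / 2 := by
  unfold lat
  have h1 := abs_sub_round (s / h)
  have e1 : s - h * round (s / h) = h * (s / h - round (s / h)) := by field_simp
  rw [e1, abs_mul, abs_of_pos hh]
  nlinarith

theorem lat_sub_le {h : ℝ} (hh : 0 < h) (s t : ℝ) : lat h s ≤ lat h t + |s - t| := by
  have h1 := lat_le_sub hh s (round (t / h))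
  have h2 : |s - h * round (t / h)| ≤ |s - t| + |t - h * round (t / h)| := by
    have := abs_sub_le s t (h * round (t / h))
    exact this
  unfold lat at *
  linarith

theorem lat_mul {h : ℝ} (hh : 0 < h) (m : ℤ) : lat h (h * m) = 0 := by
  have h1 := lat_le_sub hh (h * m) m
  simp only [sub_self, abs_zero] at h1
  exact le_antisymm h1 (lat_nonneg _ _)

theorem lat_mul_add {h : ℝ} (hh : 0 < h) (m : ℤ) : lat h (h * m + h / 2) = h / 2 := by
  apply le_antisymm (lat_le_half hh _)
  unfold lat
  set k := round ((h * m + h / 2) / h) with hk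
  have e : h * m + h / 2 - h * k = h * ((m - k : ℤ) + 1 / 2) := by push_cast; ring
  rw [e, abs_mul, abs_of_pos hh]
  have h3 : (1 : ℝ) / 2 ≤ |((m - k : ℤ) : ℝ) + 1 / 2| := by
    rcases le_or_gt 0 (m - k) with h4 | h4
    · have : (0 : ℝ) ≤ ((m - k : ℤ) : ℝ) := by exact_mod_cast h4
      rw [abs_of_nonneg (by linarith)]
      linarith
    · have h5 : (m - k) ≤ -1 := by omega
      have : ((m - k : ℤ) : ℝ) ≤ -1 := by exact_mod_cast h5
      rw [abs_of_neg (by linarith)]
      linarith
  nlinarith

/-- the scales -/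
noncomputable def r (n k : ℕ) : ℝ := (1 / ((n : ℝ) + 3)) ^ (k + 1)

theorem r_pos (n k : ℕ) : 0 < r n k := by unfold r; positivity

theorem r_succ (n k : ℕ) : ((n : ℝ) + 3) * r n (k + 1) = r n k := by
  unfold r
  rw [pow_succ (1 / ((n : ℝ) + 3)) (k + 1)]
  field_simp

theorem r_zero (n : ℕ) : ((n : ℝ) + 3) * r n 0 = 1 := by
  unfold r
  rw [zero_add, pow_one]
  field_simp

/-- distance at height `s` between two lines of the family `n` first differing at index `k` -/
noncomputable def rk (n k : ℕ) (s : ℝ) : ℝ := r n k + lat (2 * ((n : ℝ) + 1) * r n k) s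

theorem hpos (n k : ℕ) : 0 < 2 * ((n : ℝ) + 1) * r n k := by
  have := r_pos n k
  positivity

theorem le_rk (n k : ℕ) (s : ℝ) : r n k ≤ rk n k s := by
  unfold rk
  have := lat_nonneg (2 * ((n : ℝ) + 1) * r n k) s
  linarith

theorem rk_le (n k : ℕ) (s : ℝ) : rk n k s ≤ ((n : ℝ) + 2) * r n k := by
  unfold rk
  have := lat_le_half (hpos n k) s
  nlinarith

theorem rk_anti (n : ℕ) (s : ℝ) : Antitone (fun k => rk n k s) := by
  apply antitone_nat_of_succ_le
  intro k
  have h1 := rk_le n (k + 1) s
  have h2 := r_succ n k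
  have h3 := le_rk n k s
  have h4 := r_pos n (k + 1)
  nlinarith

theorem rk_le_one (n k : ℕ) (s : ℝ) : rk n k s ≤ 1 := by
  have h0 := rk_anti n s (Nat.zero_le k)
  have h1 := rk_le n 0 s
  have h2 := r_zero n
  have h4 := r_pos n 0
  simp only at h0
  nlinarith

theorem rk_pos (n k : ℕ) (s : ℝ) : 0 < rk n k s := lt_of_lt_of_le (r_pos n k) (le_rk n k s)

theorem rk_lip (n k : ℕ) (s t : ℝ) : rk n k s ≤ rk n k t + |s - t| := by
  unfold rk
  have := lat_sub_le (hpos n k) s t
  linarith

/-- index of a line -/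
abbrev Idx : Type := ℕ × (ℕ → Bool)

open Classical in
/-- distance of the lines `a` and `b` at height `s` -/
noncomputable def rho (a b : Idx) (s : ℝ) : ℝ :=
  if a = b then 0 else if a.1 = b.1 then rk a.1 (PiNat.firstDiff a.2 b.2) s else 1

theorem rho_self (a : Idx) (s : ℝ) : rho a a s = 0 := by simp [rho]

theorem rho_pos {a b : Idx} (h : a ≠ b) (s : ℝ) : 0 < rho a b s := by
  unfold rho
  rw [if_neg h]
  split_ifs
  · exact rk_pos _ _ _
  · norm_num

theorem rho_nonneg (a b : Idx) (s : ℝ) : 0 ≤ rho a b s := by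
  by_cases h : a = b
  · subst h; rw [rho_self]
  · exact (rho_pos h s).le

theorem rho_le_one (a b : Idx) (s : ℝ) : rho a b s ≤ 1 := by
  unfold rho
  split_ifs
  · norm_num
  · exact rk_le_one _ _ _
  · exact le_refl _

theorem rho_comm (a b : Idx) (s : ℝ) : rho a b s = rho b a s := by
  unfold rho
  by_cases h : a = b
  · subst h; simp
  · rw [if_neg h, if_neg (Ne.symm h)]
    by_cases h1 : a.1 = b.1
    · rw [if_pos h1, if_pos h1.symm, PiNat.firstDiff_comm, h1]
    · rw [if_neg h1, if_neg (Ne.symm h1)]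

theorem rho_lip (a b : Idx) (s t : ℝ) : rho a b s ≤ rho a b t + |s - t| := by
  unfold rho
  split_ifs
  · simp
  · exact rk_lip _ _ _ _
  · linarith [abs_nonneg (s - t)]

theorem rho_tri (a b c : Idx) (s : ℝ) : rho a c s ≤ max (rho a b s) (rho b c s) := by
  by_cases hac : a = c
  · subst hac
    rw [rho_self]
    exact le_max_of_le_left (rho_nonneg _ _ _)
  by_cases hab : a = b
  · subst hab
    exact le_max_right _ _
  by_cases hbc : b = c
  · subst hbc
    exact le_max_left _ _
  by_cases h1 : a.1 = b.1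
  · by_cases h2 : b.1 = c.1
    · have h3 : a.1 = c.1 := h1.trans h2
      have e1 : rho a c s = rk a.1 (PiNat.firstDiff a.2 c.2) s := by
        unfold rho; rw [if_neg hac, if_pos h3]
      have e2 : rho a b s = rk a.1 (PiNat.firstDiff a.2 b.2) s := by
        unfold rho; rw [if_neg hab, if_pos h1]
      have e3 : rho b c s = rk a.1 (PiNat.firstDiff b.2 c.2) s := by
        unfold rho; rw [if_neg hbc, if_pos h2, h1]
      have hne : a.2 ≠ c.2 := fun h => hac (Prod.ext h3 h)
      have h4 := PiNat.min_firstDiff_le a.2 b.2 c.2 hne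
      rw [e1, e2, e3]
      rcases min_le_iff.mp h4 with h5 | h5
      · exact le_max_of_le_left (rk_anti _ s h5)
      · exact le_max_of_le_right (rk_anti _ s h5)
    · have e3 : rho b c s = 1 := by
        unfold rho; rw [if_neg hbc, if_neg h2]
      rw [e3]
      exact le_max_of_le_right (rho_le_one _ _ _)
  · have e3 : rho a b s = 1 := by
      unfold rho; rw [if_neg hab, if_neg h1]
    rw [e3]
    exact le_max_of_le_left (rho_le_one _ _ _)

/-- the points: height and index of the line -/
structure Pt where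
  /-- height -/
  ht : ℝ
  /-- line -/
  ix : Idx

theorem Pt.ext' {x y : Pt} (h1 : x.ht = y.ht) (h2 : x.ix = y.ix) : x = y := by
  cases x; cases y; simp only at h1 h2; rw [h1, h2]

/-- the distance -/
noncomputable def dst (x y : Pt) : ℝ :=
  max |x.ht - y.ht| (max (rho x.ix y.ix x.ht) (rho x.ix y.ix y.ht))

theorem dst_tri (x y z : Pt) : dst x z ≤ dst x y + dst y z := by
  have a1 : |x.ht - y.ht| ≤ dst x y := le_max_left _ _
  have a2 : |y.ht - z.ht| ≤ dst y z := le_max_left _ _
  have a3 : rho x.ix y.ix x.ht ≤ dst x y := le_max_of_le_right (le_max_left _ _)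
  have a4 : rho x.ix y.ix y.ht ≤ dst x y := le_max_of_le_right (le_max_right _ _)
  have a5 : rho y.ix z.ix y.ht ≤ dst y z := le_max_of_le_right (le_max_left _ _)
  have a6 : rho y.ix z.ix z.ht ≤ dst y z := le_max_of_le_right (le_max_right _ _)
  have p1 : 0 ≤ dst x y := le_trans (abs_nonneg _) a1
  have p2 : 0 ≤ dst y z := le_trans (abs_nonneg _) a2
  refine max_le ?_ (max_le ?_ ?_)
  · have := abs_sub_le x.ht y.ht z.ht
    linarith
  · rcases le_max_iff.mp (rho_tri x.ix y.ix z.ix x.ht) with h | h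
    · linarith
    · have := rho_lip y.ix z.ix x.ht y.ht
      linarith
  · rcases le_max_iff.mp (rho_tri x.ix y.ix z.ix z.ht) with h | h
    · have := rho_lip x.ix y.ix z.ht y.ht
      rw [abs_sub_comm] at this
      linarith
    · linarith

noncomputable instance : MetricSpace Pt where
  dist := dst
  dist_self x := by simp [dst, rho_self]
  dist_comm x y := by
    unfold dst
    rw [abs_sub_comm, rho_comm x.ix y.ix, rho_comm x.ix y.ix, max_comm (rho y.ix x.ix x.ht)]
  dist_triangle := dst_tri
  eq_of_dist_eq_zero := by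
    intro x y h
    change dst x y = 0 at h
    have a1 : |x.ht - y.ht| ≤ dst x y := le_max_left _ _
    have a3 : rho x.ix y.ix x.ht ≤ dst x y := le_max_of_le_right (le_max_left _ _)
    apply Pt.ext'
    · rw [h] at a1
      have := abs_eq_zero.mp (le_antisymm a1 (abs_nonneg _))
      linarith
    · by_contra hne
      have := rho_pos hne x.ht
      linarith

theorem dist_def (x y : Pt) : dist x y =
    max |x.ht - y.ht| (max (rho x.ix y.ix x.ht) (rho x.ix y.ix y.ht)) := rfl

theorem abs_ht_le (x y : Pt) : |x.ht - y.ht| ≤ dist x y := le_max_left _ _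

theorem rho_le_dist (x y : Pt) : rho x.ix y.ix x.ht ≤ dist x y :=
  le_max_of_le_right (le_max_left _ _)

theorem dist_line (a : Idx) (s t : ℝ) : dist (Pt.mk s a) (Pt.mk t a) = |s - t| := by
  rw [dist_def]
  simp [rho_self]

theorem dist_height (a b : Idx) (s : ℝ) : dist (Pt.mk s a) (Pt.mk s b) = rho a b s := by
  rw [dist_def]
  simp [rho_nonneg]

/-- points at distance less than one lie in the same family -/
theorem fam_eq_of_dist_lt {x y : Pt} (h : dist x y < 1) : x.ix.1 = y.ix.1 := by
  by_contra hne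
  have h1 : rho x.ix y.ix x.ht = 1 := by
    unfold rho
    rw [if_neg (fun h => hne (by rw [h])), if_neg hne]
  have := rho_le_dist x y
  linarith

theorem r_anti (n : ℕ) : Antitone (fun k => r n k) := by
  apply antitone_nat_of_succ_le
  intro k
  have h2 := r_succ n k
  have h4 := r_pos n (k + 1)
  have h5 : (0 : ℝ) ≤ n := Nat.cast_nonneg n
  nlinarith

/-- close points lie on lines which agree up to a large index -/
theorem agree_of_dist_lt {x y : Pt} {K : ℕ} (h1 : dist x y < 1) (h : dist x y < r x.ix.1 K) :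
    ∀ j ≤ K, x.ix.2 j = y.ix.2 j := by
  intro j hj
  by_contra hne
  have h0 := fam_eq_of_dist_lt h1
  have hne' : x.ix.2 ≠ y.ix.2 := fun h => hne (by rw [h])
  have hx : x.ix ≠ y.ix := fun h => hne' (by rw [h])
  have h2 : rho x.ix y.ix x.ht = rk x.ix.1 (PiNat.firstDiff x.ix.2 y.ix.2) x.ht := by
    unfold rho
    rw [if_neg hx, if_pos h0]
  have h3 : PiNat.firstDiff x.ix.2 y.ix.2 ≤ j := by
    by_contra hlt
    push Not at hlt
    exact hne (PiNat.apply_eq_of_lt_firstDiff hlt)
  have h4 := rho_le_dist x y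
  have h5 := le_rk x.ix.1 (PiNat.firstDiff x.ix.2 y.ix.2) x.ht
  have h6 := r_anti x.ix.1 (h3.trans hj)
  simp only at h6
  linarith

theorem tendsto_r (n : ℕ) : Filter.Tendsto (fun k => r n k) Filter.atTop (𝓝 0) := by
  unfold r
  apply (tendsto_pow_atTop_nhds_zero_of_lt_one (by positivity) ?_).comp
    (Filter.tendsto_add_atTop_nat 1)
  rw [div_lt_one (by positivity)]
  have h5 : (0 : ℝ) ≤ n := Nat.cast_nonneg n
  linarith

instance : CompleteSpace Pt := by
  apply Metric.complete_of_cauchySeq_tendsto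
  intro u hu
  have hu' := Metric.cauchySeq_iff.mp hu
  obtain ⟨N0, hN0⟩ := hu' 1 one_pos
  set n := (u N0).ix.1 with hn
  have hfam : ∀ i ≥ N0, (u i).ix.1 = n := by
    intro i hi
    exact fam_eq_of_dist_lt (hN0 i hi N0 (le_refl _))
  -- heights converge
  have hht : CauchySeq (fun i => (u i).ht) := by
    rw [Metric.cauchySeq_iff]
    intro ε hε
    obtain ⟨N, hN⟩ := hu' ε hε
    refine ⟨N, fun i hi j hj => ?_⟩
    rw [Real.dist_eq]
    exact lt_of_le_of_lt (abs_ht_le _ _) (hN i hi j hj)
  obtain ⟨s, hs⟩ := cauchySeq_tendsto_of_complete hht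
  -- coordinates stabilise
  have hK : ∀ K : ℕ, ∃ N ≥ N0, ∀ i ≥ N, ∀ j ≥ N, ∀ l ≤ K, (u i).ix.2 l = (u j).ix.2 l := by
    intro K
    obtain ⟨N, hN⟩ := hu' (r n K) (r_pos n K)
    refine ⟨max N N0, le_max_right _ _, fun i hi j hj => ?_⟩
    have hi1 : N ≤ i := le_trans (le_max_left _ _) hi
    have hi2 : N0 ≤ i := le_trans (le_max_right _ _) hi
    have hj1 : N ≤ j := le_trans (le_max_left _ _) hj
    have hj2 : N0 ≤ j := le_trans (le_max_right _ _) hj
    apply agree_of_dist_lt (hN0 i hi2 j hj2)
    rw [hfam i hi2]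
    exact hN i hi1 j hj1
  choose N hN1 hN2 using hK
  set z : ℕ → Bool := fun K => (u (N K)).ix.2 K with hz
  refine ⟨⟨s, (n, z)⟩, ?_⟩
  rw [Metric.tendsto_atTop]
  intro ε hε
  -- choose K with (n+2) r n K < ε
  have ht : Filter.Tendsto (fun k => ((n : ℝ) + 2) * r n k) Filter.atTop (𝓝 0) := by
    have := (tendsto_r n).const_mul ((n : ℝ) + 2)
    simpa using this
  obtain ⟨K, hK⟩ := ((ht.eventually (gt_mem_nhds hε)).exists)
  rw [Metric.tendsto_atTop] at hs
  obtain ⟨M, hM⟩ := hs ε hε
  refine ⟨max M (max N0 (∑ j ∈ Finset.range (K + 1), N j)), fun i hi => ?_⟩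
  have hi1 : M ≤ i := le_trans (le_max_left _ _) hi
  have hi2 : N0 ≤ i := le_trans (le_trans (le_max_left _ _) (le_max_right _ _)) hi
  have hi3 : ∑ j ∈ Finset.range (K + 1), N j ≤ i :=
    le_trans (le_trans (le_max_right _ _) (le_max_right _ _)) hi
  have hagree : ∀ j ≤ K, (u i).ix.2 j = z j := by
    intro j hj
    have h1 : N j ≤ i := by
      refine le_trans ?_ hi3
      exact Finset.single_le_sum (f := N) (fun _ _ => Nat.zero_le _)
        (Finset.mem_range.mpr (by omega))
    exact hN2 j i h1 (N j) (le_refl _) j (le_refl _)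
  have hrho : ∀ t : ℝ, rho (u i).ix (n, z) t < ε := by
    intro t
    by_cases he : (u i).ix = (n, z)
    · rw [he, rho_self]; exact hε
    · have hne : (u i).ix.2 ≠ z := by
        intro h
        exact he (Prod.ext (hfam i hi2) h)
      have h2 : rho (u i).ix (n, z) t = rk n (PiNat.firstDiff (u i).ix.2 z) t := by
        unfold rho
        rw [if_neg he, if_pos (hfam i hi2), hfam i hi2]
      have h3 : K ≤ PiNat.firstDiff (u i).ix.2 z := by
        by_contra hlt
        push Not at hlt
        exact PiNat.apply_firstDiff_ne hne (hagree _ hlt.le)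
      rw [h2]
      have h4 := rk_anti n t h3
      simp only at h4
      have h5 := rk_le n K t
      linarith
  rw [dist_def]
  refine max_lt ?_ (max_lt (hrho _) (hrho _))
  have := hM i hi1
  rwa [Real.dist_eq] at this

end Pool.Agent.helper3.RNPSpace
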