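import Mathlib
import Pool.Agent.helper3.RNPSpace

/-! Each family of lines is biLipschitz to a subset of the plane. -/

namespace Pool.Agent.helper3.RNPSpace

open Topology MeasureTheory Set

theorem r_add (n k j : ℕ) : r n (j + (k + 1)) = r n (k + 1) * (1 / ((n : ℝ) + 3)) ^ j := by
  unfold r
  rw [← pow_add]
  congr 1
  omega

theorem q_lt_one (n : ℕ) : 1 / ((n : ℝ) + 3) < 1 := by
  rw [div_lt_one (by positivity)]
  have h5 : (0 : ℝ) ≤ n := Nat.cast_nonneg n
  linarith

theorem summable_tail (n k : ℕ) : Summable (fun j => r n (j + (k + 1))) := by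
  have h := (summable_geometric_of_lt_one (r := 1 / ((n : ℝ) + 3)) (by positivity)
    (q_lt_one n)).mul_left (r n (k + 1))
  exact h.congr (fun j => (r_add n k j).symm)

theorem summable_r (n : ℕ) : Summable (fun j => r n j) := by
  have h := summable_tail n 0
  exact (summable_nat_add_iff 1).mp h

theorem tsum_tail_le (n k : ℕ) : ∑' j, r n (j + (k + 1)) ≤ r n k / 2 := by
  have e : ∑' j, r n (j + (k + 1)) = r n (k + 1) * (1 - 1 / ((n : ℝ) + 3))⁻¹ := by
    rw [← tsum_geometric_of_lt_one (r := 1 / ((n : ℝ) + 3)) (by positivity) (q_lt_one n),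
      ← tsum_mul_left]
    exact tsum_congr (fun j => r_add n k j)
  rw [e, ← r_succ n k]
  have h5 : (0 : ℝ) ≤ n := Nat.cast_nonneg n
  have h6 : (1 - 1 / ((n : ℝ) + 3))⁻¹ = ((n : ℝ) + 3) / ((n : ℝ) + 2) := by
    have h7 : (n : ℝ) + 3 ≠ 0 := by positivity
    have h8 : (n : ℝ) + 2 ≠ 0 := by positivity
    have h9 : 1 - 1 / ((n : ℝ) + 3) = ((n : ℝ) + 2) / ((n : ℝ) + 3) := by
      field_simp
      ring
    rw [h9, inv_div]
  rw [h6]
  have h7 : r n (k + 1) * (((n : ℝ) + 3) / ((n : ℝ) + 2)) ≤
      r n (k + 1) * (((n : ℝ) + 3) / 2) := by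
    apply mul_le_mul_of_nonneg_left _ (r_pos n (k + 1)).le
    apply div_le_div_of_nonneg_left (by positivity) (by norm_num)
    linarith
  calc _ ≤ _ := h7
    _ = _ := by ring

/-- the coordinate of a line -/
noncomputable def psi (n : ℕ) (z : ℕ → Bool) : ℝ := ∑' j, (if z j then r n j else 0)

theorem summable_psi (n : ℕ) (z : ℕ → Bool) : Summable (fun j => if z j then r n j else 0) := by
  apply Summable.of_nonneg_of_le (fun j => ?_) (fun j => ?_) (summable_r n)
  · split_ifs
    · exact (r_pos n j).le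
    · exact le_refl _
  · split_ifs
    · exact le_refl _
    · exact (r_pos n j).le

theorem psi_sub (n : ℕ) {z w : ℕ → Bool} (h : z ≠ w) :
    r n (PiNat.firstDiff z w) / 2 ≤ |psi n z - psi n w| ∧
      |psi n z - psi n w| ≤ 3 / 2 * r n (PiNat.firstDiff z w) := by
  set k := PiNat.firstDiff z w with hk
  set c : ℕ → ℝ := fun j => (if z j then r n j else 0) - (if w j then r n j else 0) with hc
  have hsum : Summable c := (summable_psi n z).sub (summable_psi n w)
  have h1 : psi n z - psi n w = ∑' j, c j := by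
    unfold psi
    rw [← (summable_psi n z).tsum_sub (summable_psi n w)]
  have hcabs : ∀ j, |c j| ≤ r n j := by
    intro j
    have := r_pos n j
    simp only [hc]
    split_ifs <;> simp [abs_of_pos this, this.le]
  have h2 : ∑' j, c j = (∑ j ∈ Finset.range (k + 1), c j) + ∑' j, c (j + (k + 1)) :=
    (hsum.sum_add_tsum_nat_add (k + 1)).symm
  have h3 : ∑ j ∈ Finset.range (k + 1), c j = c k := by
    rw [Finset.sum_range_succ, Finset.sum_eq_zero, zero_add]
    intro j hj
    have := PiNat.apply_eq_of_lt_firstDiff (Finset.mem_range.mp hj)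
    simp only [hc]
    rw [this, sub_self]
  have h4 : |c k| = r n k := by
    have hne : z k ≠ w k := PiNat.apply_firstDiff_ne h
    have hp := r_pos n k
    simp only [hc]
    cases hz : z k <;> cases hw : w k
    · rw [hz, hw] at hne; exact absurd rfl hne
    · simp [abs_of_pos hp]
    · simp [abs_of_pos hp]
    · rw [hz, hw] at hne; exact absurd rfl hne
  have h5 : |∑' j, c (j + (k + 1))| ≤ r n k / 2 := by
    refine le_trans ?_ (tsum_tail_le n k)
    have hs : Summable (fun j => |c (j + (k + 1))|) :=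
      Summable.of_nonneg_of_le (fun _ => abs_nonneg _) (fun j => hcabs _) (summable_tail n k)
    have h6 : |∑' j, c (j + (k + 1))| ≤ ∑' j, |c (j + (k + 1))| := by
      have := norm_tsum_le_tsum_norm (f := fun j => c (j + (k + 1))) hs
      simpa only [Real.norm_eq_abs] using this
    exact h6.trans (hs.tsum_le_tsum (fun j => hcabs _) (summable_tail n k))
  rw [h1, h2, h3]
  have a1 := abs_add_le (c k) (∑' j, c (j + (k + 1)))
  have a2 := abs_sub_abs_le_abs_add (c k) (∑' j, c (j + (k + 1)))
  constructor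
  · linarith
  · linarith

/-- the map to the plane -/
noncomputable def emb (x : Pt) : ℝ × ℝ := (x.ht, psi x.ix.1 x.ix.2)

theorem emb_bounds {x y : Pt} (h : x.ix.1 = y.ix.1) :
    (1 / (2 * ((x.ix.1 : ℝ) + 2))) * dist x y ≤ ‖emb x - emb y‖ ∧
      ‖emb x - emb y‖ ≤ 2 * dist x y := by
  have hn : (0 : ℝ) ≤ (x.ix.1 : ℝ) := Nat.cast_nonneg _
  have hnorm : ‖emb x - emb y‖ =
      max |x.ht - y.ht| |psi x.ix.1 x.ix.2 - psi x.ix.1 y.ix.2| := by
    rw [Prod.norm_def]
    simp only [emb, Prod.fst_sub, Prod.snd_sub, Real.norm_eq_abs]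
    rw [← h]
  by_cases h2 : x.ix.2 = y.ix.2
  · have h3 : x.ix = y.ix := Prod.ext h h2
    have hd : dist x y = |x.ht - y.ht| := by
      rw [dist_def, h3]
      simp [rho_self]
    rw [hnorm, h2, sub_self, abs_zero, hd, max_eq_left (abs_nonneg _)]
    constructor
    · have h4 : 1 / (2 * ((x.ix.1 : ℝ) + 2)) ≤ 1 := by
        rw [div_le_one (by positivity)]
        linarith
      have := mul_le_mul_of_nonneg_right h4 (abs_nonneg (x.ht - y.ht))
      linarith
    · linarith [abs_nonneg (x.ht - y.ht)]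
  · have h3 : x.ix ≠ y.ix := fun he => h2 (by rw [he])
    obtain ⟨p1, p2⟩ := psi_sub x.ix.1 h2
    set n := x.ix.1 with hndef
    set k := PiNat.firstDiff x.ix.2 y.ix.2 with hk
    have hrho : ∀ t, rho x.ix y.ix t = rk n k t := by
      intro t
      unfold rho
      rw [if_neg h3, if_pos h]
    have hd : dist x y = max |x.ht - y.ht| (max (rk n k x.ht) (rk n k y.ht)) := by
      rw [dist_def, hrho, hrho]
    have l1 := le_rk n k x.ht
    have u1 := rk_le n k x.ht
    have u2 := rk_le n k y.ht
    have d1 : |x.ht - y.ht| ≤ dist x y := by rw [hd]; exact le_max_left _ _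
    have d2 : rk n k x.ht ≤ dist x y := by
      rw [hd]; exact le_max_of_le_right (le_max_left _ _)
    have hdn : 0 ≤ dist x y := dist_nonneg
    have e1 : |x.ht - y.ht| ≤ ‖emb x - emb y‖ := by rw [hnorm]; exact le_max_left _ _
    have e2 : |psi n x.ix.2 - psi n y.ix.2| ≤ ‖emb x - emb y‖ := by
      rw [hnorm]; exact le_max_right _ _
    constructor
    · have h4 : dist x y ≤ 2 * ((n : ℝ) + 2) * ‖emb x - emb y‖ := by
        rw [hd]
        refine max_le ?_ (max_le ?_ ?_)
        · nlinarith [abs_nonneg (x.ht - y.ht)]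
        · nlinarith
        · nlinarith
      rw [div_mul_eq_mul_div, one_mul, div_le_iff₀ (by positivity)]
      linarith
    · rw [hnorm]
      refine max_le ?_ ?_
      · linarith
      · linarith

end Pool.Agent.helper3.RNPSpace
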