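import Mathlib
import Pool.Agent.helper3.RNPSpace

/-! The space does not embed in a space with the Radon-Nikodym property. -/

namespace Pool.Agent.helper3.RNPSpace

open Topology MeasureTheory Set

variable {V : Type*} [NormedAddCommGroup V] [NormedSpace ℝ V]

theorem not_countable_cantor : ¬ (univ : Set (ℕ → Bool)).Countable := by
  intro h
  have h1 : Countable (ℕ → Bool) := Set.countable_univ_iff.mp h
  obtain ⟨e, he⟩ := exists_surjective_nat (ℕ → Bool)
  obtain ⟨i, hi⟩ := he (fun i => !(e i i))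
  have := congrFun hi i
  simp at this

/-- heights in `[0,1]` at which `g` is nearly affine at all scales up to `d` -/
def good (g : ℝ → V) (ε d : ℝ) : Set ℝ :=
  {s | s ∈ Icc (0 : ℝ) 1 ∧ ∀ h h' : ℝ, |h| ≤ d → |h'| ≤ d →
    ‖h' • (g (s + h) - g s) - h • (g (s + h') - g s)‖ ≤ ε * |h| * |h'|}

theorem isClosed_good {g : ℝ → V} (hg : Continuous g) (ε d : ℝ) : IsClosed (good g ε d) := by
  unfold good
  simp only [Set.ofPred_and, Set.ofPred_forall]
  refine IsClosed.inter isClosed_Icc ?_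
  refine isClosed_iInter (fun h => isClosed_iInter (fun h' => isClosed_iInter (fun _ =>
    isClosed_iInter (fun _ => ?_))))
  apply isClosed_le
  · fun_prop
  · exact continuous_const

theorem good_anti (g : ℝ → V) (ε : ℝ) {d d' : ℝ} (h : d' ≤ d) : good g ε d ⊆ good g ε d' := by
  intro s hs
  exact ⟨hs.1, fun a b ha hb => hs.2 a b (ha.trans h) (hb.trans h)⟩

theorem exists_good_of_diff {g : ℝ → V} {s ε : ℝ} (hε : 0 < ε) (hs : s ∈ Icc (0 : ℝ) 1)
    (hd : DifferentiableAt ℝ g s) : ∃ m : ℕ, s ∈ good g ε (1 / ((m : ℝ) + 1)) := by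
  obtain ⟨v, hv⟩ : ∃ v, HasDerivAt g v s := ⟨_, hd.hasDerivAt⟩
  rw [hasDerivAt_iff_isLittleO_nhds_zero] at hv
  have h1 := hv.def (c := ε / 2) (by positivity)
  rw [Metric.eventually_nhds_iff] at h1
  obtain ⟨δ, hδ, h2⟩ := h1
  obtain ⟨m, hm⟩ := exists_nat_one_div_lt hδ
  refine ⟨m, hs, fun h h' hh hh' => ?_⟩
  have e1 : ‖g (s + h) - g s - h • v‖ ≤ ε / 2 * |h| := by
    have := h2 (y := h) (by rw [Real.dist_eq, sub_zero]; exact lt_of_le_of_lt hh hm)
    rwa [Real.norm_eq_abs] at this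
  have e2 : ‖g (s + h') - g s - h' • v‖ ≤ ε / 2 * |h'| := by
    have := h2 (y := h') (by rw [Real.dist_eq, sub_zero]; exact lt_of_le_of_lt hh' hm)
    rwa [Real.norm_eq_abs] at this
  have e3 : h' • (g (s + h) - g s) - h • (g (s + h') - g s) =
      h' • (g (s + h) - g s - h • v) - h • (g (s + h') - g s - h' • v) := by
    simp only [smul_sub, smul_smul]
    rw [mul_comm h h']
    abel
  rw [e3]
  calc _ ≤ ‖h' • (g (s + h) - g s - h • v)‖ + ‖h • (g (s + h') - g s - h' • v)‖ :=
        norm_sub_le _ _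
    _ ≤ |h'| * (ε / 2 * |h|) + |h| * (ε / 2 * |h'|) := by
        rw [norm_smul, norm_smul, Real.norm_eq_abs, Real.norm_eq_abs]
        exact add_le_add (mul_le_mul_of_nonneg_left e1 (abs_nonneg _))
          (mul_le_mul_of_nonneg_left e2 (abs_nonneg _))
    _ = ε * |h| * |h'| := by ring

theorem exists_scale {g : ℝ → V} {ε : ℝ} (hε : 0 < ε)
    (hd : ∀ᵐ s, DifferentiableAt ℝ g s) :
    ∃ m : ℕ, (1 / 2 : ENNReal) < volume (good g ε (1 / ((m : ℝ) + 1))) := by
  by_contra hcon
  push Not at hcon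
  have hmono : Monotone (fun m : ℕ => good g ε (1 / ((m : ℝ) + 1))) := by
    intro a b hab
    apply good_anti
    apply one_div_le_one_div_of_le (by positivity)
    have : (a : ℝ) ≤ b := by exact_mod_cast hab
    linarith
  have h1 : volume (⋃ m : ℕ, good g ε (1 / ((m : ℝ) + 1))) =
      ⨆ m : ℕ, volume (good g ε (1 / ((m : ℝ) + 1))) := hmono.measure_iUnion
  have h2 : volume (⋃ m : ℕ, good g ε (1 / ((m : ℝ) + 1))) ≤ 1 / 2 := by
    rw [h1]
    exact iSup_le hcon
  have h3 : (1 : ENNReal) ≤ volume (⋃ m : ℕ, good g ε (1 / ((m : ℝ) + 1))) := by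
    have e : volume (Icc (0 : ℝ) 1) = 1 := by simp
    rw [← e]
    apply measure_mono_ae
    filter_upwards [hd] with s hs hmem
    obtain ⟨m, hm⟩ := exists_good_of_diff hε hmem hs
    exact mem_iUnion.mpr ⟨m, hm⟩
  have h4 : (1 : ENNReal) ≤ 1 / 2 := h3.trans h2
  have h5 : (1 / 2 : ENNReal) < 1 := by
    rw [one_div]
    exact ENNReal.one_half_lt_one
  exact absurd h4 (not_le.mpr h5)

theorem no_embedding (hV : ∀ f : ℝ → V, (∃ K : NNReal, LipschitzWith K f) →
      ∀ᵐ x, DifferentiableAt ℝ f x)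
    (φ : Pt → V) (c C : ℝ) (hc : 0 < c)
    (hφ : ∀ x y, c * dist x y ≤ ‖φ x - φ y‖ ∧ ‖φ x - φ y‖ ≤ C * dist x y) : False := by
  -- the constant C is positive
  have hC : 0 < C := by
    have h1 := hφ (Pt.mk 0 (0, fun _ => true)) (Pt.mk 1 (0, fun _ => true))
    rw [dist_line] at h1
    norm_num at h1
    linarith
  obtain ⟨n, hn⟩ := exists_nat_gt (2 * C / c)
  have hn0 : (0 : ℝ) ≤ n := Nat.cast_nonneg n
  rw [div_lt_iff₀ hc] at hn
  set g : (ℕ → Bool) → ℝ → V := fun z s => φ (Pt.mk s (n, z)) with hg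
  have hgl : ∀ z, LipschitzWith (Real.toNNReal C) (g z) := by
    intro z
    apply LipschitzWith.of_dist_le_mul
    intro s t
    rw [dist_eq_norm, Real.coe_toNNReal C hC.le, Real.dist_eq]
    have := (hφ (Pt.mk s (n, z)) (Pt.mk t (n, z))).2
    rw [dist_line] at this
    exact this
  set ε : ℝ := c / 32 with hε
  have hεpos : 0 < ε := by positivity
  have hm : ∀ z, ∃ m : ℕ, (1 / 2 : ENNReal) < volume (good (g z) ε (1 / ((m : ℝ) + 1))) :=
    fun z => exists_scale hεpos (hV (g z) ⟨_, hgl z⟩)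
  choose m hm using hm
  -- an infinite fibre of m
  obtain ⟨m0, hinf⟩ : ∃ m0 : ℕ, (m ⁻¹' {m0}).Infinite := by
    by_contra hcon
    push Not at hcon
    have h1 : (univ : Set (ℕ → Bool)) = ⋃ k : ℕ, m ⁻¹' {k} := by
      ext z; simp
    have h2 : (univ : Set (ℕ → Bool)).Countable := by
      rw [h1]
      exact countable_iUnion (fun k => (hcon k).countable)
    exact not_countable_cantor h2
  set δ : ℝ := 1 / ((m0 : ℝ) + 1) with hδ
  have hδpos : 0 < δ := by positivity
  -- choose a large index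
  set D : ℝ := (n : ℝ) + 2 with hD
  have hDpos : 0 < D := by positivity
  set η : ℝ := min (δ / (2 * D)) (c * δ / (32 * C * D)) with hη
  have hηpos : 0 < η := by positivity
  obtain ⟨J, hJ⟩ : ∃ J, r n J < η := ((tendsto_r n).eventually (gt_mem_nhds hηpos)).exists
  obtain ⟨z, hz, w, hw, hzw, hrest⟩ : ∃ z ∈ m ⁻¹' {m0}, ∃ w ∈ m ⁻¹' {m0}, z ≠ w ∧
      (fun i : Fin J => z i) = fun i : Fin J => w i := by
    have hfin : (univ : Set (Fin J → Bool)).Finite := finite_univ
    exact hinf.exists_ne_map_eq_of_mapsTo (f := fun (z : ℕ → Bool) (i : Fin J) => z i)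
      (fun _ _ => mem_univ _) hfin
  set k := PiNat.firstDiff z w with hk
  have hkJ : J ≤ k := by
    by_contra hlt
    push Not at hlt
    exact PiNat.apply_firstDiff_ne hzw (congrFun hrest ⟨k, hlt⟩)
  set ρ := r n k with hρ
  have hρpos : 0 < ρ := r_pos n k
  have hρη : ρ < η := lt_of_le_of_lt (r_anti n hkJ) hJ
  -- a common good height
  obtain ⟨s, hs1, hs2⟩ : (good (g z) ε δ ∩ good (g w) ε δ).Nonempty := by
    have hz' : m z = m0 := hz
    have hw' : m w = m0 := hw
    have v1 := hm z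
    have v2 := hm w
    rw [hz'] at v1
    rw [hw'] at v2
    apply nonempty_inter_of_measure_lt_add volume
      (isClosed_good (hgl w).continuous ε δ).measurableSet
      (u := Icc (0 : ℝ) 1) (fun s hs => hs.1) (fun s hs => hs.1)
    have e : volume (Icc (0 : ℝ) 1) = 1 := by simp
    rw [e]
    calc (1 : ENNReal) = 1 / 2 + 1 / 2 := by
          rw [one_div, ENNReal.inv_two_add_inv_two]
      _ < _ := ENNReal.add_lt_add v1 v2
  -- the difference function
  set G : ℝ → V := fun t => g z t - g w t with hG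
  have hne : ((n, z) : Idx) ≠ (n, w) := fun h => hzw (congrArg Prod.snd h)
  have hrho : ∀ t, rho (n, z) (n, w) t = rk n k t := by
    intro t
    unfold rho
    rw [if_neg hne, if_pos rfl]
  have hG1 : ∀ t, c * rk n k t ≤ ‖G t‖ ∧ ‖G t‖ ≤ C * rk n k t := by
    intro t
    have := hφ (Pt.mk t (n, z)) (Pt.mk t (n, w))
    rw [dist_height, hrho] at this
    exact this
  have hG2 : ∀ t, ‖G t‖ ≤ C * (D * ρ) := by
    intro t
    exact (hG1 t).2.trans (mul_le_mul_of_nonneg_left (rk_le n k t) hC.le)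
  have hGaff : ∀ h, |h| ≤ δ → ‖G (s + h) - G s‖ ≤ 2 * ε * |h| + |h| / δ * (2 * (C * (D * ρ))) := by
    intro h hh
    have a1 := hs1.2 h δ hh (by rw [abs_of_pos hδpos])
    have a2 := hs2.2 h δ hh (by rw [abs_of_pos hδpos])
    rw [abs_of_pos hδpos] at a1 a2
    have e1 : δ • (G (s + h) - G s) - h • (G (s + δ) - G s) =
        (δ • (g z (s + h) - g z s) - h • (g z (s + δ) - g z s)) -
        (δ • (g w (s + h) - g w s) - h • (g w (s + δ) - g w s)) := by
      simp only [hG, smul_sub]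
      abel
    have a3 : ‖δ • (G (s + h) - G s) - h • (G (s + δ) - G s)‖ ≤ 2 * (ε * |h| * δ) := by
      rw [e1]
      refine (norm_sub_le _ _).trans ?_
      linarith
    have a4 : ‖G (s + δ) - G s‖ ≤ 2 * (C * (D * ρ)) := by
      refine (norm_sub_le _ _).trans ?_
      linarith [hG2 (s + δ), hG2 s]
    have a5 : ‖δ • (G (s + h) - G s)‖ ≤ 2 * (ε * |h| * δ) + |h| * (2 * (C * (D * ρ))) := by
      have e2 : δ • (G (s + h) - G s) = (δ • (G (s + h) - G s) - h • (G (s + δ) - G s)) +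
        h • (G (s + δ) - G s) := by abel
      rw [e2]
      refine (norm_add_le _ _).trans ?_
      refine add_le_add a3 ?_
      rw [norm_smul, Real.norm_eq_abs]
      exact mul_le_mul_of_nonneg_left a4 (abs_nonneg _)
    rw [norm_smul, Real.norm_eq_abs, abs_of_pos hδpos] at a5
    have a6 : ‖G (s + h) - G s‖ ≤ (2 * (ε * |h| * δ) + |h| * (2 * (C * (D * ρ)))) / δ := by
      rw [le_div_iff₀ hδpos]
      linarith
    refine a6.trans (le_of_eq ?_)
    field_simp
  -- two special heights near s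
  set H : ℝ := 2 * ((n : ℝ) + 1) * r n k with hH
  have hHpos : 0 < H := hpos n k
  set s1 : ℝ := H * round (s / H) with hs1def
  have hd1 : |s1 - s| ≤ H / 2 := by
    have := lat_le_half hHpos s
    unfold lat at this
    rwa [abs_sub_comm] at this
  have hr1 : rk n k s1 = ρ := by
    unfold rk
    rw [hs1def, lat_mul hHpos, add_zero]
  have hr2 : rk n k (s1 + H / 2) = (n + 2) * ρ := by
    unfold rk
    rw [hs1def, lat_mul_add hHpos, hH]
    ring
  have hHD : H ≤ 2 * D * ρ := by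
    rw [hH, hD]
    nlinarith
  have hHδ : H ≤ δ := by
    have h1 : ρ < δ / (2 * D) := lt_of_lt_of_le hρη (min_le_left _ _)
    rw [lt_div_iff₀ (by positivity)] at h1
    linarith
  have b1 := hGaff (s1 - s) (by linarith)
  have b2 := hGaff (s1 + H / 2 - s) (by
    have : |s1 + H / 2 - s| ≤ |s1 - s| + |H / 2| := by
      have := abs_add_le (s1 - s) (H / 2)
      have e : s1 + H / 2 - s = (s1 - s) + H / 2 := by ring
      rw [e]; exact this
    rw [abs_of_pos (by positivity : (0 : ℝ) < H / 2)] at this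
    linarith)
  have hd2 : |s1 + H / 2 - s| ≤ H := by
    have : |s1 + H / 2 - s| ≤ |s1 - s| + |H / 2| := by
      have := abs_add_le (s1 - s) (H / 2)
      have e : s1 + H / 2 - s = (s1 - s) + H / 2 := by ring
      rw [e]; exact this
    rw [abs_of_pos (by positivity : (0 : ℝ) < H / 2)] at this
    linarith
  rw [add_sub_cancel] at b1 b2
  -- estimates
  have hsmall : ∀ x : ℝ, |x| ≤ H → 2 * ε * |x| + |x| / δ * (2 * (C * (D * ρ))) ≤
      c * D * ρ / 4 := by
    intro x hx
    have hx0 : 0 ≤ |x| := abs_nonneg x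
    have hx1 : |x| ≤ 2 * D * ρ := hx.trans hHD
    have t1 : 2 * ε * |x| ≤ c * D * ρ / 8 := by
      have : 2 * ε * |x| ≤ 2 * ε * (2 * D * ρ) :=
        mul_le_mul_of_nonneg_left hx1 (by positivity)
      rw [hε] at this ⊢
      linarith
    have t2 : |x| / δ * (2 * (C * (D * ρ))) ≤ c * D * ρ / 8 := by
      have h1 : ρ < c * δ / (32 * C * D) := lt_of_lt_of_le hρη (min_le_right _ _)
      rw [lt_div_iff₀ (by positivity)] at h1
      have h2 : |x| / δ * (2 * (C * (D * ρ))) ≤ (2 * D * ρ) / δ * (2 * (C * (D * ρ))) := by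
        apply mul_le_mul_of_nonneg_right _ (by positivity)
        exact div_le_div_of_nonneg_right hx1 hδpos.le
      refine h2.trans ?_
      rw [div_mul_eq_mul_div, div_le_iff₀ hδpos]
      have h3 : (2 * D * ρ) * (2 * (C * (D * ρ))) = (D * ρ) * (4 * C * D * ρ) := by ring
      have h4 : c * D * ρ / 8 * δ = (D * ρ) * (c * δ / 8) := by ring
      rw [h3, h4]
      apply mul_le_mul_of_nonneg_left _ (by positivity)
      linarith
    linarith
  have f1 := hsmall (s1 - s) (hd1.trans (by linarith))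
  have f2 := hsmall (s1 + H / 2 - s) hd2
  have g1 := (hG1 s1).2
  have g2 := (hG1 (s1 + H / 2)).1
  rw [hr1] at g1
  rw [hr2] at g2
  have tri : ‖G (s1 + H / 2)‖ ≤ ‖G s1‖ + ‖G (s1 + H / 2) - G s‖ + ‖G s1 - G s‖ := by
    have e : G (s1 + H / 2) = G s1 + (G (s1 + H / 2) - G s) - (G s1 - G s) := by abel
    calc ‖G (s1 + H / 2)‖ = ‖G s1 + (G (s1 + H / 2) - G s) - (G s1 - G s)‖ := by rw [← e]
      _ ≤ ‖G s1 + (G (s1 + H / 2) - G s)‖ + ‖G s1 - G s‖ := norm_sub_le _ _
      _ ≤ _ := by linarith [norm_add_le (G s1) (G (s1 + H / 2) - G s)]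
  have fin : c * (D * ρ) ≤ C * ρ + c * D * ρ / 2 := by
    have : c * ((n + 2) * ρ) = c * (D * ρ) := by rw [hD]
    linarith
  have fin2 : c * D / 2 ≤ C := by
    have : c * D / 2 * ρ ≤ C * ρ := by linarith
    exact le_of_mul_le_mul_right this hρpos
  nlinarith

end Pool.Agent.helper3.RNPSpace
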